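import Pool.Agent.H.MP_6a1d6a_ag.SM.A2
import Pool.Agent.H.MP_6a1d6a_ag.S

/-!
MP_6a1d6a_ag/SM, module A5: the sum of the orders is nonpositive, general form.

Copy the proof of `sum_le_zero` in `S.lean` together with the lemmas `S_other`, `S_pair`, `S_local` (the other auxiliary lemmas `S_...` of that module
can be used as they are). Changes: `S_other` is now the hypothesis that `m` vanishes near `c` off `c`; in `S_pair` the integrability of
`u · g` and in `S_local` the inequality come from `WForm`: `u ∘ χ_c.symm = m c log ‖z - z_c‖ + w` a.e. on the ball, `log ‖z - z_c‖ * g` is integrable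
(see `loc_int` in K3: `int_log`, `K3_mul`), and `∫ log ‖z - z_c‖ lap η = kap * η z_c` (`log_pot`), so
`m c * kap * η z_c ≤ ∫ u lap η` as in `local_ineq`.
-/

set_option autoImplicit false

open Set Filter Topology Metric MeasureTheory
open scoped ContDiff Manifold

namespace Pool.Agent.Nef6.SM

/-- the local form in the sense of distributions -/
def A5Loc (u : ℂ → ℝ) (c : ℂ) (R : ℝ) (m : ℤ) : Prop :=
  ∃ w : ℂ → ℝ, WForm w c R ∧ ∀ᵐ z : ℂ, z ∈ ball c R → u z = m * Real.log ‖z - c‖ + w z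

theorem A5_form {u w : ℂ → ℝ} {c : ℂ} {R : ℝ} {m : ℤ}
    (hu : ∀ᵐ z : ℂ, z ∈ ball c R → u z = m * Real.log ‖z - c‖ + w z) {g : ℂ → ℝ}
    (hg : ∀ z, z ∉ ball c R → g z = 0) :
    (fun z => u z * g z) =ᵐ[volume] fun z => m * (Real.log ‖z - c‖ * g z) + w z * g z := by
  filter_upwards [hu] with z hz
  by_cases hzb : z ∈ ball c R
  · rw [hz hzb]
    ring
  · rw [hg z hzb]
    ring

theorem A5_int {u : ℂ → ℝ} {c : ℂ} {R : ℝ} {m : ℤ} (hu : A5Loc u c R m) {g : ℂ → ℝ}
    (hg : Continuous g) (hc : HasCompactSupport g) (hs : tsupport g ⊆ ball c R) :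
    Integrable (fun z => u z * g z) := by
  obtain ⟨w, hw, hu⟩ := hu
  have hoff : ∀ z, z ∉ ball c R → g z = 0 := fun z hz =>
    image_eq_zero_of_notMem_tsupport fun h => hz (hs h)
  refine Integrable.congr ?_ (A5_form hu hoff).symm
  obtain ⟨C, hC0, hC⟩ := K3_bdd hg hc
  have h1 : Integrable (fun z => Real.log ‖z - c‖ * g z) := by
    have h2 : Integrable ((ball c R).indicator (fun z => Real.log ‖z - c‖)) := by
      rw [integrable_indicator_iff measurableSet_ball]
      exact int_log c R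
    have h3 := K3_mul h2 hg hC
    refine h3.congr (Eventually.of_forall fun z => ?_)
    by_cases hz : z ∈ ball c R
    · simp only [indicator_of_mem hz]
    · simp only [indicator_of_notMem hz, hoff z hz, mul_zero]
  exact (h1.const_mul _).add (hw.int g hg hc hs)

theorem A5_ineq {u : ℂ → ℝ} {c : ℂ} {R : ℝ} {m : ℤ} (hu : A5Loc u c R m) {η : ℂ → ℝ}
    (hη : ContDiff ℝ ∞ η) (hc : HasCompactSupport η) (hs : tsupport η ⊆ ball c R)
    (h0 : ∀ z, 0 ≤ η z) : m * kap * η c ≤ ∫ z, u z * lap η z := by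
  obtain ⟨w, hw, hu⟩ := hu
  have hoff : ∀ z, z ∉ ball c R → lap η z = 0 := fun z hz =>
    lap_off fun h => hz (hs h)
  obtain ⟨h1, h2⟩ := log_pot c hη hc
  have h3 := hw.sub η hη hc hs h0
  have hts : tsupport (lap η) ⊆ tsupport η := by
    refine closure_minimal ?_ (isClosed_tsupport η)
    intro z hz
    by_contra h
    exact hz (lap_off h)
  have h4 := hw.int (lap η) (K3_lap_cont hη) (K3_lap_cs hc) (hts.trans hs)
  rw [integral_congr_ae (A5_form hu hoff), integral_add (h1.const_mul _) h4, integral_const_mul, h2]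
  linarith

section
variable {C : Type} [TopologicalSpace C] [ChartedSpace ℂ C] [IsManifold 𝓘(ℂ) ω C] [CompactSpace C]
  [T2Space C]

omit [IsManifold 𝓘(ℂ) ω C] [CompactSpace C] [T2Space C] in
theorem A5_other {m : C → ℤ} {R : C → ℝ}
    (hz : ∀ c, ∀ z ∈ ball (chartAt ℂ c c) (R c), z ≠ chartAt ℂ c c → m ((chartAt ℂ c).symm z) = 0)
    {c c' : C} (hc : c' ∈ S_U C R c) (hne : c' ≠ c) : m c' = 0 := by
  have h1 := hz c (chartAt ℂ c c') hc.2
    (fun he => hne ((chartAt ℂ c).injOn hc.1 (mem_chart_source ℂ c) he))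
  rwa [(chartAt ℂ c).left_inv hc.1] at h1

omit [CompactSpace C] [T2Space C] in
/-- the general form of the two integrals -/
theorem A5_pair {u : C → ℝ} {m : C → ℤ} {R : C → ℝ}
    (hsub : ∀ c, ball (chartAt ℂ c c) (R c) ⊆ (chartAt ℂ c).target)
    (hloc : ∀ c, A5Loc (fun z => u ((chartAt ℂ c).symm z)) (chartAt ℂ c c) (R c) (m c))
    {f g : C → ℝ} (hf : ContMDiff 𝓘(ℝ, ℂ) 𝓘(ℝ, ℝ) ∞ f) (hg : ContMDiff 𝓘(ℝ, ℂ) 𝓘(ℝ, ℝ) ∞ g)
    (c c' : C) {K : Set ℂ} (hK : IsCompact K) (hKB : K ⊆ ball (chartAt ℂ c c) (R c))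
    (h0 : ∀ z ∈ (chartAt ℂ c).target, z ∉ K →
      g ((chartAt ℂ c).symm z) * lap (fun z => f ((chartAt ℂ c).symm z)) z = 0)
    (h1 : ∀ z ∈ (chartAt ℂ c).target, (chartAt ℂ c).symm z ∉ (chartAt ℂ c').source →
      g ((chartAt ℂ c).symm z) * lap (fun z => f ((chartAt ℂ c).symm z)) z = 0) :
    Integrable (fun z => u ((chartAt ℂ c).symm z) *
        (ball (chartAt ℂ c c) (R c)).indicator (fun z =>
          g ((chartAt ℂ c).symm z) * lap (fun z => f ((chartAt ℂ c).symm z)) z) z) ∧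
    ∫ z in (chartAt ℂ c).target ∩ (chartAt ℂ c).symm ⁻¹' (chartAt ℂ c').source,
        (fun x => u x * g x) ((chartAt ℂ c).symm z) *
          lap (fun z => f ((chartAt ℂ c).symm z)) z =
      ∫ z, u ((chartAt ℂ c).symm z) *
        (ball (chartAt ℂ c c) (R c)).indicator (fun z =>
          g ((chartAt ℂ c).symm z) * lap (fun z => f ((chartAt ℂ c).symm z)) z) z := by
  have hcontg : ContinuousOn (fun z => g ((chartAt ℂ c).symm z)) (chartAt ℂ c).target :=
    (smooth_chart hg c).continuousOn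
  have hcontl : ContinuousOn (lap (fun z => f ((chartAt ℂ c).symm z))) (chartAt ℂ c).target :=
    lap_cont (chartAt ℂ c).open_target (smooth_chart hf c)
  have hcont : ContinuousOn (fun z => g ((chartAt ℂ c).symm z) *
      lap (fun z => f ((chartAt ℂ c).symm z)) z) (ball (chartAt ℂ c c) (R c)) :=
    (hcontg.mul hcontl).mono (hsub c)
  have h0' : ∀ z ∈ ball (chartAt ℂ c c) (R c), z ∉ K →
      (fun z => g ((chartAt ℂ c).symm z) * lap (fun z => f ((chartAt ℂ c).symm z)) z) z = 0 :=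
    fun z hz hzK => h0 z (hsub c hz) hzK
  have hts := S_ind_tsupport hK.isClosed h0'
  refine ⟨A5_int (hloc c) (S_ind_cont isOpen_ball hK.isClosed hKB hcont h0')
    (hK.of_isClosed_subset (isClosed_tsupport _) hts) (hts.trans hKB), ?_⟩
  have hO : MeasurableSet ((chartAt ℂ c).target ∩
      (chartAt ℂ c).symm ⁻¹' (chartAt ℂ c').source) :=
    ((chartAt ℂ c).symm.isOpen_inter_preimage (chartAt ℂ c').open_source).measurableSet
  rw [← integral_indicator hO]
  refine integral_congr_ae (Eventually.of_forall fun z => ?_)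
  simp only
  by_cases hzB : z ∈ ball (chartAt ℂ c c) (R c)
  · rw [Set.indicator_of_mem hzB]
    by_cases hzs : (chartAt ℂ c).symm z ∈ (chartAt ℂ c').source
    · rw [Set.indicator_of_mem (show z ∈ (chartAt ℂ c).target ∩
        (chartAt ℂ c).symm ⁻¹' (chartAt ℂ c').source from ⟨hsub c hzB, hzs⟩)]
      ring
    · rw [Set.indicator_of_notMem (fun h => hzs h.2), h1 z (hsub c hzB) hzs, mul_zero]
  · rw [Set.indicator_of_notMem hzB, mul_zero]
    by_cases hzO : z ∈ (chartAt ℂ c).target ∩ (chartAt ℂ c).symm ⁻¹' (chartAt ℂ c').source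
    · rw [Set.indicator_of_mem hzO, mul_assoc, h0 z hzO.1 (fun h => hzB (hKB h)), mul_zero]
    · rw [Set.indicator_of_notMem hzO]

omit [T2Space C] in
/-- (d) -/
theorem A5_local {u : C → ℝ} {m : C → ℤ} {R : C → ℝ} (hR : ∀ c, 0 < R c)
    (hsub : ∀ c, ball (chartAt ℂ c c) (R c) ⊆ (chartAt ℂ c).target)
    (hloc : ∀ c, A5Loc (fun z => u ((chartAt ℂ c).symm z)) (chartAt ℂ c c) (R c) (m c))
    {f : C → ℝ} (hf : ContMDiff 𝓘(ℝ, ℂ) 𝓘(ℝ, ℝ) ∞ f) (c : C) (hs : tsupport f ⊆ S_U C R c)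
    (h0 : ∀ x, 0 ≤ f x) :
    m c * kap * f c ≤ ∫ z, u ((chartAt ℂ c).symm z) *
      (ball (chartAt ℂ c c) (R c)).indicator (lap (fun z => f ((chartAt ℂ c).symm z))) z := by
  obtain ⟨hK, hKB⟩ := S_image hs
  set K := (chartAt ℂ c) '' tsupport f with hKdef
  set B := ball (chartAt ℂ c c) (R c) with hB
  have h1 : ∀ z ∈ B, z ∉ K → (fun z => f ((chartAt ℂ c).symm z)) z = 0 := fun z hz hzK =>
    S_off0 (S_notin (hsub c hz) hzK)
  have hsm := S_ind_contDiff isOpen_ball hK.isClosed hKB ((smooth_chart hf c).mono (hsub c)) h1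
  have hts := S_ind_tsupport hK.isClosed h1
  have h2 := A5_ineq (hloc c) hsm (hK.of_isClosed_subset (isClosed_tsupport _) hts)
    (hts.trans hKB) (fun z => by
      by_cases hz : z ∈ B
      · rw [Set.indicator_of_mem hz]; exact h0 _
      · rw [Set.indicator_of_notMem hz])
  have h3 : B.indicator (fun z => f ((chartAt ℂ c).symm z)) (chartAt ℂ c c) = f c := by
    rw [Set.indicator_of_mem (mem_ball_self (hR c)),
      (chartAt ℂ c).left_inv (mem_chart_source ℂ c)]
  rw [h3] at h2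
  refine h2.trans (le_of_eq ?_)
  refine integral_congr_ae (Eventually.of_forall fun z => ?_)
  simp only
  congr 1
  by_cases hz : z ∈ B
  · rw [Set.indicator_of_mem hz]
    exact lap_congr (S_ind_ev_mem isOpen_ball hz)
  · rw [Set.indicator_of_notMem hz]
    exact lap_off (fun h => hz (hKB (hts h)))

end

theorem sum_le {C : Type} [TopologicalSpace C] [ChartedSpace ℂ C] [IsManifold 𝓘(ℂ) ω C]
    [CompactSpace C] [T2Space C] {u : C → ℝ} {m : C → ℤ}
    (h : ∀ c : C, ∃ R : ℝ, 0 < R ∧ ball (chartAt ℂ c c) R ⊆ (chartAt ℂ c).target ∧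
      (∀ z ∈ ball (chartAt ℂ c c) R, z ≠ chartAt ℂ c c → m ((chartAt ℂ c).symm z) = 0) ∧
      ∃ w : ℂ → ℝ, WForm w (chartAt ℂ c c) R ∧
        ∀ᵐ z : ℂ, z ∈ ball (chartAt ℂ c c) R →
          u ((chartAt ℂ c).symm z) = m c * Real.log ‖z - chartAt ℂ c c‖ + w z) :
    ∑ᶠ c, m c ≤ 0 := by
  classical
  have : IsManifold 𝓘(ℝ, ℂ) ∞ C := real_manifold C
  have h' : ∀ c : C, ∃ R : ℝ, 0 < R ∧ ball (chartAt ℂ c c) R ⊆ (chartAt ℂ c).target ∧
      (∀ z ∈ ball (chartAt ℂ c c) R, z ≠ chartAt ℂ c c → m ((chartAt ℂ c).symm z) = 0) ∧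
      A5Loc (fun z => u ((chartAt ℂ c).symm z)) (chartAt ℂ c c) R (m c) := h
  choose R hR hsub hz0m hloc using h'
  obtain ⟨t, ht⟩ := isCompact_univ.elim_nhds_subcover (S_U C R)
    (fun c _ => (S_U_open R c).mem_nhds (S_U_mem hR c))
  have hcov : ∀ x : C, ∃ i ∈ t, x ∈ S_U C R i := by
    intro x
    have := ht.2 (Set.mem_univ x)
    simpa using this
  have hsupp : Function.support m ⊆ (t : Set C) := by
    intro x hx
    obtain ⟨i, hi, hxi⟩ := hcov x
    by_cases hne : x = i
    · rw [hne]; exact hi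
    · exact absurd (A5_other hz0m hxi hne) hx
  rw [finsum_eq_sum_of_support_subset m hsupp]
  -- partition of unity
  obtain ⟨ψ, hψ⟩ := SmoothPartitionOfUnity.exists_isSubordinate 𝓘(ℝ, ℂ) (isClosed_univ (X := C))
    (fun i : t => S_U C R i) (fun i => S_U_open R i) (fun x _ => by
      obtain ⟨i, hi, hxi⟩ := hcov x
      exact Set.mem_iUnion.mpr ⟨⟨i, hi⟩, hxi⟩)
  have hsm : ∀ i, ContMDiff 𝓘(ℝ, ℂ) 𝓘(ℝ, ℝ) ∞ (ψ i : C → ℝ) := fun i => (ψ i).contMDiff
  have hnn : ∀ i x, 0 ≤ ψ i x := fun i x => ψ.nonneg i x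
  have hsum : ∀ x, ∑ i, ψ i x = 1 := by
    intro x
    have := ψ.sum_eq_one (Set.mem_univ x)
    rwa [finsum_eq_sum_of_fintype] at this
  have hsup : ∀ i : t, tsupport (ψ i : C → ℝ) ⊆ S_U C R i := fun i => hψ i
  -- the value of ψ_i at the centre
  have hone : ∀ i : t, (m i : ℝ) * ψ i i = m i := by
    intro i
    by_cases hmi : m i = 0
    · simp [hmi]
    · have h1 : ∀ j : t, j ≠ i → ψ j (i : C) = 0 := by
        intro j hj
        refine image_eq_zero_of_notMem_tsupport (fun hmem => hmi ?_)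
        exact A5_other hz0m (hsup j hmem) (fun he => hj (Subtype.ext he.symm))
      have h2 := hsum (i : C)
      rw [Finset.sum_eq_single i (fun j _ hj => h1 j hj)
        (fun h => absurd (Finset.mem_univ i) h)] at h2
      rw [h2, mul_one]
  -- the two families of integrals
  let A : t → t → ℂ → ℝ := fun i j z => u ((chartAt ℂ (i : C)).symm z) *
    (ball (chartAt ℂ (i : C) i) (R i)).indicator (fun z =>
      ψ j ((chartAt ℂ (i : C)).symm z) * lap (fun z => ψ i ((chartAt ℂ (i : C)).symm z)) z) z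
  let B : t → t → ℂ → ℝ := fun i j z => u ((chartAt ℂ (j : C)).symm z) *
    (ball (chartAt ℂ (j : C) j) (R j)).indicator (fun z =>
      ψ j ((chartAt ℂ (j : C)).symm z) * lap (fun z => ψ i ((chartAt ℂ (j : C)).symm z)) z) z
  have hA : ∀ i j : t, Integrable (A i j) ∧
      ∫ z in (chartAt ℂ (i : C)).target ∩ (chartAt ℂ (i : C)).symm ⁻¹' (chartAt ℂ (j : C)).source,
        (fun x => u x * ψ j x) ((chartAt ℂ (i : C)).symm z) *
          lap (fun z => ψ i ((chartAt ℂ (i : C)).symm z)) z = ∫ z, A i j z := by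
    intro i j
    obtain ⟨hK, hKB⟩ := S_image (hsup i)
    refine A5_pair hsub hloc (hsm i) (hsm j) (i : C) (j : C) hK hKB ?_ ?_
    · intro z hz hzK
      rw [S_off hz (S_notin hz hzK), mul_zero]
    · intro z hz hzs
      rw [S_off0 (f := ψ j) (fun hm => hzs (hsup j hm).1), zero_mul]
  have hB : ∀ i j : t, Integrable (B i j) ∧
      ∫ z in (chartAt ℂ (j : C)).target ∩ (chartAt ℂ (j : C)).symm ⁻¹' (chartAt ℂ (i : C)).source,
        (fun x => u x * ψ j x) ((chartAt ℂ (j : C)).symm z) *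
          lap (fun z => ψ i ((chartAt ℂ (j : C)).symm z)) z = ∫ z, B i j z := by
    intro i j
    obtain ⟨hK, hKB⟩ := S_image (hsup j)
    refine A5_pair hsub hloc (hsm i) (hsm j) (j : C) (i : C) hK hKB ?_ ?_
    · intro z hz hzK
      rw [S_off0 (f := ψ j) (S_notin hz hzK), zero_mul]
    · intro z hz hzs
      rw [S_off hz (fun hm => hzs (hsup i hm).1), mul_zero]
  have hAB : ∀ i j : t, ∫ z, A i j z = ∫ z, B i j z := by
    intro i j
    rw [← (hA i j).2, ← (hB i j).2]
    exact transfer (hsm i) (fun x => u x * ψ j x) (i : C) (j : C)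
  -- the sums
  have hsA : ∀ i : t, ∑ j, ∫ z, A i j z = ∫ z, u ((chartAt ℂ (i : C)).symm z) *
      (ball (chartAt ℂ (i : C) i) (R i)).indicator
        (lap (fun z => ψ i ((chartAt ℂ (i : C)).symm z))) z := by
    intro i
    rw [← integral_finsetSum _ (fun j _ => (hA i j).1)]
    refine integral_congr_ae (Eventually.of_forall fun z => ?_)
    simp only [A]
    rw [← Finset.mul_sum]
    congr 1
    by_cases hz : z ∈ ball (chartAt ℂ (i : C) i) (R i)
    · simp only [Set.indicator_of_mem hz]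
      rw [← Finset.sum_mul, hsum, one_mul]
    · simp only [Set.indicator_of_notMem hz, Finset.sum_const_zero]
  have hsB : ∀ j : t, ∑ i, ∫ z, B i j z = 0 := by
    intro j
    rw [← integral_finsetSum _ (fun i _ => (hB i j).1)]
    have hz0 : ∀ z, ∑ i, B i j z = 0 := by
      intro z
      simp only [B]
      rw [← Finset.mul_sum]
      by_cases hz : z ∈ ball (chartAt ℂ (j : C) j) (R j)
      · simp only [Set.indicator_of_mem hz]
        rw [← Finset.mul_sum, ← lap_sum Finset.univ (f := fun i : t => fun z =>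
          ψ i ((chartAt ℂ (j : C)).symm z)) (fun i _ =>
            (smooth_chart (hsm i) (j : C)).contDiffAt
              ((chartAt ℂ (j : C)).open_target.mem_nhds (hsub j hz)))]
        simp only [hsum]
        rw [lap_const, mul_zero, mul_zero]
      · simp only [Set.indicator_of_notMem hz, Finset.sum_const_zero, mul_zero]
    simp only [hz0, integral_zero]
  have hfin : (∑ i : t, (m i : ℝ)) * kap ≤ 0 := by
    calc (∑ i : t, (m i : ℝ)) * kap = ∑ i : t, (m i : ℝ) * kap * ψ i i := by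
          rw [Finset.sum_mul]
          refine Finset.sum_congr rfl (fun i _ => ?_)
          rw [mul_right_comm, hone i]
      _ ≤ ∑ i : t, ∑ j, ∫ z, A i j z := by
          refine Finset.sum_le_sum (fun i _ => ?_)
          rw [hsA i]
          exact A5_local hR hsub hloc (hsm i) (i : C) (hsup i) (hnn i)
      _ = ∑ i : t, ∑ j, ∫ z, B i j z := by
          refine Finset.sum_congr rfl (fun i _ => Finset.sum_congr rfl (fun j _ => hAB i j))
      _ = 0 := by
          rw [Finset.sum_comm]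
          exact Finset.sum_eq_zero (fun j _ => hsB j)
  have h3 : (∑ i : t, (m i : ℝ)) ≤ 0 := by
    by_contra hlt
    push Not at hlt
    exact absurd hfin (not_le.mpr (mul_pos hlt kap_pos))
  rw [← Finset.sum_coe_sort t m]
  exact_mod_cast h3

end Pool.Agent.Nef6.SM
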