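import Pool.Agent.H.MP_6a1d6a_ag.Defs
import Mathlib

/-!
MP_6a1d6a_ag/SM, module C3: a meromorphic field along a curve in a chart, near a point.

See the proof of `nef_of_models` in `CC/Nef.lean` (the part from `obtain ⟨hmero, hord⟩` to `hgd`): `g` from `meromorphicOrderAt_eq_int_iff`, a small ball on
which everything holds. That `o = 0` at the other points of the ball: at `z' ≠ z₀` in the ball the function `σ φ ∘ (chartAt ℂ c).symm` is near `z'`
equal to `(z - z₀) ^ (o c) • g z`, analytic and nonvanishing at `z'`, so its `meromorphicOrderAt` is `0`; it is also `o` of the point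
`(chartAt ℂ c).symm z'` by the second part of `IsMeroField` for the same charts `φ` and `χ = chartAt ℂ c`.
-/

set_option autoImplicit false

open Set Filter Topology Metric
open scoped ContDiff Manifold

namespace Pool.Agent.Nef6.SM

theorem loc_curve {V : Type} [NormedAddCommGroup V] [NormedSpace ℂ V] [CompleteSpace V]
    {Y : Type} [TopologicalSpace Y] [ChartedSpace V Y] [IsManifold 𝓘(ℂ, V) ω Y]
    {C : Type} [TopologicalSpace C] [ChartedSpace ℂ C] [IsManifold 𝓘(ℂ) ω C]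
    {ν : C → Y} (hν : ContMDiff 𝓘(ℂ) 𝓘(ℂ, V) ω ν)
    {σ : OpenPartialHomeomorph Y V → C → V} {o : C → ℤ} (hσ : IsMeroField ν σ o) (c : C)
    {φ : OpenPartialHomeomorph Y V} (hφ : φ ∈ Charts V Y) (hc : ν c ∈ φ.source) :
    ∃ (R : ℝ) (g : ℂ → V), 0 < R ∧ ball (chartAt ℂ c c) R ⊆ (chartAt ℂ c).target ∧
      ∀ z ∈ ball (chartAt ℂ c c) R, ν ((chartAt ℂ c).symm z) ∈ φ.source ∧
        AnalyticAt ℂ (fun z => φ (ν ((chartAt ℂ c).symm z))) z ∧ AnalyticAt ℂ g z ∧ g z ≠ 0 ∧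
        (z ≠ chartAt ℂ c c →
          σ φ ((chartAt ℂ c).symm z) = (z - chartAt ℂ c c) ^ (o c) • g z ∧
          o ((chartAt ℂ c).symm z) = 0) := by
  have hχ : chartAt ℂ c ∈ Charts ℂ C := IsManifold.chart_mem_maximalAtlas (I := 𝓘(ℂ)) (n := ω) c
  obtain ⟨hmero, hord⟩ := hσ.2 φ hφ (chartAt ℂ c) hχ c hc (mem_chart_source ℂ c)
  obtain ⟨g, hg, hg0, hgeq⟩ := (meromorphicOrderAt_eq_int_iff hmero).1 hord
  have hct : chartAt ℂ c c ∈ (chartAt ℂ c).target := mem_chart_target ℂ c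
  have hsymm : ContinuousAt (chartAt ℂ c).symm (chartAt ℂ c c) :=
    (chartAt ℂ c).symm.continuousAt hct
  have hsc : (chartAt ℂ c).symm (chartAt ℂ c c) = c :=
    (chartAt ℂ c).left_inv (mem_chart_source ℂ c)
  have hT : ∀ᶠ z in 𝓝 (chartAt ℂ c c), z ∈ (chartAt ℂ c).target :=
    (chartAt ℂ c).open_target.mem_nhds hct
  have hνs : ContinuousAt (fun z => ν ((chartAt ℂ c).symm z)) (chartAt ℂ c c) := by
    refine ContinuousAt.comp' ?_ hsymm
    exact hν.continuous.continuousAt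
  have hS : ∀ᶠ z in 𝓝 (chartAt ℂ c c), ν ((chartAt ℂ c).symm z) ∈ φ.source := by
    refine hνs.eventually_mem ?_
    rw [hsc]
    exact φ.open_source.mem_nhds hc
  have hga : ∀ᶠ z in 𝓝 (chartAt ℂ c c), AnalyticAt ℂ g z := hg.eventually_analyticAt
  have hgn : ∀ᶠ z in 𝓝 (chartAt ℂ c c), g z ≠ 0 := hg.continuousAt.eventually_ne hg0
  obtain ⟨R, hR, hball⟩ := Metric.eventually_nhds_iff_ball.1
    ((hT.and (hS.and (hga.and hgn))).and (eventually_nhdsWithin_iff.1 hgeq))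
  have hsub : ball (chartAt ℂ c c) R ⊆ (chartAt ℂ c).target := fun z hz => (hball z hz).1.1
  have hxm : ContMDiffOn 𝓘(ℂ) 𝓘(ℂ, V) ω
      (fun z => φ (ν ((chartAt ℂ c).symm z))) (ball (chartAt ℂ c c) R) := by
    have h1 : ContMDiffOn 𝓘(ℂ) 𝓘(ℂ) ω (chartAt ℂ c).symm (ball (chartAt ℂ c c) R) :=
      (contMDiffOn_symm_of_mem_maximalAtlas hχ).mono hsub
    have h2 : ContMDiffOn 𝓘(ℂ) 𝓘(ℂ, V) ω
        (fun z => ν ((chartAt ℂ c).symm z)) (ball (chartAt ℂ c c) R) := hν.comp_contMDiffOn h1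
    have h3 : ContMDiffOn 𝓘(ℂ, V) 𝓘(ℂ, V) ω φ φ.source := contMDiffOn_of_mem_maximalAtlas hφ
    exact h3.comp h2 fun z hz => (hball z hz).1.2.1
  have hxd : DifferentiableOn ℂ (fun z => φ (ν ((chartAt ℂ c).symm z)))
      (ball (chartAt ℂ c c) R) :=
    (contMDiffOn_iff_contDiffOn.1 hxm).differentiableOn (by simp)
  have hval : ∀ z ∈ ball (chartAt ℂ c c) R, z ≠ chartAt ℂ c c →
      σ φ ((chartAt ℂ c).symm z) = (z - chartAt ℂ c c) ^ (o c) • g z :=
    fun z hz hne => (hball z hz).2 hne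
  refine ⟨R, g, hR, hsub, fun z hz => ⟨(hball z hz).1.2.1,
    hxd.analyticAt (isOpen_ball.mem_nhds hz), (hball z hz).1.2.2.1, (hball z hz).1.2.2.2,
    fun hne => ⟨hval z hz hne, ?_⟩⟩⟩
  obtain ⟨hm2, ho2⟩ := hσ.2 φ hφ (chartAt ℂ c) hχ ((chartAt ℂ c).symm z) (hball z hz).1.2.1
    ((chartAt ℂ c).map_target (hsub hz))
  rw [(chartAt ℂ c).right_inv (hsub hz)] at hm2 ho2
  have h0 : meromorphicOrderAt (σ φ ∘ (chartAt ℂ c).symm) z = ((0 : ℤ) : WithTop ℤ) := by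
    rw [meromorphicOrderAt_eq_int_iff hm2]
    refine ⟨fun w => (w - chartAt ℂ c c) ^ (o c) • g w, ?_, ?_, ?_⟩
    · have h1 : AnalyticAt ℂ (fun w : ℂ => w - chartAt ℂ c c) z :=
        analyticAt_id.sub analyticAt_const
      exact (h1.zpow (sub_ne_zero.2 hne)).smul (hball z hz).1.2.2.1
    · exact smul_ne_zero (zpow_ne_zero _ (sub_ne_zero.2 hne)) (hball z hz).1.2.2.2
    · have h1 : ∀ᶠ w in 𝓝 z, w ∈ ball (chartAt ℂ c c) R := isOpen_ball.mem_nhds hz
      have h2 : ∀ᶠ w in 𝓝 z, w ≠ chartAt ℂ c c := isOpen_ne.mem_nhds hne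
      filter_upwards [nhdsWithin_le_nhds h1, nhdsWithin_le_nhds h2] with w hw1 hw2
      rw [zpow_zero, one_smul]
      exact hval w hw1 hw2
  rw [h0] at ho2
  exact (WithTop.coe_inj.1 ho2).symm

end Pool.Agent.Nef6.SM
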