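import Pool.Agent.H.MP_6a1d6a_ag.K3

/-!
MP_6a1d6a_ag/SM, module A1: the integral inequality for functions with the local sub-mean value property.

Follow the proofs of `K3_loc` and `int_sub` in `K3.lean` (only the ball is replaced by an open set `U`). In `sub_loc`: by
compactness of `tsupport η` there is one `s > 0` such that for all `z ∈ tsupport η` and `0 < r < s`: `closedBall z r ⊆ U`,
`w z ≤ circleAverage w z r` (cover the support by finitely many balls `ball z_i ρ_i` of `LSub`, or use `lebesgue_number_lemma`),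
and `cthickening s (tsupport η) ⊆ U`. The rest is word for word as in `int_sub`.
-/

set_option autoImplicit false

open Set Filter Topology Metric MeasureTheory
open scoped ContDiff

namespace Pool.Agent.Nef6.SM

/-- the sub-mean value inequality for all small circles about the points near `z`, uniformly -/
def LSub (w : ℂ → ℝ) (U : Set ℂ) : Prop :=
  ∀ z ∈ U, ∃ ρ > 0, ball z (2 * ρ) ⊆ U ∧
    ∀ b ∈ ball z ρ, ∀ r, 0 < r → r < ρ → w b ≤ Real.circleAverage w b r

theorem int_loc {U : Set ℂ} {w g : ℂ → ℝ} (hw : ContinuousOn w U) (hg : Continuous g)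
    (hc : HasCompactSupport g) (hs : tsupport g ⊆ U) : Integrable (fun z => w z * g z) := by
  have h1 : IntegrableOn (fun z => w z * g z) (tsupport g) :=
    ((hw.mono hs).mul hg.continuousOn).integrableOn_compact hc
  refine (integrableOn_iff_integrable_of_support_subset ?_).1 h1
  intro z hz
  by_contra h
  exact hz (by simp [image_eq_zero_of_notMem_tsupport h])

/-- the radius in the local sub-mean value property can be chosen uniformly on compact sets -/
private theorem A1_unif {U : Set ℂ} {w : ℂ → ℝ} (hm : LSub w U) {K : Set ℂ} (hK : IsCompact K)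
    (hs : K ⊆ U) : ∃ s > 0, ∀ z ∈ K, ∀ r, 0 < r → r < s → w z ≤ Real.circleAverage w z r := by
  refine hK.induction_on
    (p := fun T => ∃ s > 0, ∀ z ∈ T, ∀ r, 0 < r → r < s → w z ≤ Real.circleAverage w z r)
    ⟨1, one_pos, fun z hz => absurd hz (notMem_empty z)⟩ ?_ ?_ ?_
  · rintro S T hST ⟨s, h0, h⟩
    exact ⟨s, h0, fun z hz => h z (hST hz)⟩
  · rintro S T ⟨s, h0, h⟩ ⟨s', h0', h'⟩
    refine ⟨min s s', lt_min h0 h0', fun z hz r hr hrs => ?_⟩
    rcases hz with hz | hz
    · exact h z hz r hr (hrs.trans_le (min_le_left _ _))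
    · exact h' z hz r hr (hrs.trans_le (min_le_right _ _))
  · intro z hz
    obtain ⟨ρ, hρ, _, h⟩ := hm z (hs hz)
    exact ⟨ball z ρ, mem_nhdsWithin_of_mem_nhds (ball_mem_nhds z hρ), ρ, hρ, h⟩

theorem sub_loc {U : Set ℂ} (hU : IsOpen U) {w η : ℂ → ℝ} (hw : ContinuousOn w U) (hm : LSub w U)
    (hη : ContDiff ℝ ∞ η) (hc : HasCompactSupport η) (hs : tsupport η ⊆ U) (h0 : ∀ z, 0 ≤ η z) :
    0 ≤ ∫ z, w z * lap η z := by
  obtain ⟨s, hs0, hsT⟩ := IsCompact.exists_cthickening_subset_open hc hU hs
  obtain ⟨s', hs0', hsub⟩ := A1_unif hm hc hs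
  have hTc : IsCompact (cthickening s (tsupport η)) := IsCompact.cthickening hc
  obtain ⟨W, hWdef⟩ : ∃ W : ℂ → ℝ, W = (cthickening s (tsupport η)).indicator w := ⟨_, rfl⟩
  have hW : Integrable W := by
    rw [hWdef, integrable_indicator_iff hTc.measurableSet]
    exact (hw.mono hsT).integrableOn_compact hTc
  have hWin : ∀ z ∈ cthickening s (tsupport η), W z = w z := fun z hz => by
    rw [hWdef, indicator_of_mem hz]
  have hsupp : tsupport η ⊆ cthickening s (tsupport η) := self_subset_cthickening _
  have e1 : (fun z => W z * lap η z) = fun z => w z * lap η z := by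
    funext z
    by_cases hz : z ∈ tsupport η
    · rw [hWin z (hsupp hz)]
    · rw [lap_off hz, mul_zero, mul_zero]
  have hlim := int_lap hW hη hc
  rw [e1] at hlim
  refine ge_of_tendsto hlim ?_
  filter_upwards [Ioo_mem_nhdsGT (lt_min hs0 hs0')] with r hr
  have hrs : r < s := hr.2.trans_le (min_le_left _ _)
  have hrs' : r < s' := hr.2.trans_le (min_le_right _ _)
  refine mul_nonneg (by positivity) (integral_nonneg fun z => ?_)
  show 0 ≤ (Real.circleAverage W z r - W z) * η z
  by_cases hz : z ∈ tsupport η
  · refine mul_nonneg ?_ (h0 z)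
    have h1 : closedBall z r ⊆ cthickening s (tsupport η) :=
      (closedBall_subset_closedBall hrs.le).trans (closedBall_subset_cthickening hz s)
    have h2 : Real.circleAverage W z r = Real.circleAverage w z r := by
      refine Real.circleAverage_congr_sphere fun y hy => ?_
      rw [abs_of_pos hr.1] at hy
      exact hWin y (h1 (sphere_subset_closedBall hy))
    rw [h2, hWin z (hsupp hz)]
    have := hsub z hz r hr.1 hrs'
    linarith
  · rw [image_eq_zero_of_notMem_tsupport hz, mul_zero]

end Pool.Agent.Nef6.SM
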