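import Pool.Agent.H.MP_6a1d6a_ag.SM.A1

/-!
MP_6a1d6a_ag/SM, module A2: removable singularities, bounded case.

`wform_bdd`. If `R ≤ 0` everything is trivial (`tsupport g = ∅`). `int`: `w` is bounded and a.e. equal to a function continuous on
the open set `ball c R \ {c}`, so `w * g` is measurable and bounded with compact support. `sub`: for `ε > 0`, `K > 0` let
`v z = -K` for `z = c` and `v z = max (w z + ε log (‖z - c‖ / R)) (-K)` for `z ≠ c`. On the ball `v` is continuous (near `c` it is
constant `-K`, as `w ≤ M` and the logarithm tends to `-∞`) and `LSub v (ball c R)` holds: near `c` it is constant; off `c` it is the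
maximum of a constant and of `w + ε log (‖z - c‖ / R)`, which is `LSub` (the logarithm is harmonic off `c`: Mathlib
`circleAverage_log_norm_sub_const_eq_log_radius_add_posLog`, or `W_jensen` in module W for the function `z ↦ z - c`; use radii so small
that the discs do not contain `c`). So `0 ≤ ∫ v lap η` by `sub_loc`. Let `K → ∞` (dominated convergence: `|v| ≤ M + ε |log (‖z - c‖ / R)|`
on the ball off `c` for `K > M`, `int_log`, `lap η` bounded, continuous with compact support): `0 ≤ ∫ (w + ε log (‖z - c‖ / R)) lap η`, for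
all `ε > 0`; let `ε → 0` (linear in `ε`, see `log_pot`, `K3_mul`).
-/

set_option autoImplicit false

open Set Filter Topology Metric MeasureTheory
open scoped ContDiff

namespace Pool.Agent.Nef6.SM

/-- `w` is locally integrable and subharmonic on the ball, in the sense of distributions -/
structure WForm (w : ℂ → ℝ) (c : ℂ) (R : ℝ) : Prop where
  int : ∀ g : ℂ → ℝ, Continuous g → HasCompactSupport g → tsupport g ⊆ ball c R →
    Integrable fun z => w z * g z
  sub : ∀ η : ℂ → ℝ, ContDiff ℝ ∞ η → HasCompactSupport η → tsupport η ⊆ ball c R →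
    (∀ z, 0 ≤ η z) → 0 ≤ ∫ z, w z * lap η z

theorem WForm.congr {w w' : ℂ → ℝ} {c : ℂ} {R : ℝ} (h : WForm w c R)
    (he : ∀ᵐ z : ℂ, z ∈ ball c R → w z = w' z) : WForm w' c R := by
  have hz : ∀ {g : ℂ → ℝ}, tsupport g ⊆ ball c R → ∀ z, z ∉ ball c R → g z = 0 :=
    fun hgs z hz => image_eq_zero_of_notMem_tsupport fun h => hz (hgs h)
  have hae : ∀ g : ℂ → ℝ, (∀ z, z ∉ ball c R → g z = 0) →
      (fun z => w z * g z) =ᵐ[volume] fun z => w' z * g z := by
    intro g hg
    filter_upwards [he] with z hz
    by_cases hzb : z ∈ ball c R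
    · show w z * g z = w' z * g z
      rw [hz hzb]
    · show w z * g z = w' z * g z
      rw [hg z hzb, mul_zero, mul_zero]
  refine ⟨fun g hg hgc hgs => (h.int g hg hgc hgs).congr (hae g (hz hgs)), ?_⟩
  intro η hη hηc hηs h0
  have h1 := h.sub η hη hηc hηs h0
  rwa [integral_congr_ae (hae (lap η) fun z hz => lap_off fun h => hz (hηs h))] at h1

private theorem A2_log (a : ℂ) : Tendsto (fun z : ℂ => Real.log ‖z - a‖) (𝓝[≠] a) atBot := by
  refine Real.tendsto_log_nhdsNE_zero.comp ?_
  refine tendsto_nhdsWithin_iff.mpr ⟨?_, ?_⟩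
  · have : Continuous (fun z : ℂ => ‖z - a‖) := by fun_prop
    have h := this.tendsto a
    simp only [sub_self, norm_zero] at h
    exact h.mono_left nhdsWithin_le_nhds
  · filter_upwards [self_mem_nhdsWithin] with z hz
    simpa [sub_eq_zero] using hz

private theorem A2_logc {a z : ℂ} (h : z ≠ a) :
    ContinuousAt (fun z : ℂ => Real.log ‖z - a‖) z := by
  refine ContinuousAt.log ?_ ?_
  · exact (continuous_id.sub continuous_const).norm.continuousAt
  · exact norm_ne_zero_iff.2 (sub_ne_zero.2 h)

private theorem A2_open (c : ℂ) (R : ℝ) : IsOpen (ball c R \ {c}) :=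
  isOpen_ball.sdiff isClosed_singleton

/-- integrability for functions continuous off the centre -/
private theorem A2_int {w : ℂ → ℝ} {c : ℂ} {R M : ℝ} (hc : ContinuousOn w (ball c R \ {c}))
    (hb : ∀ z ∈ ball c R \ {c}, |w z| ≤ M) {g : ℂ → ℝ} (hg : Continuous g)
    (hgc : HasCompactSupport g) (hgs : tsupport g ⊆ ball c R) : Integrable fun z => w z * g z := by
  obtain ⟨C, hC0, hC⟩ := K3_bdd hg hgc
  have hSm : MeasurableSet (ball c R \ {c}) := (A2_open c R).measurableSet
  have h1 : IntegrableOn (fun z => w z * g z) (ball c R \ {c}) := by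
    have hfin : IsFiniteMeasure (volume.restrict (ball c R \ {c})) := by
      refine ⟨?_⟩
      rw [Measure.restrict_apply_univ]
      exact (measure_mono Set.sdiff_subset).trans_lt measure_ball_lt_top
    refine Integrable.of_bound (C := |M| * C) ?_ ?_
    · exact (hc.mul hg.continuousOn).aestronglyMeasurable hSm
    · refine (ae_restrict_iff' hSm).2 (Eventually.of_forall fun z hz => ?_)
      rw [Real.norm_eq_abs, abs_mul]
      exact mul_le_mul ((hb z hz).trans (le_abs_self M)) (hC z) (abs_nonneg _) (abs_nonneg _)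
  rw [← integrable_indicator_iff hSm] at h1
  refine h1.congr ?_
  have hne : ∀ᵐ z : ℂ, z ∉ ({c} : Set ℂ) := (countable_singleton c).ae_notMem volume
  filter_upwards [hne] with z hz
  by_cases hzb : z ∈ ball c R
  · exact Set.indicator_of_mem (show z ∈ ball c R \ {c} from ⟨hzb, hz⟩) _
  · rw [Set.indicator_of_notMem (fun h => hzb h.1)]
    have h0 : g z = 0 := image_eq_zero_of_notMem_tsupport fun h => hzb (hgs h)
    rw [h0, mul_zero]

private theorem A2_intlog {c : ℂ} {R : ℝ} {g : ℂ → ℝ} (hg : Continuous g)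
    (hgc : HasCompactSupport g) (hgs : tsupport g ⊆ ball c R) :
    Integrable fun z => Real.log ‖z - c‖ * g z := by
  obtain ⟨C, hC0, hC⟩ := K3_bdd hg hgc
  have h1 := int_log c R
  rw [← integrable_indicator_iff measurableSet_ball] at h1
  refine (K3_mul h1 hg hC).congr (Eventually.of_forall fun z => ?_)
  by_cases hzb : z ∈ ball c R
  · show Set.indicator (ball c R) (fun z : ℂ => Real.log ‖z - c‖) z * g z = _
    rw [Set.indicator_of_mem hzb]
  · have h0 : g z = 0 := image_eq_zero_of_notMem_tsupport fun h => hzb (hgs h)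
    show Set.indicator (ball c R) (fun z : ℂ => Real.log ‖z - c‖) z * g z =
      Real.log ‖z - c‖ * g z
    rw [h0, mul_zero, mul_zero]

open Classical in
/-- the truncated function -/
private noncomputable def A2_v (w : ℂ → ℝ) (c : ℂ) (ε K : ℝ) (z : ℂ) : ℝ :=
  if z = c then -K else max (w z + ε * Real.log ‖z - c‖) (-K)

private theorem A2_v_ne {w : ℂ → ℝ} {c z : ℂ} {ε K : ℝ} (h : z ≠ c) :
    A2_v w c ε K z = max (w z + ε * Real.log ‖z - c‖) (-K) := if_neg h

private theorem A2_v_ge (w : ℂ → ℝ) (c : ℂ) (ε K : ℝ) (z : ℂ) : -K ≤ A2_v w c ε K z := by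
  unfold A2_v
  split_ifs
  · exact le_rfl
  · exact le_max_right _ _

private theorem A2_ev {w : ℂ → ℝ} {c : ℂ} {R M : ℝ} (hR : 0 < R)
    (hb : ∀ z ∈ ball c R \ {c}, |w z| ≤ M) {ε : ℝ} (hε : 0 < ε) (K : ℝ) :
    ∀ᶠ z in 𝓝 c, A2_v w c ε K z = -K := by
  have h1 : ∀ᶠ z in 𝓝[≠] c, Real.log ‖z - c‖ ≤ (-K - M) / ε :=
    (A2_log c).eventually (eventually_le_atBot _)
  rw [eventually_nhdsWithin_iff] at h1
  filter_upwards [h1, ball_mem_nhds c hR] with z hz hzb
  by_cases h : z = c
  · unfold A2_v
    exact if_pos h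
  · rw [A2_v_ne h]
    refine max_eq_right ?_
    have h2 := hz h
    rw [le_div_iff₀ hε] at h2
    have h3 := (abs_le.1 (hb z ⟨hzb, h⟩)).2
    linarith

private theorem A2_cont {w : ℂ → ℝ} {c : ℂ} {R M : ℝ} (hR : 0 < R)
    (hc : ContinuousOn w (ball c R \ {c})) (hb : ∀ z ∈ ball c R \ {c}, |w z| ≤ M) {ε : ℝ}
    (hε : 0 < ε) (K : ℝ) : ContinuousOn (A2_v w c ε K) (ball c R) := by
  intro z hz
  refine ContinuousAt.continuousWithinAt ?_
  by_cases h : z = c
  · rw [h]
    exact (continuousAt_const (y := -K)).congr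
      ((A2_ev hR hb hε K).mono fun z hz => hz.symm)
  · have hzS : z ∈ ball c R \ {c} := ⟨hz, h⟩
    have h1 : ContinuousAt w z := hc.continuousAt ((A2_open c R).mem_nhds hzS)
    have h2 : ContinuousAt (fun z : ℂ => max (w z + ε * Real.log ‖z - c‖) (-K)) z :=
      (h1.add (continuousAt_const.mul (A2_logc h))).max continuousAt_const
    refine h2.congr ?_
    filter_upwards [isOpen_compl_singleton.mem_nhds h] with y hy
    exact (A2_v_ne hy).symm

private theorem A2_sub {w : ℂ → ℝ} {c : ℂ} {R M : ℝ} (hR : 0 < R)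
    (hc : ContinuousOn w (ball c R \ {c})) (hs : LSub w (ball c R \ {c}))
    (hb : ∀ z ∈ ball c R \ {c}, |w z| ≤ M) {ε : ℝ} (hε : 0 < ε) (K : ℝ) :
    LSub (A2_v w c ε K) (ball c R) := by
  intro z hz
  by_cases h : z = c
  · subst h
    obtain ⟨δ, hδ, hball⟩ := Metric.eventually_nhds_iff_ball.1 (A2_ev hR hb hε K)
    have hm : 0 < min δ R := lt_min hδ hR
    refine ⟨min δ R / 2, by positivity, ?_, ?_⟩
    · rw [mul_div_cancel₀ _ (two_ne_zero (α := ℝ))]
      exact ball_subset_ball (min_le_right _ _)
    · intro b hbz r hr hrρ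
      have hbz' : dist b z < min δ R / 2 := hbz
      have e1 : A2_v w z ε K b = -K := by
        refine hball b ?_
        rw [mem_ball]
        have := min_le_left δ R
        linarith
      have e2 : Real.circleAverage (A2_v w z ε K) b r = -K := by
        refine Real.circleAverage_const_on_circle fun y hy => ?_
        refine hball y ?_
        rw [mem_sphere, abs_of_pos hr] at hy
        rw [mem_ball]
        have h3 := dist_triangle y b z
        have := min_le_left δ R
        linarith
      rw [e1, e2]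
  · obtain ⟨ρ, hρ, hρs, hav⟩ := hs z ⟨hz, h⟩
    refine ⟨ρ, hρ, fun y hy => (hρs hy).1, ?_⟩
    intro b hbz r hr hrρ
    have hcb : ∀ y ∈ closedBall b |r|, y ∈ ball c R \ {c} := by
      intro y hy
      rw [mem_closedBall, abs_of_pos hr] at hy
      rw [mem_ball] at hbz
      refine hρs ?_
      rw [mem_ball]
      have h3 := dist_triangle y b z
      linarith
    have hbS : b ∈ ball c R \ {c} := hcb b (mem_closedBall_self (abs_nonneg r))
    have hlogc : ContinuousOn (fun y : ℂ => ε * Real.log ‖y - c‖) (sphere b |r|) := fun y hy =>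
      ((continuousAt_const.mul (A2_logc (hcb y (sphere_subset_closedBall hy)).2))).continuousWithinAt
    have hwc : ContinuousOn w (sphere b |r|) := hc.mono fun y hy =>
      hcb y (sphere_subset_closedBall hy)
    have hvc : ContinuousOn (A2_v w c ε K) (sphere b |r|) :=
      (A2_cont hR hc hb hε K).mono fun y hy => (hcb y (sphere_subset_closedBall hy)).1
    have i1 : CircleIntegrable w b r := hwc.circleIntegrable'
    have i2 : CircleIntegrable (fun y : ℂ => ε * Real.log ‖y - c‖) b r := hlogc.circleIntegrable'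
    have i3 : CircleIntegrable (A2_v w c ε K) b r := hvc.circleIntegrable'
    have hJ : Real.circleAverage (fun y : ℂ => ε * Real.log ‖y - c‖) b r =
        ε * Real.log ‖b - c‖ := by
      have h4 : Real.circleAverage (fun y : ℂ => Real.log ‖y - c‖) b r = Real.log ‖b - c‖ := by
        refine AnalyticOnNhd.circleAverage_log_norm_of_ne_zero (g := fun y => y - c) ?_ ?_
        · exact fun y _ => analyticAt_id.sub analyticAt_const
        · exact fun y hy => sub_ne_zero.2 (hcb y hy).2
      have h5 := Real.circleAverage_fun_smul (a := ε) (f := fun y : ℂ => Real.log ‖y - c‖)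
        (c := b) (R := r)
      simp only [smul_eq_mul] at h5
      rw [h5, h4]
    rw [A2_v_ne hbS.2]
    refine max_le ?_ ?_
    · calc w b + ε * Real.log ‖b - c‖
          ≤ Real.circleAverage w b r + ε * Real.log ‖b - c‖ := by
            have := hav b hbz r hr hrρ
            linarith
        _ = Real.circleAverage (fun y => w y + ε * Real.log ‖y - c‖) b r := by
            rw [← hJ]
            exact (Real.circleAverage_fun_add i1 i2).symm
        _ ≤ Real.circleAverage (A2_v w c ε K) b r := by
            refine Real.circleAverage_mono (i1.add i2) i3 fun y hy => ?_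
            rw [A2_v_ne (hcb y (sphere_subset_closedBall hy)).2]
            exact le_max_left _ _
    · calc -K = Real.circleAverage (fun _ : ℂ => -K) b r := (Real.circleAverage_const _ _ _).symm
        _ ≤ Real.circleAverage (A2_v w c ε K) b r :=
            Real.circleAverage_mono (circleIntegrable_const _ _ _) i3 fun y _ => A2_v_ge _ _ _ _ _

private theorem A2_abs (x K : ℝ) (hK : 0 ≤ K) : |max x (-K)| ≤ |x| := by
  rcases le_total x (-K) with h | h
  · rw [max_eq_right h, abs_neg, abs_of_nonneg hK]
    rw [abs_of_nonpos (by linarith)]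
    linarith
  · rw [max_eq_left h]

private theorem A2_lim (x : ℝ) : Tendsto (fun n : ℕ => max x (-(n : ℝ))) atTop (𝓝 x) := by
  refine tendsto_const_nhds.congr' ?_
  have h1 : ∀ᶠ n : ℕ in atTop, -x ≤ (n : ℝ) :=
    tendsto_natCast_atTop_atTop.eventually_ge_atTop (-x)
  filter_upwards [h1] with n hn
  exact (max_eq_left (by linarith)).symm

/-- the inequality with a small multiple of the logarithm -/
private theorem A2_eps {w : ℂ → ℝ} {c : ℂ} {R M : ℝ} (hR : 0 < R)
    (hc : ContinuousOn w (ball c R \ {c})) (hs : LSub w (ball c R \ {c}))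
    (hb : ∀ z ∈ ball c R \ {c}, |w z| ≤ M) {ε : ℝ} (hε : 0 < ε) {η : ℂ → ℝ}
    (hη : ContDiff ℝ ∞ η) (hηc : HasCompactSupport η) (hηs : tsupport η ⊆ ball c R)
    (h0 : ∀ z, 0 ≤ η z) :
    0 ≤ ∫ z, (w z * lap η z + ε * (Real.log ‖z - c‖ * lap η z)) := by
  have hlc : Continuous (lap η) := K3_lap_cont hη
  have hlcs : HasCompactSupport (lap η) := K3_lap_cs hηc
  have hlz : ∀ z, z ∉ ball c R → lap η z = 0 := fun z hz => lap_off fun h => hz (hηs h)
  have hls : tsupport (lap η) ⊆ ball c R := by
    have h1 : tsupport (lap η) ⊆ tsupport η := by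
      refine closure_minimal (fun z hz => ?_) (isClosed_tsupport η)
      by_contra h
      exact hz (lap_off h)
    exact h1.trans hηs
  have hint : Integrable fun z => w z * lap η z + ε * (Real.log ‖z - c‖ * lap η z) :=
    (A2_int hc hb hlc hlcs hls).add ((A2_intlog hlc hlcs hls).const_mul ε)
  have hv : ∀ n : ℕ, 0 ≤ ∫ z, A2_v w c ε n z * lap η z := fun n =>
    sub_loc isOpen_ball (A2_cont hR hc hb hε n) (A2_sub hR hc hs hb hε n) hη hηc hηs h0
  have hne : ∀ᵐ z : ℂ, z ∉ ({c} : Set ℂ) := (countable_singleton c).ae_notMem volume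
  have hlim : Tendsto (fun n : ℕ => ∫ z, A2_v w c ε n z * lap η z) atTop
      (𝓝 (∫ z, (w z * lap η z + ε * (Real.log ‖z - c‖ * lap η z)))) := by
    refine tendsto_integral_of_dominated_convergence
      (fun z => |w z * lap η z + ε * (Real.log ‖z - c‖ * lap η z)|) ?_ hint.abs ?_ ?_
    · intro n
      exact (int_loc (A2_cont hR hc hb hε n) hlc hlcs hls).aestronglyMeasurable
    · intro n
      filter_upwards [hne] with z hz
      have hz' : z ≠ c := hz
      have e1 : w z * lap η z + ε * (Real.log ‖z - c‖ * lap η z) =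
          (w z + ε * Real.log ‖z - c‖) * lap η z := by ring
      rw [Real.norm_eq_abs, e1, abs_mul, abs_mul, A2_v_ne hz']
      exact mul_le_mul_of_nonneg_right (A2_abs _ _ (Nat.cast_nonneg n)) (abs_nonneg _)
    · filter_upwards [hne] with z hz
      have hz' : z ≠ c := hz
      have e1 : w z * lap η z + ε * (Real.log ‖z - c‖ * lap η z) =
          (w z + ε * Real.log ‖z - c‖) * lap η z := by ring
      rw [e1]
      refine Tendsto.mul_const _ ?_
      simp only [A2_v_ne hz']
      exact A2_lim _
  exact ge_of_tendsto' hlim hv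

private theorem A2_real {a b : ℝ} (h : ∀ ε : ℝ, 0 < ε → 0 ≤ a + ε * b) : 0 ≤ a := by
  by_contra hcon
  rw [not_le] at hcon
  have h1 : 0 < |b| + 1 := by positivity
  have h2 := h (-a / (2 * (|b| + 1))) (by
    refine div_pos (by linarith) (by positivity))
  have h3 : -a / (2 * (|b| + 1)) * b ≤ -a / (2 * (|b| + 1)) * (|b| + 1) := by
    refine mul_le_mul_of_nonneg_left ?_ ?_
    · linarith [le_abs_self b]
    · exact (div_pos (by linarith) (by positivity)).le
  have h4 : -a / (2 * (|b| + 1)) * (|b| + 1) = -a / 2 := by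
    field_simp
  linarith

theorem wform_bdd {w : ℂ → ℝ} {c : ℂ} {R M : ℝ} (hc : ContinuousOn w (ball c R \ {c}))
    (hs : LSub w (ball c R \ {c})) (hb : ∀ z ∈ ball c R \ {c}, |w z| ≤ M) : WForm w c R := by
  rcases le_or_gt R 0 with hR | hR
  · have hemp : ball c R = ∅ := ball_eq_empty.2 hR
    have hz : ∀ {g : ℂ → ℝ}, tsupport g ⊆ ball c R → ∀ z, g z = 0 := by
      intro g hgs z
      refine image_eq_zero_of_notMem_tsupport fun h => ?_
      have h1 := hgs h
      rw [hemp] at h1
      exact h1
    refine ⟨?_, ?_⟩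
    · intro g _ _ hgs
      have h1 : (fun z => w z * g z) = fun _ => (0 : ℝ) := by
        funext z
        rw [hz hgs z, mul_zero]
      rw [h1]
      exact integrable_zero _ _ _
    · intro η _ _ hηs _
      refine le_of_eq ?_
      symm
      refine integral_eq_zero_of_ae (Eventually.of_forall fun z => ?_)
      have h2 : lap η z = 0 := lap_off fun h => by
        have h1 := hηs h
        rw [hemp] at h1
        exact h1
      show w z * lap η z = 0
      rw [h2, mul_zero]
  · refine ⟨fun g hg hgc hgs => A2_int hc hb hg hgc hgs, ?_⟩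
    intro η hη hηc hηs h0
    have hlc : Continuous (lap η) := K3_lap_cont hη
    have hlcs : HasCompactSupport (lap η) := K3_lap_cs hηc
    have hls : tsupport (lap η) ⊆ ball c R := by
      have h1 : tsupport (lap η) ⊆ tsupport η := by
        refine closure_minimal (fun z hz => ?_) (isClosed_tsupport η)
        by_contra h
        exact hz (lap_off h)
      exact h1.trans hηs
    refine A2_real (b := ∫ z, Real.log ‖z - c‖ * lap η z) fun ε hε => ?_
    have h1 := A2_eps hR hc hs hb hε hη hηc hηs h0
    rw [integral_add (A2_int hc hb hlc hlcs hls) ((A2_intlog hlc hlcs hls).const_mul ε),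
      integral_const_mul] at h1
    exact h1

end Pool.Agent.Nef6.SM
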