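import Pool.Agent.H.MP_6a1d6a_ag.SM.A2

/-!
MP_6a1d6a_ag/SM, module A3: from the truncated functions `max w (-K)` to `w`.

`volcano`: `η z = χ z * ‖z - c‖²`, `χ` a smooth bump function at `c` (`ContDiffBump`), `χ = 1` near `c`; there `lap η = 4` (see `lap` in K1: the
sum of the two second derivatives).

`wform_trunc`. If `R ≤ 0` trivial. `w` is a.e. strongly measurable on the punctured ball (write it as a countable union of the compact
sets `closedBall c (R - 1/k) \ ball c (1/k)`, on which `w = w * g` for a bump function `g`, `hloc`). Take `η`, `δ` from `volcano`. For `K ≥ 0` let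
`w_K = max w (-K)`; `0 ≤ ∫ w_K lap η` (`htr`). On `tsupport η \ ball c δ` (compact in the punctured ball) `|w_K| ≤ |w| + |M|`, and `w` is integrable
there (`hloc` with a bump function), `lap η` is bounded: so `∫_{ball c δ} (M - w_K) lap η ≤ M ∫_{ball c δ} lap η + ∫_{off} w_K lap η ≤ C`, `C` independent of
`K`. As `lap η ≥ 1` on `ball c δ` and `M - w_K ≥ 0` (off `c`, for `K ≥ -M`), `∫_{ball c δ} (M - w_K) ≤ C`. Monotone convergence (`K ∈ ℕ → ∞`, the functions
increase to `M - w`; e.g. `integrable_of_tendsto` / `lintegral_iSup` / Fatou) gives `w` integrable on `ball c δ`. So `w * g` is integrable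
for all continuous `g` with compact support in the ball (`g = g χ' + g (1 - χ')` with a bump function `χ'` supported in `ball c δ`, or directly:
integrable on `ball c δ` and on the compact rest). `sub`: `0 ≤ ∫ w_K lap η' → ∫ w lap η'` for `K → ∞` by dominated convergence
(`|w_K| ≤ |w| + |M|` off `c`).
-/

set_option autoImplicit false

open Set Filter Topology Metric MeasureTheory
open scoped ContDiff

namespace Pool.Agent.Nef6.SM

private theorem A3_sq (c z : ℂ) : lap (fun y => ‖y - c‖ ^ 2) z = 4 := by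
  have h1 : fderiv ℝ (fun y : ℂ => ‖y - c‖ ^ 2) = fun y => (2 : ℕ) • innerSL ℝ (y - c) := by
    funext y
    have h2 := (hasStrictFDerivAt_norm_sq (y - c)).hasFDerivAt.comp y
      ((hasFDerivAt_id (𝕜 := ℝ) y).sub_const c)
    have h3 : (2 • (innerSL ℝ (y - c))).comp (ContinuousLinearMap.id ℝ ℂ) =
        (2 : ℕ) • innerSL ℝ (y - c) := ContinuousLinearMap.comp_id _
    rw [h3] at h2
    exact h2.fderiv
  have h4 : fderiv ℝ (fderiv ℝ fun y : ℂ => ‖y - c‖ ^ 2) z = (2 : ℕ) • innerSL ℝ := by
    rw [h1]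
    have h5 : HasFDerivAt (fun y : ℂ => (2 : ℕ) • innerSL ℝ (y - c))
        ((2 : ℕ) • innerSL ℝ (E := ℂ)) z := by
      have h6 : HasFDerivAt (fun y : ℂ => innerSL ℝ (y - c)) (innerSL ℝ (E := ℂ)) z := by
        have h7 := (innerSL ℝ (E := ℂ)).hasFDerivAt (x := z - c) |>.comp z
          ((hasFDerivAt_id (𝕜 := ℝ) z).sub_const c)
        have h8 : (innerSL ℝ (E := ℂ)).comp (ContinuousLinearMap.id ℝ ℂ) = innerSL ℝ :=
          ContinuousLinearMap.comp_id _
        rw [h8] at h7
        exact h7
      exact h6.const_smul 2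
    exact h5.fderiv
  unfold lap
  rw [h4]
  have e1 : ((2 : ℕ) • innerSL ℝ (E := ℂ)) 1 1 = 2 := by
    simp [innerSL_apply_apply]
  have e2 : ((2 : ℕ) • innerSL ℝ (E := ℂ)) Complex.I Complex.I = 2 := by
    simp [innerSL_apply_apply]
  rw [e1, e2]
  norm_num

theorem volcano (c : ℂ) {R : ℝ} (hR : 0 < R) : ∃ (η : ℂ → ℝ) (δ : ℝ), 0 < δ ∧ δ < R ∧
    ContDiff ℝ ∞ η ∧ HasCompactSupport η ∧ tsupport η ⊆ ball c R ∧ (∀ z, 0 ≤ η z) ∧
    ∀ z ∈ ball c δ, 1 ≤ lap η z := by
  obtain ⟨f, hf⟩ : ∃ f : ContDiffBump c, f.rIn = R / 4 ∧ f.rOut = R / 2 :=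
    ⟨⟨R / 4, R / 2, by positivity, by linarith⟩, rfl, rfl⟩
  have hsub : tsupport (fun z => f z * ‖z - c‖ ^ 2) ⊆ closedBall c (R / 2) := by
    rw [← hf.2, ← f.tsupport_eq]
    exact tsupport_mul_subset_left
  refine ⟨fun z => f z * ‖z - c‖ ^ 2, R / 4, by positivity, by linarith, ?_, ?_, ?_, ?_, ?_⟩
  · exact f.contDiff.mul ((contDiff_id.sub contDiff_const).norm_sq ℝ)
  · exact f.hasCompactSupport.mul_right
  · exact hsub.trans (closedBall_subset_ball (by linarith))
  · intro z
    exact mul_nonneg f.nonneg (by positivity)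
  · intro z hz
    have h1 : (fun y => f y * ‖y - c‖ ^ 2) =ᶠ[𝓝 z] fun y => ‖y - c‖ ^ 2 := by
      filter_upwards [isOpen_ball.mem_nhds hz] with y hy
      rw [f.one_of_mem_closedBall (by rw [hf.1]; exact ball_subset_closedBall hy), one_mul]
    rw [lap_congr h1, A3_sq]
    norm_num

private theorem A3_abs (x K : ℝ) (hK : 0 ≤ K) : |max x (-K)| ≤ |x| := by
  rcases le_total x (-K) with h | h
  · rw [max_eq_right h, abs_neg, abs_of_nonneg hK]
    rw [abs_of_nonpos (by linarith)]
    linarith
  · rw [max_eq_left h]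

private theorem A3_lim (x : ℝ) : Tendsto (fun n : ℕ => max x (-(n : ℝ))) atTop (𝓝 x) := by
  refine tendsto_const_nhds.congr' ?_
  have h1 : ∀ᶠ n : ℕ in atTop, -x ≤ (n : ℝ) :=
    tendsto_natCast_atTop_atTop.eventually_ge_atTop (-x)
  filter_upwards [h1] with n hn
  exact (max_eq_left (by linarith)).symm

private theorem A3_on {w : ℂ → ℝ} {U K : Set ℂ} (hU : IsOpen U) (hK : IsCompact K) (hKU : K ⊆ U)
    (h : ∀ g : ℂ → ℝ, Continuous g → HasCompactSupport g → tsupport g ⊆ U →
      Integrable fun z => w z * g z) : IntegrableOn w K := by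
  obtain ⟨f, hf1, hf2, hf3, -⟩ := exists_continuousMap_one_of_isCompact_subset_isOpen hK hU hKU
  have h1 := (h f f.continuous hf2 hf3).integrableOn (s := K)
  refine h1.congr_fun (fun z hz => ?_) hK.measurableSet
  show w z * f z = w z
  rw [hf1 hz]
  exact mul_one _

private theorem A3_mul {w g : ℂ → ℝ} (hg : Continuous g) (hgc : HasCompactSupport g)
    (h : IntegrableOn w (tsupport g)) : Integrable fun z => w z * g z := by
  obtain ⟨C, -, hC⟩ := K3_bdd hg hgc
  have h1 : IntegrableOn (fun z => w z * g z) (tsupport g) :=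
    Integrable.mul_bdd (c := C) h hg.aestronglyMeasurable (Eventually.of_forall fun z => by
      rw [Real.norm_eq_abs]; exact hC z)
  refine (integrableOn_iff_integrable_of_support_subset ?_).1 h1
  intro z hz
  by_contra h
  exact hz (by simp [image_eq_zero_of_notMem_tsupport h])

private theorem A3_ts {η : ℂ → ℝ} : tsupport (lap η) ⊆ tsupport η := by
  refine closure_minimal (fun z hz => ?_) (isClosed_tsupport η)
  by_contra h
  exact hz (lap_off h)

/-- integrability near the centre -/
private theorem A3_loc {w : ℂ → ℝ} {c : ℂ} {R M : ℝ} (hR : 0 < R)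
    (hup : ∀ z ∈ ball c R \ {c}, w z ≤ M)
    (hloc : ∀ g : ℂ → ℝ, Continuous g → HasCompactSupport g → tsupport g ⊆ ball c R \ {c} →
      Integrable fun z => w z * g z)
    (htr : ∀ K : ℝ, WForm (fun z => max (w z) (-K)) c R) :
    ∃ δ : ℝ, 0 < δ ∧ IntegrableOn w (ball c δ) := by
  obtain ⟨η, δ, hδ, hδR, hη, hηc, hηs, h0, h1⟩ := volcano c hR
  refine ⟨δ, hδ, ?_⟩
  have hLc : Continuous (lap η) := K3_lap_cont hη
  have hLcs : HasCompactSupport (lap η) := K3_lap_cs hηc
  have hLs : tsupport (lap η) ⊆ ball c R := A3_ts.trans hηs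
  obtain ⟨CL, hCL0, hCL⟩ := K3_bdd hLc hLcs
  have hBm : MeasurableSet (ball c δ) := measurableSet_ball
  obtain ⟨T, hTd⟩ : ∃ T : Set ℂ, T = tsupport η \ ball c δ := ⟨_, rfl⟩
  have hT : IsCompact T := by
    rw [hTd]
    exact IsCompact.diff hηc isOpen_ball
  have hTS : T ⊆ ball c R \ {c} := by
    rw [hTd]
    intro z hz
    refine ⟨hηs hz.1, fun h => hz.2 ?_⟩
    rw [mem_singleton_iff.1 h]
    exact mem_ball_self hδ
  have hwT : IntegrableOn w T :=
    A3_on (isOpen_ball.sdiff isClosed_singleton) hT hTS hloc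
  obtain ⟨G, hGd⟩ : ∃ G : ℂ → ℝ, G = T.indicator fun z => |w z| * CL := ⟨_, rfl⟩
  have hG : Integrable G := by
    rw [hGd, integrable_indicator_iff hT.measurableSet]
    exact (hwT.abs.mul_const CL)
  have hG0 : ∀ z, 0 ≤ G z := by
    intro z
    rw [hGd]
    exact Set.indicator_nonneg (fun z _ => by positivity) z
  obtain ⟨M', hM'0, hM'⟩ : ∃ M' : ℝ, 0 ≤ M' ∧ M ≤ M' := ⟨max M 0, le_max_right _ _, le_max_left _ _⟩
  have hne : ∀ᵐ z : ℂ, z ∉ ({c} : Set ℂ) := (countable_singleton c).ae_notMem volume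
  have hBn : ∀ n : ℕ, IntegrableOn (fun z => max (w z) (-(n : ℝ))) (ball c δ) := fun n =>
    (A3_on isOpen_ball (isCompact_closedBall c δ) (closedBall_subset_ball hδR)
      (htr n).int).mono_set ball_subset_closedBall
  have hfin : IsFiniteMeasure (volume.restrict (ball c δ)) := by
    refine ⟨?_⟩
    rw [Measure.restrict_apply_univ]
    exact measure_ball_lt_top
  have hun : ∀ n : ℕ, Integrable (fun z => M' - max (w z) (-(n : ℝ)))
      (volume.restrict (ball c δ)) := fun n => (integrable_const M').sub (hBn n)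
  have hpos : ∀ n : ℕ, ∀ᵐ z ∂(volume.restrict (ball c δ)), 0 ≤ M' - max (w z) (-(n : ℝ)) := by
    intro n
    filter_upwards [ae_restrict_mem hBm, ae_restrict_of_ae hne] with z hz hzc
    have h2 := hup z ⟨ball_subset_ball hδR.le hz, hzc⟩
    have h3 : (0 : ℝ) ≤ n := Nat.cast_nonneg n
    have h4 : max (w z) (-(n : ℝ)) ≤ M' := max_le (h2.trans hM') (by linarith)
    linarith
  -- the uniform bound
  obtain ⟨C2, hC2d⟩ : ∃ C2 : ℝ, C2 = M' * (∫ z in ball c δ, lap η z) + ∫ z, G z := ⟨_, rfl⟩
  have hbound : ∀ n : ℕ, ∫ z in ball c δ, (M' - max (w z) (-(n : ℝ))) ≤ C2 := by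
    intro n
    have hint : Integrable fun z => max (w z) (-(n : ℝ)) * lap η z :=
      (htr n).int (lap η) hLc hLcs hLs
    have hpos' : 0 ≤ ∫ z, max (w z) (-(n : ℝ)) * lap η z := (htr n).sub η hη hηc hηs h0
    have hsplit := integral_add_compl hBm hint
    have hoff : ∫ z in (ball c δ)ᶜ, max (w z) (-(n : ℝ)) * lap η z ≤ ∫ z, G z := by
      have h2 : ∫ z in (ball c δ)ᶜ, max (w z) (-(n : ℝ)) * lap η z ≤
          ∫ z in (ball c δ)ᶜ, G z := by
        refine setIntegral_mono_on hint.integrableOn hG.integrableOn hBm.compl fun z hz => ?_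
        by_cases hzT : z ∈ T
        · rw [hGd, Set.indicator_of_mem hzT]
          refine (le_abs_self _).trans ?_
          rw [abs_mul]
          exact mul_le_mul (A3_abs _ _ (Nat.cast_nonneg n)) (hCL z) (abs_nonneg _) (abs_nonneg _)
        · have h3 : z ∉ tsupport η := fun h => hzT (by rw [hTd]; exact ⟨h, hz⟩)
          rw [lap_off h3, mul_zero]
          exact hG0 z
      exact h2.trans (setIntegral_le_integral hG (Eventually.of_forall hG0))
    have hLB : IntegrableOn (lap η) (ball c δ) :=
      (hLc.integrable_of_hasCompactSupport hLcs).integrableOn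
    have hprod : IntegrableOn (fun z => M' * lap η z - max (w z) (-(n : ℝ)) * lap η z)
        (ball c δ) := (hLB.const_mul M').sub hint.integrableOn
    have h5 : ∫ z in ball c δ, (M' - max (w z) (-(n : ℝ))) ≤
        ∫ z in ball c δ, (M' * lap η z - max (w z) (-(n : ℝ)) * lap η z) := by
      refine integral_mono_ae (hun n) hprod ?_
      filter_upwards [hpos n, ae_restrict_mem hBm] with z hz hzB
      have h6 := h1 z hzB
      have h7 : M' * lap η z - max (w z) (-(n : ℝ)) * lap η z =
          (M' - max (w z) (-(n : ℝ))) * lap η z := by ring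
      rw [h7]
      exact le_mul_of_one_le_right hz h6
    have h8 : ∫ z in ball c δ, (M' * lap η z - max (w z) (-(n : ℝ)) * lap η z) =
        M' * (∫ z in ball c δ, lap η z) -
          ∫ z in ball c δ, max (w z) (-(n : ℝ)) * lap η z := by
      rw [integral_sub (hLB.const_mul M') hint.integrableOn, integral_const_mul]
    rw [h8] at h5
    rw [hC2d]
    linarith
  -- Fatou
  have hlimw : ∀ z, Tendsto (fun n : ℕ => M' - max (w z) (-(n : ℝ))) atTop (𝓝 (M' - w z)) :=
    fun z => (A3_lim (w z)).const_sub M'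
  have hmeas : AEStronglyMeasurable (fun z => M' - w z) (volume.restrict (ball c δ)) :=
    aestronglyMeasurable_of_tendsto_ae atTop (fun n => (hun n).aestronglyMeasurable)
      (Eventually.of_forall hlimw)
  have hlint : ∫⁻ z in ball c δ, ‖M' - w z‖ₑ ≤ ENNReal.ofReal C2 := by
    calc ∫⁻ z in ball c δ, ‖M' - w z‖ₑ
        = ∫⁻ z in ball c δ, liminf (fun n : ℕ => ‖M' - max (w z) (-(n : ℝ))‖ₑ) atTop := by
          refine lintegral_congr fun z => ?_
          exact ((hlimw z).enorm.liminf_eq).symm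
      _ ≤ liminf (fun n : ℕ => ∫⁻ z in ball c δ, ‖M' - max (w z) (-(n : ℝ))‖ₑ) atTop :=
          lintegral_liminf_le' fun n => (hun n).aestronglyMeasurable.aemeasurable.enorm
      _ ≤ liminf (fun _ : ℕ => ENNReal.ofReal C2) atTop := by
          refine liminf_le_liminf (Eventually.of_forall fun n => ?_)
          rw [← ofReal_integral_norm_eq_lintegral_enorm (hun n)]
          refine ENNReal.ofReal_le_ofReal ?_
          refine (integral_congr_ae ?_).trans_le (hbound n)
          filter_upwards [hpos n] with z hz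
          exact Real.norm_of_nonneg hz
      _ = ENNReal.ofReal C2 := liminf_const _
  have hu : Integrable (fun z => M' - w z) (volume.restrict (ball c δ)) :=
    ⟨hmeas, hlint.trans_lt ENNReal.ofReal_lt_top⟩
  have h9 : Integrable (fun z => M' - (M' - w z)) (volume.restrict (ball c δ)) :=
    (integrable_const M').sub hu
  refine h9.congr (Eventually.of_forall fun z => ?_)
  show M' - (M' - w z) = w z
  ring

theorem wform_trunc {w : ℂ → ℝ} {c : ℂ} {R M : ℝ} (hup : ∀ z ∈ ball c R \ {c}, w z ≤ M)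
    (hloc : ∀ g : ℂ → ℝ, Continuous g → HasCompactSupport g → tsupport g ⊆ ball c R \ {c} →
      Integrable fun z => w z * g z)
    (htr : ∀ K : ℝ, WForm (fun z => max (w z) (-K)) c R) : WForm w c R := by
  rcases le_or_gt R 0 with hR | hR
  · have hemp : ball c R = ∅ := ball_eq_empty.2 hR
    have hz : ∀ {g : ℂ → ℝ}, tsupport g ⊆ ball c R → ∀ z, g z = 0 := by
      intro g hgs z
      refine image_eq_zero_of_notMem_tsupport fun h => ?_
      have h1 := hgs h
      rw [hemp] at h1
      exact h1
    refine ⟨?_, ?_⟩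
    · intro g _ _ hgs
      have h1 : (fun z => w z * g z) = fun _ => (0 : ℝ) := by
        funext z
        rw [hz hgs z, mul_zero]
      rw [h1]
      exact integrable_zero _ _ _
    · intro η _ _ hηs _
      refine le_of_eq ?_
      symm
      refine integral_eq_zero_of_ae (Eventually.of_forall fun z => ?_)
      have h2 : lap η z = 0 := lap_off fun h => by
        have h1 := hηs h
        rw [hemp] at h1
        exact h1
      show w z * lap η z = 0
      rw [h2, mul_zero]
  · obtain ⟨δ, hδ, hB⟩ := A3_loc hR hup hloc htr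
    have hInt : ∀ g : ℂ → ℝ, Continuous g → HasCompactSupport g → tsupport g ⊆ ball c R →
        Integrable fun z => w z * g z := by
      intro g hg hgc hgs
      refine A3_mul hg hgc ?_
      have hT : IsCompact (tsupport g \ ball c δ) := IsCompact.diff hgc isOpen_ball
      have hTS : tsupport g \ ball c δ ⊆ ball c R \ {c} := by
        intro z hz
        refine ⟨hgs hz.1, fun h => hz.2 ?_⟩
        rw [mem_singleton_iff.1 h]
        exact mem_ball_self hδ
      have h1 : IntegrableOn w (tsupport g \ ball c δ) :=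
        A3_on (isOpen_ball.sdiff isClosed_singleton) hT hTS hloc
      refine (hB.union h1).mono_set fun z hz => ?_
      by_cases h : z ∈ ball c δ
      · exact Or.inl h
      · exact Or.inr ⟨hz, h⟩
    refine ⟨hInt, ?_⟩
    intro η hη hηc hηs h0
    have hLc : Continuous (lap η) := K3_lap_cont hη
    have hLcs : HasCompactSupport (lap η) := K3_lap_cs hηc
    have hLs : tsupport (lap η) ⊆ ball c R := A3_ts.trans hηs
    have hv : ∀ n : ℕ, 0 ≤ ∫ z, max (w z) (-(n : ℝ)) * lap η z := fun n =>
      (htr n).sub η hη hηc hηs h0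
    have hlim : Tendsto (fun n : ℕ => ∫ z, max (w z) (-(n : ℝ)) * lap η z) atTop
        (𝓝 (∫ z, w z * lap η z)) := by
      refine tendsto_integral_of_dominated_convergence (fun z => |w z * lap η z|) ?_
        (hInt _ hLc hLcs hLs).abs ?_ ?_
      · intro n
        exact ((htr n).int _ hLc hLcs hLs).aestronglyMeasurable
      · intro n
        refine Eventually.of_forall fun z => ?_
        rw [Real.norm_eq_abs, abs_mul, abs_mul]
        exact mul_le_mul_of_nonneg_right (A3_abs _ _ (Nat.cast_nonneg n)) (abs_nonneg _)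
      · exact Eventually.of_forall fun z => (A3_lim (w z)).mul_const _
    exact ge_of_tendsto' hlim hv

end Pool.Agent.Nef6.SM
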