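import Pool.Agent.H.MP_6a1d6a_ag.SM.A3

/-!
MP_6a1d6a_ag/SM, module A4: `log f` on a punctured ball, where `f ≥ 0` is continuous and bounded, `log f` has the sub-mean value property
where `f ≠ 0`, and the zeros of `f` are isolated (they may accumulate at the centre).

For `K` let `t_K = log (max f (exp (-K)))`. On the open set `O = ball c R \ {c}` it is continuous, bounded, and `LSub t_K O`: at `z` with `f z ≠ 0` take
`ρ` from `PSub`; on `ball z (2ρ)` `f > 0` and `t_K = max (log f) (-K)`, so `log f b ≤ circleAverage (log f) b r ≤ circleAverage t_K b r` and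
`-K ≤ circleAverage t_K b r`; at `z` with `f z = 0`, `t_K = -K` is constant near `z`. By `wform_bdd`, `WForm t_K c R`. The set `{f = 0} ∩ O` has no
accumulation point in `O`, so it is countable, thus null; off it `t_K = max (log f) (-K)`: `WForm (max (log f) (-K)) c R` (`WForm.congr`).
The hypothesis `hloc` of `wform_trunc` at the centre `c`: each `z₀ ∈ O` has a small ball `B ⊆ O` with `f ≠ 0` on `B \ {z₀}`, and `WForm (log f) z₀ ρ`:
apply `wform_trunc` with the centre `z₀`: there `log f` is continuous off `z₀`, bounded above by `log (max M 1)` (note `log 0 = 0`), `hloc` by `int_loc`, and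
the truncated functions as above (restricted to the small ball). Then for `g` with compact support in `O` cover `tsupport g` by finitely
many such balls (half radius) and use `IntegrableOn` on compact sets (with a bump function `= 1` on `closedBall z₀ (ρ/2)`): `log f` is integrable
on `tsupport g`.
If `R ≤ 0` everything is trivial.
-/

set_option autoImplicit false

open Set Filter Topology Metric MeasureTheory
open scoped ContDiff

namespace Pool.Agent.Nef6.SM

/-- the sub-mean value property of `log f` near the points with `f ≠ 0` -/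
def PSub (f : ℂ → ℝ) (U : Set ℂ) : Prop :=
  ∀ z ∈ U, f z ≠ 0 → ∃ ρ > 0, (∀ b ∈ ball z (2 * ρ), b ∈ U ∧ f b ≠ 0) ∧
    ∀ b ∈ ball z ρ, ∀ r, 0 < r → r < ρ →
      Real.log (f b) ≤ Real.circleAverage (fun z => Real.log (f z)) b r

private theorem A4_loglt {x M : ℝ} (h0 : 0 ≤ x) (h1 : x ≤ M) : Real.log x ≤ Real.log (max M 1) := by
  rcases h0.eq_or_lt with h | h
  · rw [← h, Real.log_zero]
    exact Real.log_nonneg (le_max_right _ _)
  · exact Real.log_le_log h (h1.trans (le_max_left _ _))

private theorem A4_max {x K : ℝ} (h : 0 < x) :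
    Real.log (max x (Real.exp (-K))) = max (Real.log x) (-K) := by
  rcases le_total x (Real.exp (-K)) with h1 | h1
  · have h2 : Real.log x ≤ -K := by
      rw [← Real.log_exp (-K)]
      exact Real.log_le_log h h1
    rw [max_eq_right h1, max_eq_right h2, Real.log_exp]
  · have h2 : -K ≤ Real.log x := by
      rw [← Real.log_exp (-K)]
      exact Real.log_le_log (Real.exp_pos _) h1
    rw [max_eq_left h1, max_eq_left h2]

private theorem A4_ae {f : ℂ → ℝ} {U : Set ℂ} (hU : IsOpen U)
    (hz : ∀ z ∈ U, ∀ᶠ z' in 𝓝[≠] z, f z' ≠ 0) : ∀ᵐ z : ℂ, z ∈ U → f z ≠ 0 := by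
  rw [← ae_restrict_iff' hU.measurableSet]
  have h1 : {z : ℂ | f z ≠ 0} ∈ codiscreteWithin U := by
    rw [mem_codiscreteWithin_iff_forall_mem_nhdsNE]
    intro x hx
    filter_upwards [hz x hx] with y hy
    exact Or.inl hy
  exact ae_restrict_le_codiscreteWithin hU.measurableSet h1

private theorem A4_tc {f : ℂ → ℝ} {U : Set ℂ} (hf : ContinuousOn f U) (K : ℝ) :
    ContinuousOn (fun z => Real.log (max (f z) (Real.exp (-K)))) U := by
  refine ContinuousOn.log (hf.sup continuousOn_const) fun z _ => ?_
  exact (lt_of_lt_of_le (Real.exp_pos _) (le_max_right _ _)).ne'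

private theorem A4_sub {f : ℂ → ℝ} {U V : Set ℂ} (hf : ContinuousOn f U) (hs : PSub f U)
    (hU : IsOpen U) (hV : IsOpen V) (hVU : V ⊆ U) (h0 : ∀ z ∈ U, 0 ≤ f z) (K : ℝ) :
    LSub (fun z => Real.log (max (f z) (Real.exp (-K)))) V := by
  intro z hz
  have hzU := hVU hz
  obtain ⟨s, hs0, hsV⟩ := Metric.isOpen_iff.1 hV z hz
  have hcont := A4_tc hf K
  rcases eq_or_ne (f z) 0 with hz0 | hz0
  · have h1 : ∀ᶠ y in 𝓝 z, f y < Real.exp (-K) := by
      have h2 : ContinuousAt f z := hf.continuousAt (hU.mem_nhds hzU)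
      have h3 : f z < Real.exp (-K) := by
        rw [hz0]
        exact Real.exp_pos _
      exact h2.eventually_lt_const h3
    obtain ⟨t, ht0, ht⟩ := Metric.eventually_nhds_iff_ball.1 h1
    refine ⟨min s t / 2, by positivity, ?_, ?_⟩
    · refine (ball_subset_ball ?_).trans hsV
      have := min_le_left s t
      linarith
    · intro b hb r hr hr'
      have hst := min_le_right s t
      rw [mem_ball] at hb
      have h4 : ∀ y ∈ ball z t, Real.log (max (f y) (Real.exp (-K))) = -K := fun y hy => by
        rw [max_eq_right (ht y hy).le, Real.log_exp]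
      have h5 : Real.circleAverage (fun z => Real.log (max (f z) (Real.exp (-K)))) b r = -K := by
        refine Real.circleAverage_const_on_circle fun y hy => h4 y ?_
        rw [mem_sphere, abs_of_pos hr] at hy
        rw [mem_ball]
        have := dist_triangle y b z
        linarith
      rw [h5]
      refine (h4 b ?_).le
      rw [mem_ball]
      linarith
  · obtain ⟨ρ, hρ, h1, h2⟩ := hs z hzU hz0
    refine ⟨min (s / 2) ρ, by positivity, ?_, ?_⟩
    · refine (ball_subset_ball ?_).trans hsV
      have := min_le_left (s / 2) ρ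
      linarith
    · intro b hb r hr hr'
      have hm := min_le_right (s / 2) ρ
      have hb' : b ∈ ball z ρ := ball_subset_ball hm hb
      have h3 := h2 b hb' r hr (hr'.trans_le hm)
      rw [mem_ball] at hb'
      have hball : closedBall b r ⊆ ball z (2 * ρ) := by
        intro y hy
        rw [mem_closedBall] at hy
        rw [mem_ball]
        have := dist_triangle y b z
        linarith
      have hpos : ∀ y ∈ closedBall b r, 0 < f y := fun y hy =>
        lt_of_le_of_ne (h0 y (h1 y (hball hy)).1) (h1 y (hball hy)).2.symm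
      have hsph : sphere b r ⊆ closedBall b r := sphere_subset_closedBall
      have hU' : closedBall b r ⊆ U := fun y hy => (h1 y (hball hy)).1
      have hb0 : b ∈ closedBall b r := mem_closedBall_self hr.le
      have i1 : CircleIntegrable (fun z => Real.log (f z)) b r := by
        refine ContinuousOn.circleIntegrable hr.le ?_
        exact ContinuousOn.log (hf.mono (hsph.trans hU')) fun y hy => (hpos y (hsph hy)).ne'
      have i2 : CircleIntegrable (fun z => Real.log (max (f z) (Real.exp (-K)))) b r :=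
        ContinuousOn.circleIntegrable hr.le (hcont.mono (hsph.trans hU'))
      show Real.log (max (f b) (Real.exp (-K))) ≤ _
      rw [A4_max (hpos b hb0)]
      refine max_le (h3.trans ?_) ?_
      · refine Real.circleAverage_mono i1 i2 fun y hy => ?_
        rw [abs_of_pos hr] at hy
        rw [A4_max (hpos y (hsph hy))]
        exact le_max_left _ _
      · refine (Real.circleAverage_const (-K) b r).symm.le.trans ?_
        refine Real.circleAverage_mono (circleIntegrable_const _ _ _) i2 fun y hy => ?_
        rw [abs_of_pos hr] at hy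
        rw [A4_max (hpos y (hsph hy))]
        exact le_max_right _ _

/-- the truncated functions on small balls -/
private theorem A4_tr {f : ℂ → ℝ} {U : Set ℂ} {M : ℝ} (hU : IsOpen U) (hf : ContinuousOn f U)
    (h0 : ∀ z ∈ U, 0 ≤ f z ∧ f z ≤ M) (hs : PSub f U)
    (hz : ∀ z ∈ U, ∀ᶠ z' in 𝓝[≠] z, f z' ≠ 0) {a : ℂ} {ρ : ℝ} (ha : ball a ρ \ {a} ⊆ U) (K : ℝ) :
    WForm (fun z => max (Real.log (f z)) (-K)) a ρ := by
  have h1 : WForm (fun z => Real.log (max (f z) (Real.exp (-K)))) a ρ := by
    refine wform_bdd (M := |K| + |Real.log (max M (Real.exp (-K)))|) ((A4_tc hf K).mono ha)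
      (A4_sub hf hs hU (isOpen_ball.sdiff isClosed_singleton) ha (fun z hz => (h0 z hz).1) K)
      fun z hz => ?_
    have h2 : -K ≤ Real.log (max (f z) (Real.exp (-K))) := by
      calc -K = Real.log (Real.exp (-K)) := (Real.log_exp _).symm
        _ ≤ _ := Real.log_le_log (Real.exp_pos _) (le_max_right _ _)
    have h3 : Real.log (max (f z) (Real.exp (-K))) ≤ Real.log (max M (Real.exp (-K))) :=
      Real.log_le_log (lt_of_lt_of_le (Real.exp_pos _) (le_max_right _ _))
        (max_le_max_right _ (h0 z (ha hz)).2)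
    rw [abs_le]
    constructor
    · have h4 := le_abs_self K
      have h5 := abs_nonneg (Real.log (max M (Real.exp (-K))))
      linarith
    · have h4 := le_abs_self (Real.log (max M (Real.exp (-K))))
      have h5 := abs_nonneg K
      linarith
  refine h1.congr ?_
  have hne : ∀ᵐ z : ℂ, z ≠ a := by
    rw [ae_iff]
    simp
  filter_upwards [A4_ae hU hz, hne] with z hz1 hz2 hz3
  have hzU : z ∈ U := ha ⟨hz3, hz2⟩
  exact A4_max (lt_of_le_of_ne (h0 z hzU).1 (hz1 hzU).symm)

/-- local integrability of `log f` -/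
private theorem A4_loc {f : ℂ → ℝ} {U : Set ℂ} {M : ℝ} (hU : IsOpen U) (hf : ContinuousOn f U)
    (h0 : ∀ z ∈ U, 0 ≤ f z ∧ f z ≤ M) (hs : PSub f U)
    (hz : ∀ z ∈ U, ∀ᶠ z' in 𝓝[≠] z, f z' ≠ 0) :
    LocallyIntegrableOn (fun z => Real.log (f z)) U := by
  intro a ha
  obtain ⟨s, hs0, hsU⟩ := Metric.isOpen_iff.1 hU a ha
  obtain ⟨t, ht0, ht⟩ := Metric.mem_nhdsWithin_iff.1 (hz a ha)
  have hρ : 0 < min s t := lt_min hs0 ht0
  have hne : ∀ z ∈ ball a (min s t) \ {a}, f z ≠ 0 := fun z hz' =>
    ht ⟨ball_subset_ball (min_le_right _ _) hz'.1, hz'.2⟩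
  have hbU : ball a (min s t) \ {a} ⊆ U := fun z hz' =>
    hsU (ball_subset_ball (min_le_left _ _) hz'.1)
  have hw : WForm (fun z => Real.log (f z)) a (min s t) := by
    refine wform_trunc (M := Real.log (max M 1)) (fun z hz' => A4_loglt (h0 z (hbU hz')).1
      (h0 z (hbU hz')).2) ?_ (A4_tr hU hf h0 hs hz hbU)
    intro g hg hc hsg
    exact int_loc (ContinuousOn.log (hf.mono hbU) hne) hg hc hsg
  obtain ⟨χ, hχ⟩ : ∃ χ : ContDiffBump a, χ = ⟨min s t / 3, min s t / 2, by positivity,
    by linarith⟩ := ⟨_, rfl⟩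
  have hts : tsupport χ ⊆ ball a (min s t) := by
    rw [χ.tsupport_eq, hχ]
    exact closedBall_subset_ball (by show min s t / 2 < min s t; linarith)
  have h1 := hw.int χ χ.continuous χ.hasCompactSupport hts
  refine ⟨ball a (min s t / 3), mem_nhdsWithin_of_mem_nhds (ball_mem_nhds a (by positivity)), ?_⟩
  have h2 : IntegrableOn (fun z => Real.log (f z) * χ z) (ball a (min s t / 3)) :=
    h1.integrableOn
  refine h2.congr_fun (fun z hz' => ?_) measurableSet_ball
  have h3 : χ z = 1 := by
    refine χ.one_of_mem_closedBall ?_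
    rw [hχ]
    exact ball_subset_closedBall hz'
  show Real.log (f z) * χ z = Real.log (f z)
  rw [h3, mul_one]

theorem wform_log {f : ℂ → ℝ} {c : ℂ} {R M : ℝ} (hf : ContinuousOn f (ball c R \ {c}))
    (h0 : ∀ z ∈ ball c R \ {c}, 0 ≤ f z ∧ f z ≤ M) (hs : PSub f (ball c R \ {c}))
    (hz : ∀ z ∈ ball c R \ {c}, ∀ᶠ z' in 𝓝[≠] z, f z' ≠ 0) :
    WForm (fun z => Real.log (f z)) c R := by
  have hU : IsOpen (ball c R \ {c}) := isOpen_ball.sdiff isClosed_singleton
  refine wform_trunc (M := Real.log (max M 1)) (fun z hz' => A4_loglt (h0 z hz').1 (h0 z hz').2) ?_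
    (A4_tr hU hf h0 hs hz Subset.rfl)
  intro g hg hc hsg
  have h1 : IntegrableOn (fun z => Real.log (f z)) (tsupport g) :=
    (A4_loc hU hf h0 hs hz).integrableOn_compact_subset hsg hc
  obtain ⟨C, hC0, hC⟩ := K3_bdd hg hc
  have h2 : Integrable ((tsupport g).indicator fun z => Real.log (f z)) := by
    rw [integrable_indicator_iff (isClosed_tsupport g).measurableSet]
    exact h1
  refine (K3_mul h2 hg hC).congr (Eventually.of_forall fun z => ?_)
  by_cases hz' : z ∈ tsupport g
  · simp only [indicator_of_mem hz']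
  · simp only [indicator_of_notMem hz', image_eq_zero_of_notMem_tsupport hz', mul_zero]

end Pool.Agent.Nef6.SM
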