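import Pool.Agent.H.MP_6a1d6a_ag.SM.A4
import Pool.Agent.H.MP_6a1d6a_ag.W

/-!
MP_6a1d6a_ag/SM, module A6: a maximum principle with two exceptional points.

`max_princ`: suppose `f s > C (‖s‖ / r) ^ κ` at some point `s*` of `ball 0 r \ {0, s₁}`. For small `ε > 0` the function
`H s = f s * (‖s‖ / r) ^ (ε - κ) * (‖s - s₁‖ / (2 r)) ^ ε * exp (ε (‖s‖² - r²))` for `s ≠ 0, s₁`, `H 0 = H s₁ = 0`, has `H s* > C`. It is continuous on the compact
disc `closedBall 0 r` (at `0`: `f s ≤ C' ‖s‖ ^ κ`, so `H s ≤ C'' ‖s‖ ^ ε → 0`; at `s₁`: `f ≤ C`, the factor `‖s - s₁‖ ^ ε → 0`; if `s₁ = 0` both at once),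
so it has a maximum at a point `s'`, `H s' > C`; as `H ≤ C` on the circle `‖s‖ = r` (`‖s - s₁‖ ≤ 2 r`), `s'` is in the open ball, `s' ≠ 0, s₁`, `f s' > 0`.
On a small disc about `s'` the function `log H` is continuous and
`log H s' ≤ circleAverage (log H) s' t - ε t²` for small `t > 0`: `PSub` for `log f`; `log ‖s‖` and `log ‖s - s₁‖` are harmonic near `s'` (mean value
equality `circleAverage_log_norm_sub_const...` or: for `κ - ε > 0` the term `-(κ - ε) log ‖s‖` needs the equality, so use the Mathlib formula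
`circleAverage_log_norm_sub_const_eq_log_radius_add_posLog` as in K3); the circle average of `‖s‖²` over the circle of radius `t` about `s'` is
`‖s'‖² + t²`. But `log H ≤ log H s'` on the circle: contradiction.
-/

set_option autoImplicit false

open Set Filter Topology Metric MeasureTheory
open scoped ContDiff

namespace Pool.Agent.Nef6.SM

private theorem A6_avgsq (c : ℂ) {t : ℝ} (ht : 0 ≤ t) :
    Real.circleAverage (fun z : ℂ => ‖z‖ ^ 2) c t = ‖c‖ ^ 2 + t ^ 2 := by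
  obtain ⟨g, hg⟩ : ∃ g : ℂ → ℂ, g = fun z => 2 * ((starRingEnd ℂ) c * (z - c)) := ⟨_, rfl⟩
  have hgd : Differentiable ℂ g := by
    rw [hg]
    fun_prop
  have h1 : Real.circleAverage g c t = 0 := by
    rw [(hgd.diffContOnCl).circleAverage, hg]
    simp
  have hgi : CircleIntegrable g c t := (hgd.continuous.continuousOn).circleIntegrable ht
  have h2 : Real.circleAverage (fun z => (g z).re) c t = 0 := by
    have h3 := Complex.reCLM.circleAverage_comp_comm hgi
    rw [h1] at h3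
    have h4 : Real.circleAverage (Complex.reCLM ∘ g) c t = 0 := by
      rw [h3]
      exact map_zero _
    exact h4
  have h3 : Real.circleAverage (fun z : ℂ => ‖z‖ ^ 2) c t =
      Real.circleAverage (fun z => (g z).re + (‖c‖ ^ 2 + t ^ 2)) c t := by
    apply Real.circleAverage_congr_sphere
    intro z hz
    rw [abs_of_nonneg ht, mem_sphere, dist_eq_norm] at hz
    show ‖z‖ ^ 2 = (g z).re + (‖c‖ ^ 2 + t ^ 2)
    rw [← hz, hg, ← Complex.normSq_eq_norm_sq, ← Complex.normSq_eq_norm_sq,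
      ← Complex.normSq_eq_norm_sq]
    simp only [Complex.normSq_apply, Complex.mul_re, Complex.mul_im, Complex.sub_re,
      Complex.sub_im, Complex.conj_re, Complex.conj_im, Complex.re_ofNat, Complex.im_ofNat]
    ring
  have hri : CircleIntegrable (fun z => (g z).re) c t :=
    ((Complex.continuous_re.comp hgd.continuous).continuousOn).circleIntegrable ht
  have hci : CircleIntegrable (fun _ : ℂ => ‖c‖ ^ 2 + t ^ 2) c t :=
    continuousOn_const.circleIntegrable ht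
  rw [h3, Real.circleAverage_fun_add hri hci, h2, Real.circleAverage_const, zero_add]

private theorem A6_avglog {a c : ℂ} {t : ℝ} (ht : 0 < t) (h : t < ‖c - a‖) :
    Real.circleAverage (fun z : ℂ => Real.log ‖z - a‖) c t = Real.log ‖c - a‖ := by
  have h0 : 0 < ‖c - a‖ := ht.trans h
  rw [circleAverage_log_norm_sub_const_eq_log_radius_add_posLog ht.ne',
    Real.posLog_eq_log, Real.log_mul (inv_ne_zero ht.ne') h0.ne', Real.log_inv]
  · ring
  · rw [abs_of_pos (by positivity), ← div_eq_inv_mul, one_le_div ht]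
    exact h.le

private theorem A6_mul (a : ℝ) (g : ℂ → ℝ) (c : ℂ) (t : ℝ) :
    Real.circleAverage (fun z => a * g z) c t = a * Real.circleAverage g c t := by
  have h : Real.circleAverage (fun z => a • g z) c t = a • Real.circleAverage g c t :=
    Real.circleAverage_fun_smul
  exact h

/-- there is no interior maximum -/
private theorem A6_local {f : ℂ → ℝ} {U : Set ℂ} {s' s₁ : ℂ} (hsub : PSub f U)
    (hf : ContinuousOn f U) (h0 : ∀ s ∈ U, 0 ≤ f s) (hs' : s' ∈ U) (hne : f s' ≠ 0)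
    (h0U : (0 : ℂ) ∉ U) (h1U : s₁ ∉ U) (α : ℝ) {ε : ℝ} (hε : 0 < ε) :
    ∃ s ∈ U, 0 < f s ∧
      Real.log (f s') + (α * Real.log ‖s'‖ + (ε * Real.log ‖s' - s₁‖ + ε * ‖s'‖ ^ 2)) <
        Real.log (f s) + (α * Real.log ‖s‖ + (ε * Real.log ‖s - s₁‖ + ε * ‖s‖ ^ 2)) := by
  obtain ⟨ρ, hρ, h1, h2⟩ := hsub s' hs' hne
  by_contra hcon
  push Not at hcon
  obtain ⟨t, ht⟩ : ∃ t : ℝ, t = ρ / 2 := ⟨_, rfl⟩
  have ht0 : 0 < t := by rw [ht]; positivity
  have hball : closedBall s' t ⊆ ball s' (2 * ρ) := closedBall_subset_ball (by rw [ht]; linarith)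
  have hU : ∀ z ∈ closedBall s' t, z ∈ U := fun z hz => (h1 z (hball hz)).1
  have hpos : ∀ z ∈ closedBall s' t, 0 < f z := fun z hz =>
    lt_of_le_of_ne (h0 z (hU z hz)) (h1 z (hball hz)).2.symm
  have hdist : ∀ a : ℂ, a ∉ U → t < ‖s' - a‖ := by
    intro a ha
    by_contra h3
    apply ha
    apply hU
    rw [mem_closedBall, dist_comm, dist_eq_norm]
    exact not_lt.1 h3
  have hsph : sphere s' t ⊆ closedBall s' t := sphere_subset_closedBall
  have i1 : CircleIntegrable (fun z => Real.log (f z)) s' t := by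
    refine ContinuousOn.circleIntegrable ht0.le (ContinuousOn.log (hf.mono fun z hz =>
      hU z (hsph hz)) fun z hz => (hpos z (hsph hz)).ne')
  have i2 : CircleIntegrable (fun z : ℂ => α * Real.log ‖z‖) s' t := by
    refine ContinuousOn.circleIntegrable ht0.le (continuousOn_const.mul
      (ContinuousOn.log continuous_norm.continuousOn fun z hz => ?_))
    rw [norm_ne_zero_iff]
    rintro rfl
    exact h0U (hU _ (hsph hz))
  have i3 : CircleIntegrable (fun z : ℂ => ε * Real.log ‖z - s₁‖) s' t := by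
    refine ContinuousOn.circleIntegrable ht0.le (continuousOn_const.mul
      (ContinuousOn.log (continuous_id.sub continuous_const).norm.continuousOn fun z hz => ?_))
    rw [norm_ne_zero_iff]
    intro h3
    have h4 : z = s₁ := sub_eq_zero.1 h3
    exact h1U (h4 ▸ hU _ (hsph hz))
  have i4 : CircleIntegrable (fun z : ℂ => ε * ‖z‖ ^ 2) s' t :=
    ContinuousOn.circleIntegrable ht0.le (by fun_prop)
  have a1 := h2 s' (mem_ball_self hρ) t ht0 (by rw [ht]; linarith)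
  have a2 : Real.circleAverage (fun z : ℂ => α * Real.log ‖z‖) s' t = α * Real.log ‖s'‖ := by
    have h3 := A6_avglog (a := 0) (c := s') ht0 (by rw [sub_zero]; have := hdist 0 h0U; rwa [sub_zero] at this)
    simp only [sub_zero] at h3
    rw [← h3]
    exact A6_mul _ _ _ _
  have a3 : Real.circleAverage (fun z : ℂ => ε * Real.log ‖z - s₁‖) s' t =
      ε * Real.log ‖s' - s₁‖ := by
    rw [← A6_avglog (a := s₁) (c := s') ht0 (hdist s₁ h1U)]
    exact A6_mul _ _ _ _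
  have a4 : Real.circleAverage (fun z : ℂ => ε * ‖z‖ ^ 2) s' t = ε * (‖s'‖ ^ 2 + t ^ 2) := by
    rw [← A6_avgsq s' ht0.le]
    exact A6_mul _ _ _ _
  have i34 := i3.add i4
  have i234 := i2.add i34
  have e1 : Real.circleAverage (fun z => Real.log (f z) + (α * Real.log ‖z‖ +
      (ε * Real.log ‖z - s₁‖ + ε * ‖z‖ ^ 2))) s' t =
      Real.circleAverage (fun z => Real.log (f z)) s' t +
        (α * Real.log ‖s'‖ + (ε * Real.log ‖s' - s₁‖ + ε * (‖s'‖ ^ 2 + t ^ 2))) := by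
    have e4 : Real.circleAverage (fun z : ℂ => ε * Real.log ‖z - s₁‖ + ε * ‖z‖ ^ 2) s' t =
        ε * Real.log ‖s' - s₁‖ + ε * (‖s'‖ ^ 2 + t ^ 2) := by
      rw [← a3, ← a4]
      exact Real.circleAverage_fun_add i3 i4
    have e3 : Real.circleAverage (fun z : ℂ => α * Real.log ‖z‖ +
        (ε * Real.log ‖z - s₁‖ + ε * ‖z‖ ^ 2)) s' t =
        α * Real.log ‖s'‖ + (ε * Real.log ‖s' - s₁‖ + ε * (‖s'‖ ^ 2 + t ^ 2)) := by
      rw [← a2, ← e4]
      exact Real.circleAverage_fun_add i2 i34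
    rw [← e3]
    exact Real.circleAverage_fun_add i1 i234
  have e5 : Real.circleAverage (fun z => Real.log (f z) + (α * Real.log ‖z‖ +
      (ε * Real.log ‖z - s₁‖ + ε * ‖z‖ ^ 2))) s' t ≤
      Real.log (f s') + (α * Real.log ‖s'‖ + (ε * Real.log ‖s' - s₁‖ + ε * ‖s'‖ ^ 2)) := by
    refine Real.circleAverage_mono_on_of_le_circle (i1.add i234) fun z hz => ?_
    rw [abs_of_pos ht0] at hz
    exact hcon z (hU z (hsph hz)) (hpos z (hsph hz))
  rw [e1] at e5
  have h6 : 0 < ε * t ^ 2 := by positivity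
  nlinarith

theorem max_princ {f : ℂ → ℝ} {r C κ : ℝ} {s₁ : ℂ} (hr : 0 < r) (hC : 0 < C) (hκ : 0 < κ)
    (hs : ‖s₁‖ < r) (hf : ContinuousOn f (closedBall 0 r \ {0, s₁}))
    (h0 : ∀ s ∈ closedBall 0 r \ {0, s₁}, 0 ≤ f s ∧ f s ≤ C)
    (hsub : PSub f (ball 0 r \ {0, s₁}))
    (hup : ∃ C' : ℝ, ∀ᶠ s in 𝓝[≠] (0 : ℂ), f s ≤ C' * ‖s‖ ^ κ) :
    ∀ s ∈ ball (0 : ℂ) r \ {0, s₁}, f s ≤ C * (‖s‖ / r) ^ κ := by
  intro p hp
  by_contra hcon
  have hcon1 : C * (‖p‖ / r) ^ κ < f p := not_le.1 hcon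
  have hUV : ball (0 : ℂ) r \ {0, s₁} ⊆ closedBall 0 r \ {0, s₁} :=
    Set.sdiff_subset_sdiff_left ball_subset_closedBall
  have hne0 : ∀ s ∈ closedBall (0 : ℂ) r \ {0, s₁}, s ≠ 0 := by
    rintro s hs rfl
    exact hs.2 (Set.mem_insert _ _)
  have hne1 : ∀ s ∈ closedBall (0 : ℂ) r \ {0, s₁}, s ≠ s₁ := by
    rintro s hs rfl
    exact hs.2 (Set.mem_insert_of_mem _ rfl)
  have hp0 : 0 < ‖p‖ := norm_pos_iff.2 (hne0 p (hUV hp))
  -- the weight
  obtain ⟨G, hG⟩ : ∃ G : ℝ → ℂ → ℝ, G = fun ε s => (ε - κ) * (Real.log ‖s‖ - Real.log r) +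
      ε * (Real.log ‖s - s₁‖ - Real.log (2 * r)) + ε * (‖s‖ ^ 2 - r ^ 2) := ⟨_, rfl⟩
  obtain ⟨ε, hε, hεp⟩ : ∃ ε : ℝ, 0 < ε ∧ C < f p * Real.exp (G ε p) := by
    have h1 : Continuous fun ε : ℝ => f p * Real.exp (G ε p) := by
      rw [hG]
      fun_prop
    have h2 : C < f p * Real.exp (G 0 p) := by
      have h3 : G 0 p = -(κ * Real.log (‖p‖ / r)) := by
        rw [hG, Real.log_div hp0.ne' hr.ne']
        ring
      have h4 : (‖p‖ / r) ^ κ = Real.exp (κ * Real.log (‖p‖ / r)) := by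
        rw [Real.rpow_def_of_pos (div_pos hp0 hr), mul_comm]
      rw [h4] at hcon1
      rw [h3, Real.exp_neg, ← div_eq_mul_inv, lt_div_iff₀ (Real.exp_pos _)]
      exact hcon1
    have h3 : ∀ᶠ ε in 𝓝 (0 : ℝ), C < f p * Real.exp (G ε p) :=
      h1.continuousAt.eventually_const_lt h2
    have h4 : ∀ᶠ ε in 𝓝[>] (0 : ℝ), C < f p * Real.exp (G ε p) :=
      h3.filter_mono nhdsWithin_le_nhds
    obtain ⟨ε, h5, h6⟩ := (h4.and self_mem_nhdsWithin).exists
    exact ⟨ε, h6, h5⟩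
  obtain ⟨H, hH⟩ : ∃ H : ℂ → ℝ, H = fun s => f s * Real.exp (G ε s) := ⟨_, rfl⟩
  have hHp : C < H p := by rw [hH]; exact hεp
  -- the last two terms of the weight are nonpositive
  have hlog1 : ∀ s ∈ closedBall (0 : ℂ) r, Real.log ‖s - s₁‖ - Real.log (2 * r) ≤ 0 ∨ s = s₁ := by
    intro s hs2
    by_cases h : s = s₁
    · exact Or.inr h
    · left
      have h1 : 0 < ‖s - s₁‖ := norm_pos_iff.2 (sub_ne_zero.2 h)
      have h2 : ‖s‖ ≤ r := mem_closedBall_zero_iff.1 hs2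
      have h3 : ‖s - s₁‖ ≤ 2 * r := (norm_sub_le _ _).trans (by linarith)
      have h4 := Real.log_le_log h1 h3
      linarith
  have hsq : ∀ s ∈ closedBall (0 : ℂ) r, ‖s‖ ^ 2 - r ^ 2 ≤ 0 := by
    intro s hs2
    have h2 : ‖s‖ ≤ r := mem_closedBall_zero_iff.1 hs2
    nlinarith [norm_nonneg s]
  -- near `0`
  have hz : ∀ᶠ s in 𝓝[≠] (0 : ℂ), s ∈ closedBall (0 : ℂ) r \ {0, s₁} → H s < C := by
    obtain ⟨C', hC'⟩ := hup
    obtain ⟨D, hD⟩ : ∃ D : ℝ, D = |C'| * Real.exp (-((ε - κ) * Real.log r)) := ⟨_, rfl⟩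
    have h1 : Tendsto (fun s : ℂ => D * ‖s‖ ^ ε) (𝓝[≠] 0) (𝓝 0) := by
      have h2 : Continuous fun s : ℂ => D * ‖s‖ ^ ε :=
        continuous_const.mul (continuous_norm.rpow_const fun _ => Or.inr hε.le)
      have h3 := h2.tendsto 0
      rw [norm_zero, Real.zero_rpow hε.ne', mul_zero] at h3
      exact h3.mono_left nhdsWithin_le_nhds
    filter_upwards [hC', h1.eventually_lt_const hC, self_mem_nhdsWithin] with s h2 h3 h4 h5
    have hs0 : 0 < ‖s‖ := norm_pos_iff.2 h4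
    refine lt_of_le_of_lt ?_ h3
    have h6 : G ε s ≤ (ε - κ) * (Real.log ‖s‖ - Real.log r) := by
      rw [hG]
      have h7 : ε * (Real.log ‖s - s₁‖ - Real.log (2 * r)) ≤ 0 := by
        rcases hlog1 s h5.1 with h8 | h8
        · exact mul_nonpos_of_nonneg_of_nonpos hε.le h8
        · exact absurd h8 (hne1 s h5)
      have h9 : ε * (‖s‖ ^ 2 - r ^ 2) ≤ 0 := mul_nonpos_of_nonneg_of_nonpos hε.le (hsq s h5.1)
      show (ε - κ) * (Real.log ‖s‖ - Real.log r) + ε * (Real.log ‖s - s₁‖ - Real.log (2 * r)) +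
        ε * (‖s‖ ^ 2 - r ^ 2) ≤ _
      linarith
    have h7 : f s ≤ |C'| * ‖s‖ ^ κ := h2.trans
      (mul_le_mul_of_nonneg_right (le_abs_self _) (Real.rpow_nonneg hs0.le _))
    rw [hH]
    calc f s * Real.exp (G ε s) ≤ (|C'| * ‖s‖ ^ κ) *
          Real.exp ((ε - κ) * (Real.log ‖s‖ - Real.log r)) :=
          mul_le_mul h7 (Real.exp_le_exp.2 h6) (Real.exp_pos _).le (by positivity)
      _ = D * ‖s‖ ^ ε := by
          rw [hD, Real.rpow_def_of_pos hs0, Real.rpow_def_of_pos hs0, mul_assoc, mul_assoc,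
            ← Real.exp_add, ← Real.exp_add]
          congr 2
          ring
  -- near `s₁`
  have hz1 : ∀ᶠ s in 𝓝[≠] s₁, s ∈ closedBall (0 : ℂ) r \ {0, s₁} → H s < C := by
    by_cases hs10 : s₁ = 0
    · rw [hs10] at hz ⊢
      exact hz
    · have h1 : ContinuousAt (fun s : ℂ => C * (Real.exp ((ε - κ) * (Real.log ‖s‖ - Real.log r)) *
          (‖s - s₁‖ / (2 * r)) ^ ε)) s₁ := by
        have h2 : ContinuousAt (fun s : ℂ => Real.log ‖s‖) s₁ :=
          ContinuousAt.log continuous_norm.continuousAt (norm_ne_zero_iff.2 hs10)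
        have h3 : ContinuousAt (fun s : ℂ => (‖s - s₁‖ / (2 * r)) ^ ε) s₁ := by
          refine ContinuousAt.rpow_const ?_ (Or.inr hε.le)
          fun_prop
        exact continuousAt_const.mul ((Real.continuous_exp.continuousAt.comp
          (continuousAt_const.mul (h2.sub continuousAt_const))).mul h3)
      have h2 : C * (Real.exp ((ε - κ) * (Real.log ‖s₁‖ - Real.log r)) *
          (‖s₁ - s₁‖ / (2 * r)) ^ ε) < C := by
        rw [sub_self, norm_zero, zero_div, Real.zero_rpow hε.ne', mul_zero, mul_zero]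
        exact hC
      have h3 := (h1.eventually_lt_const h2).filter_mono (nhdsWithin_le_nhds (s := {s₁}ᶜ))
      filter_upwards [h3, self_mem_nhdsWithin] with s h4 h5 h6
      refine lt_of_le_of_lt ?_ h4
      have h7 : 0 < ‖s - s₁‖ := norm_pos_iff.2 (sub_ne_zero.2 h5)
      have h8 : (‖s - s₁‖ / (2 * r)) ^ ε =
          Real.exp (ε * (Real.log ‖s - s₁‖ - Real.log (2 * r))) := by
        rw [Real.rpow_def_of_pos (by positivity), Real.log_div h7.ne' (by positivity), mul_comm]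
      rw [h8, ← Real.exp_add, hH]
      refine mul_le_mul (h0 s h6).2 (Real.exp_le_exp.2 ?_) (Real.exp_pos _).le hC.le
      rw [hG]
      have h9 : ε * (‖s‖ ^ 2 - r ^ 2) ≤ 0 := mul_nonpos_of_nonneg_of_nonpos hε.le (hsq s h6.1)
      show (ε - κ) * (Real.log ‖s‖ - Real.log r) + ε * (Real.log ‖s - s₁‖ - Real.log (2 * r)) +
        ε * (‖s‖ ^ 2 - r ^ 2) ≤ _
      linarith
  -- the compact set
  rw [eventually_nhdsWithin_iff, Metric.eventually_nhds_iff_ball] at hz hz1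
  obtain ⟨δ, hδ, hz⟩ := hz
  obtain ⟨δ', hδ', hz1⟩ := hz1
  have hsmall : ∀ s ∈ closedBall (0 : ℂ) r \ {0, s₁}, s ∈ ball (0 : ℂ) δ ∪ ball s₁ δ' →
      H s < C := by
    intro s h1 h2
    rcases h2 with h2 | h2
    · exact hz s h2 (hne0 s h1) h1
    · exact hz1 s h2 (hne1 s h1) h1
  have hK : IsCompact (closedBall (0 : ℂ) r \ (ball (0 : ℂ) δ ∪ ball s₁ δ')) :=
    (isCompact_closedBall 0 r).diff (isOpen_ball.union isOpen_ball)
  have hKsub : closedBall (0 : ℂ) r \ (ball (0 : ℂ) δ ∪ ball s₁ δ') ⊆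
      closedBall 0 r \ {0, s₁} := by
    rintro s ⟨h1, h2⟩
    refine ⟨h1, fun h3 => h2 ?_⟩
    rcases h3 with h3 | h3
    · rw [h3]
      exact Or.inl (mem_ball_self hδ)
    · rw [mem_singleton_iff] at h3
      rw [h3]
      exact Or.inr (mem_ball_self hδ')
  have hHc : ContinuousOn H (closedBall 0 r \ {0, s₁}) := by
    rw [hH]
    refine hf.mul (Real.continuous_exp.comp_continuousOn ?_)
    rw [hG]
    have c1 : ContinuousOn (fun s : ℂ => Real.log ‖s‖) (closedBall 0 r \ {0, s₁}) :=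
      ContinuousOn.log continuous_norm.continuousOn fun s hs => norm_ne_zero_iff.2 (hne0 s hs)
    have c2 : ContinuousOn (fun s : ℂ => Real.log ‖s - s₁‖) (closedBall 0 r \ {0, s₁}) :=
      ContinuousOn.log (continuous_id.sub continuous_const).norm.continuousOn fun s hs =>
        norm_ne_zero_iff.2 (sub_ne_zero.2 (hne1 s hs))
    have c3 : ContinuousOn (fun s : ℂ => ε * (‖s‖ ^ 2 - r ^ 2)) (closedBall 0 r \ {0, s₁}) := by
      fun_prop
    exact ((continuousOn_const.mul (c1.sub continuousOn_const)).add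
      (continuousOn_const.mul (c2.sub continuousOn_const))).add c3
  have hpV := hUV hp
  have hpK : p ∈ closedBall (0 : ℂ) r \ (ball (0 : ℂ) δ ∪ ball s₁ δ') :=
    ⟨hpV.1, fun h1 => lt_irrefl _ (hHp.trans (hsmall p hpV h1))⟩
  obtain ⟨q, hq, hqmax⟩ := hK.exists_isMaxOn ⟨p, hpK⟩ (hHc.mono hKsub)
  have hqV := hKsub hq
  have hHq : C < H q := hHp.trans_le (hqmax hpK)
  have hall : ∀ s ∈ closedBall (0 : ℂ) r \ {0, s₁}, H s ≤ H q := by
    intro s hs2
    by_cases h1 : s ∈ ball (0 : ℂ) δ ∪ ball s₁ δ'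
    · exact ((hsmall s hs2 h1).trans hHq).le
    · exact hqmax ⟨hs2.1, h1⟩
  -- `q` is not on the circle
  have hqr : ‖q‖ < r := by
    refine lt_of_le_of_ne (mem_closedBall_zero_iff.1 hqV.1) fun h1 => ?_
    have h2 : H q ≤ C := by
      rw [hH]
      have h3 : G ε q ≤ 0 := by
        rw [hG]
        show (ε - κ) * (Real.log ‖q‖ - Real.log r) + ε * (Real.log ‖q - s₁‖ - Real.log (2 * r)) +
          ε * (‖q‖ ^ 2 - r ^ 2) ≤ 0
        rw [h1, sub_self, sub_self, mul_zero, mul_zero, zero_add, add_zero]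
        rcases hlog1 q hqV.1 with h8 | h8
        · exact mul_nonpos_of_nonneg_of_nonpos hε.le h8
        · exact absurd h8 (hne1 q hqV)
      have h4 : Real.exp (G ε q) ≤ 1 := Real.exp_le_one_iff.2 h3
      have h5 := h0 q hqV
      calc f q * Real.exp (G ε q) ≤ f q * 1 := mul_le_mul_of_nonneg_left h4 h5.1
        _ ≤ C := by rw [mul_one]; exact h5.2
    exact lt_irrefl _ (hHq.trans_le h2)
  have hqU : q ∈ ball (0 : ℂ) r \ {0, s₁} := ⟨mem_ball_zero_iff.2 hqr, hqV.2⟩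
  have hfq : 0 < f q := by
    refine lt_of_le_of_ne (h0 q hqV).1 fun h1 => ?_
    have h2 : H q = 0 := by rw [hH]; show f q * Real.exp (G ε q) = 0; rw [← h1, zero_mul]
    rw [h2] at hHq
    exact lt_irrefl _ (hC.trans hHq)
  obtain ⟨s, hsU, hfs, hlt⟩ := A6_local hsub (hf.mono hUV) (fun s hs => (h0 s (hUV hs)).1) hqU
    hfq.ne' (fun h => hne0 0 (hUV h) rfl) (fun h => hne1 s₁ (hUV h) rfl) (ε - κ) hε
  have h1 := hall s (hUV hsU)
  have h2 : ∀ s, 0 < f s → H s = Real.exp (Real.log (f s) + G ε s) := by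
    intro s hs
    rw [hH, Real.exp_add, Real.exp_log hs]
  rw [h2 s hfs, h2 q hfq, Real.exp_le_exp, hG] at h1
  have h3 : Real.log (f s) + ((ε - κ) * (Real.log ‖s‖ - Real.log r) +
      ε * (Real.log ‖s - s₁‖ - Real.log (2 * r)) + ε * (‖s‖ ^ 2 - r ^ 2)) ≤
      Real.log (f q) + ((ε - κ) * (Real.log ‖q‖ - Real.log r) +
      ε * (Real.log ‖q - s₁‖ - Real.log (2 * r)) + ε * (‖q‖ ^ 2 - r ^ 2)) := h1
  linarith

end Pool.Agent.Nef6.SM
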