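import Pool.Agent.H.MP_6a1d6a_ag.SM.Def

/-!
MP_6a1d6a_ag/SM, module B1: elementary properties of `pt`, `vec`, `pull`.

`x ^ 0 = 1` for real powers, also for `x = 0`; `0 ^ s = 0` for `s ≠ 0`; `fun x => x ^ s` is continuous for `0 ≤ s` (`Real.continuous_rpow_const`...).
`vec a x v = 0` iff `v.2 = 0` and (`v.1 = 0` or `a ≠ 1` and `x.1 = 0`), for `a = 1` or `1 < a`. `IsMetric.zero`: `h x 0 = 0` from `smul`.
`pull_exp`: with the unit number `e = exp (- i (a - 1) Im L)`: `e * exp (a L) = |exp L| ^ (a - 1) * exp L` and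
`e * exp ((a - 1) L) = |exp L| ^ (a - 1)` (`|exp L| = exp (Re L)`, `Complex.norm_exp`); `RotInv` for the point `(exp (a L), y)` or
for `pt a (exp L, y)` with the inverse of `e`.
-/

set_option autoImplicit false

open Set Filter Topology Metric
open scoped ContDiff

namespace Pool.Agent.Nef6.SM

variable {n : ℕ} {h : E n → E n → ℝ} {U : Set (E n)} {a : ℝ}

theorem IsMetric.zero (hh : IsMetric h U) {x : E n} (hx : x ∈ U) : h x 0 = 0 := by
  have h1 := hh.smul x hx 0 0
  rw [smul_zero, norm_zero, zero_mul] at h1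
  exact h1

theorem IsMetric.nonneg (hh : IsMetric h U) {x : E n} (hx : x ∈ U) (v : E n) : 0 ≤ h x v := by
  by_cases hv : v = 0
  · rw [hv, hh.zero hx]
  · exact (hh.pos x hx v hv).le

private theorem B1_iff (hh : IsMetric h U) {x : E n} (hx : x ∈ U) (v : E n) :
    h x v = 0 ↔ v = 0 := by
  constructor
  · intro h0
    by_contra hv
    exact (hh.pos x hx v hv).ne' h0
  · rintro rfl
    exact hh.zero hx

theorem pt_one (x : E n) : pt 1 x = x := by
  unfold pt
  rw [sub_self, Real.rpow_zero, Complex.ofReal_one, one_mul]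

private theorem B1_vec_one (x v : E n) : vec 1 x v = v := by
  unfold vec
  rw [sub_self, Real.rpow_zero, mul_one, Complex.ofReal_one, one_mul]

theorem pull_one (h : E n → E n → ℝ) (x v : E n) : pull 1 h x v = h x v := by
  unfold pull
  rw [pt_one, B1_vec_one]

theorem pt_zero (ha : 1 < a) {x : E n} (h1 : x.1 = 0) : pt a x = x := by
  have _ := ha
  unfold pt
  refine Prod.ext ?_ rfl
  show ((‖x.1‖ ^ (a - 1) : ℝ) : ℂ) * x.1 = x.1
  rw [h1, mul_zero]

private theorem B1_rpow_cont (ha : 1 ≤ a) :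
    Continuous fun x : E n => ‖x.1‖ ^ (a - 1) := by
  have h1 : (0 : ℝ) ≤ a - 1 := by linarith
  exact (Real.continuous_rpow_const h1).comp continuous_fst.norm

theorem pt_cont (ha : 1 ≤ a) : Continuous (pt a : E n → E n) := by
  exact ((Complex.continuous_ofReal.comp (B1_rpow_cont ha)).mul continuous_fst).prodMk
    continuous_snd

theorem vec_cont (ha : 1 ≤ a) : Continuous fun q : E n × E n => vec a q.1 q.2 := by
  have h1 : Continuous fun q : E n × E n => a * ‖q.1.1‖ ^ (a - 1) :=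
    continuous_const.mul ((B1_rpow_cont ha).comp continuous_fst)
  exact ((Complex.continuous_ofReal.comp h1).mul (continuous_fst.comp continuous_snd)).prodMk
    (continuous_snd.comp continuous_snd)

theorem pull_cont (hh : IsMetric h U) (ha : 1 ≤ a) :
    ContinuousOn (fun q : E n × E n => pull a h q.1 q.2) ({x | pt a x ∈ U} ×ˢ univ) := by
  have h1 : Continuous fun q : E n × E n => (pt a q.1, vec a q.1 q.2) :=
    ((pt_cont ha).comp continuous_fst).prodMk (vec_cont ha)
  exact hh.cont.comp h1.continuousOn fun q hq => ⟨hq.1, mem_univ _⟩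

theorem pull_open (hh : IsMetric h U) (ha : 1 ≤ a) : IsOpen {x : E n | pt a x ∈ U} :=
  hh.op.preimage (pt_cont ha)

theorem pull_smul (hh : IsMetric h U) {x : E n} (hx : pt a x ∈ U) (c : ℂ) (v : E n) :
    pull a h x (c • v) = ‖c‖ * pull a h x v := by
  have h1 : vec a x (c • v) = c • vec a x v := by
    unfold vec
    refine Prod.ext ?_ rfl
    show ((a * ‖x.1‖ ^ (a - 1) : ℝ) : ℂ) * (c * v.1) = c * (((a * ‖x.1‖ ^ (a - 1) : ℝ) : ℂ) * v.1)
    ring
  unfold pull
  rw [h1, hh.smul _ hx]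

theorem pull_nonneg (hh : IsMetric h U) {x : E n} (hx : pt a x ∈ U) (v : E n) :
    0 ≤ pull a h x v := hh.nonneg hx _

theorem pull_zero_iff (hh : IsMetric h U) (ha : a = 1 ∨ 1 < a ∧ RotInv h U) {x : E n}
    (hx : pt a x ∈ U) (v : E n) :
    pull a h x v = 0 ↔ v = 0 ∨ (1 < a ∧ x.1 = 0 ∧ v.2 = 0) := by
  unfold pull
  rw [B1_iff hh hx]
  rcases ha with rfl | ⟨ha, -⟩
  · rw [B1_vec_one]
    constructor
    · exact fun h0 => Or.inl h0
    · rintro (h0 | ⟨h0, -⟩)
      · exact h0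
      · exact absurd h0 (lt_irrefl _)
  · have h2 : vec a x v = 0 ↔ ((a * ‖x.1‖ ^ (a - 1) : ℝ) : ℂ) * v.1 = 0 ∧ v.2 = 0 := by
      unfold vec
      rw [Prod.mk_eq_zero]
    have h3 : ((a * ‖x.1‖ ^ (a - 1) : ℝ) : ℂ) = 0 ↔ x.1 = 0 := by
      rw [Complex.ofReal_eq_zero, mul_eq_zero, Real.rpow_eq_zero (norm_nonneg _) (by linarith),
        norm_eq_zero]
      constructor
      · rintro (h0 | h0)
        · linarith
        · exact h0
      · exact fun h0 => Or.inr h0
    rw [h2, mul_eq_zero, h3]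
    constructor
    · rintro ⟨h0 | h0, h4⟩
      · exact Or.inr ⟨ha, h0, h4⟩
      · exact Or.inl (Prod.ext h0 h4)
    · rintro (rfl | ⟨-, h0, h4⟩)
      · exact ⟨Or.inr rfl, rfl⟩
      · exact ⟨Or.inl h0, h4⟩

/-- at a point of the divisor -/
theorem pull_zero (ha : 1 < a) {x : E n} (h1 : x.1 = 0) (v : E n) : pull a h x v = h x (0, v.2) := by
  have h2 : vec a x v = (0, v.2) := by
    unfold vec
    rw [h1, norm_zero, Real.zero_rpow (by linarith), mul_zero, Complex.ofReal_zero, zero_mul]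
  unfold pull
  rw [pt_zero ha h1, h2]

/-- the value in terms of a branch of the power -/
theorem pull_exp (hh : IsMetric h U) (hr : RotInv h U) {L : ℂ} {y : EuclideanSpace ℂ (Fin n)}
    (hx : pt a (Complex.exp L, y) ∈ U) (v : E n) :
    (Complex.exp (a * L), y) ∈ U ∧
      pull a h (Complex.exp L, y) v =
        h (Complex.exp (a * L), y) (a * Complex.exp ((a - 1) * L) * v.1, v.2) := by
  obtain ⟨e, he⟩ : ∃ e, e = Complex.exp ((((a - 1) * L.im : ℝ) : ℂ) * Complex.I) := ⟨_, rfl⟩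
  have hen : ‖e‖ = 1 := by
    rw [he]
    exact Complex.norm_exp_ofReal_mul_I _
  have hpow : ((‖Complex.exp L‖ ^ (a - 1) : ℝ) : ℂ) = Complex.exp (((a - 1) * L.re : ℝ) : ℂ) := by
    rw [Complex.norm_exp, ← Real.exp_mul, Complex.ofReal_exp, mul_comm L.re]
  have hL : ((((a - 1) * L.im : ℝ) : ℂ) * Complex.I) + (((a - 1) * L.re : ℝ) : ℂ) =
      ((a : ℂ) - 1) * L := by
    push_cast
    conv_rhs => rw [← Complex.re_add_im L]
    ring
  have hmul : e * ((‖Complex.exp L‖ ^ (a - 1) : ℝ) : ℂ) = Complex.exp (((a : ℂ) - 1) * L) := by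
    rw [he, hpow, ← Complex.exp_add, hL]
  have e1 : e * (pt a ((Complex.exp L, y) : E n)).1 = Complex.exp (a * L) := by
    show e * (((‖Complex.exp L‖ ^ (a - 1) : ℝ) : ℂ) * Complex.exp L) = _
    rw [← mul_assoc, hmul, ← Complex.exp_add]
    congr 1
    ring
  have e2 : e * (vec a ((Complex.exp L, y) : E n) v).1 =
      a * Complex.exp (((a : ℂ) - 1) * L) * v.1 := by
    show e * (((a * ‖Complex.exp L‖ ^ (a - 1) : ℝ) : ℂ) * v.1) = _
    rw [← hmul, Complex.ofReal_mul]
    ring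
  obtain ⟨h1, h2⟩ := hr e hen _ hx
  rw [e1] at h1 h2
  refine ⟨h1, ?_⟩
  have h3 := h2 (vec a ((Complex.exp L, y) : E n) v)
  rw [e2] at h3
  exact h3.symm

end Pool.Agent.Nef6.SM
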