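import Pool.Agent.H.MP_6a1d6a_ag.SM.B1

/-!
MP_6a1d6a_ag/SM, module B2: a rotationally symmetric metric with plurisubharmonic logarithm increases along the discs through the
divisor.

`scale_le`. If `‖ζ‖ = 1` it is an equality (`RotInv`). If `‖ζ‖ < 1` let `φ w = (w + ζ) / (1 + conj ζ * w)`: holomorphic on a neighbourhood of the closed
unit disc (`‖conj ζ * w‖ < 1` there), `φ 0 = ζ`, `‖φ w‖ = 1` for `‖w‖ = 1`, `‖φ w‖ ≤ 1` for `‖w‖ ≤ 1`. Apply `psh` to `w ↦ (φ w * s, y)`,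
`w ↦ (φ w * t, v₂)` (not zero, as `v₂ ≠ 0`), centre `0`, radius `1`: `log h (ζ s, y) (ζ t, v₂) ≤` the circle average of
`log h (φ w s, y) (φ w t, v₂)`, which is the constant `log h (s, y) (t, v₂)` on the circle (`RotInv` with `e = φ w`). Exponentiate (`pos`).

`mul_le` : `z₁ = B exp L`, `‖B‖ ≤ 1`. By `RotInv` with `e = exp (- i (a - 1) Im L)` the right side is `h (B q, y) (a |exp L| ^ (a - 1) v₁, v₂)`,
`q = |exp L| ^ (a - 1) exp L`, and the left side is `h (β B q, y) (β a |exp L| ^ (a - 1) v₁, v₂)`, `β = ‖B‖ ^ (a - 1) ∈ [0, 1]`; `scale_le` with `ζ = β`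
(`β = 1` if `‖B‖ = 1`: equality).
-/

set_option autoImplicit false

open Set Filter Topology Metric
open scoped ContDiff

namespace Pool.Agent.Nef6.SM

variable {n : ℕ} {h : E n → E n → ℝ} {U : Set (E n)} {a : ℝ}

private theorem B2_norm (ζ z : ℂ) :
    ‖1 + (starRingEnd ℂ) ζ * z‖ ^ 2 - ‖z + ζ‖ ^ 2 = (1 - ‖ζ‖ ^ 2) * (1 - ‖z‖ ^ 2) := by
  rw [Complex.sq_norm, Complex.sq_norm, Complex.sq_norm, Complex.sq_norm, Complex.normSq_apply,
    Complex.normSq_apply, Complex.normSq_apply, Complex.normSq_apply]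
  simp only [Complex.add_re, Complex.add_im, Complex.mul_re, Complex.mul_im, Complex.conj_re,
    Complex.conj_im, Complex.one_re, Complex.one_im]
  ring

private theorem B2_exp (a : ℝ) (L : ℂ) :
    Complex.exp (a * L) = Complex.exp L * Complex.exp ((a - 1) * L) := by
  rw [← Complex.exp_add]
  congr 1
  ring

/-- The modulus and the argument of `exp ((a - 1) L)`. -/
private theorem B2_rot (a : ℝ) (L : ℂ) : ∃ e : ℂ, ‖e‖ = 1 ∧
    e * Complex.exp ((a - 1) * L) = ((‖Complex.exp L‖ ^ (a - 1) : ℝ) : ℂ) := by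
  refine ⟨Complex.exp (((-(a - 1) * L.im : ℝ) : ℂ) * Complex.I),
    Complex.norm_exp_ofReal_mul_I _, ?_⟩
  rw [← Complex.exp_add, Complex.norm_exp, ← Real.exp_mul, Complex.ofReal_exp]
  congr 1
  apply Complex.ext
  · simp [mul_comm]
  · simp
    ring
theorem scale_le (hh : IsMetric h U) (hr : RotInv h U) {s t : ℂ} {y w : EuclideanSpace ℂ (Fin n)}
    (hw : w ≠ 0) (hU : ∀ ζ : ℂ, ‖ζ‖ ≤ 1 → (ζ * s, y) ∈ U) {ζ : ℂ} (hζ : ‖ζ‖ ≤ 1) :
    h (ζ * s, y) (ζ * t, w) ≤ h (s, y) (t, w) := by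
  have hs : (s, y) ∈ U := by
    have h1 := hU 1 (by rw [norm_one])
    rwa [one_mul] at h1
  have hne : ∀ c : ℂ, ((c, w) : E n) ≠ 0 := fun c hc => hw (congrArg Prod.snd hc)
  rcases lt_or_eq_of_le hζ with hlt | heq
  · have hζ2 : 0 < 1 - ‖ζ‖ ^ 2 := by nlinarith [norm_nonneg ζ]
    have hden : ∀ z : ℂ, ‖z‖ ≤ 1 → 1 + (starRingEnd ℂ) ζ * z ≠ 0 := by
      intro z hz h0
      have h1 : (starRingEnd ℂ) ζ * z = -1 := by linear_combination h0
      have h2 : ‖(starRingEnd ℂ) ζ * z‖ = 1 := by rw [h1, norm_neg, norm_one]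
      rw [norm_mul, RCLike.norm_conj] at h2
      have h3 : ‖ζ‖ * ‖z‖ ≤ ‖ζ‖ * 1 := mul_le_mul_of_nonneg_left hz (norm_nonneg _)
      linarith
    have hφ1 : ∀ z : ℂ, ‖z‖ ≤ 1 → ‖(z + ζ) / (1 + (starRingEnd ℂ) ζ * z)‖ ≤ 1 := by
      intro z hz
      have h0 : 0 < ‖1 + (starRingEnd ℂ) ζ * z‖ := norm_pos_iff.2 (hden z hz)
      rw [norm_div, div_le_one h0]
      have h1 := B2_norm ζ z
      have h2 : 0 ≤ (1 - ‖ζ‖ ^ 2) * (1 - ‖z‖ ^ 2) :=
        mul_nonneg hζ2.le (by nlinarith [norm_nonneg z])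
      exact le_of_sq_le_sq (by linarith) h0.le
    have hφ2 : ∀ z : ℂ, ‖z‖ = 1 → ‖(z + ζ) / (1 + (starRingEnd ℂ) ζ * z)‖ = 1 := by
      intro z hz
      have h0 : 0 < ‖1 + (starRingEnd ℂ) ζ * z‖ := norm_pos_iff.2 (hden z hz.le)
      rw [norm_div, div_eq_one_iff_eq h0.ne']
      have h1 := B2_norm ζ z
      rw [hz, one_pow, sub_self, mul_zero, sub_eq_zero] at h1
      exact ((pow_left_inj₀ (norm_nonneg _) (norm_nonneg _) two_ne_zero).1 h1).symm
    have han : ∀ c : ℂ, ∀ u : EuclideanSpace ℂ (Fin n), AnalyticOnNhd ℂ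
        (fun z : ℂ => (((z + ζ) / (1 + (starRingEnd ℂ) ζ * z) * c, u) : E n))
        (closedBall 0 1) := by
      intro c u z hz
      have hz1 : ‖z‖ ≤ 1 := mem_closedBall_zero_iff.1 hz
      have h1 : AnalyticAt ℂ (fun z : ℂ => (z + ζ) / (1 + (starRingEnd ℂ) ζ * z)) z :=
        (analyticAt_id.add analyticAt_const).div
          (analyticAt_const.add (analyticAt_const.mul analyticAt_id)) (hden z hz1)
      have h2 : AnalyticAt ℂ (fun z : ℂ => (z + ζ) / (1 + (starRingEnd ℂ) ζ * z) * c) z :=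
        h1.mul analyticAt_const
      exact AnalyticAt.prod h2 analyticAt_const
    have key := hh.psh _ _ 0 1 one_pos (han s y) (han t w) (fun z hz =>
      ⟨hU _ (hφ1 z (mem_closedBall_zero_iff.1 hz)), hne _⟩)
    have hcong : Real.circleAverage (fun z : ℂ => Real.log
        (h (((z + ζ) / (1 + (starRingEnd ℂ) ζ * z) * s, y) : E n)
          ((z + ζ) / (1 + (starRingEnd ℂ) ζ * z) * t, w))) 0 1 =
        Real.log (h (s, y) (t, w)) := by
      have h1 : Real.circleAverage (fun z : ℂ => Real.log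
          (h (((z + ζ) / (1 + (starRingEnd ℂ) ζ * z) * s, y) : E n)
            ((z + ζ) / (1 + (starRingEnd ℂ) ζ * z) * t, w))) 0 1 =
          Real.circleAverage (fun _ : ℂ => Real.log (h (s, y) (t, w))) 0 1 := by
        apply Real.circleAverage_congr_sphere
        intro z hz
        have hz1 : ‖z‖ = 1 := by
          rw [abs_one] at hz
          exact mem_sphere_zero_iff_norm.1 hz
        show Real.log _ = Real.log _
        rw [(hr _ (hφ2 z hz1) (s, y) hs).2 (t, w)]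
      rw [h1, Real.circleAverage_const]
    rw [hcong] at key
    have e0 : ((0 : ℂ) + ζ) / (1 + (starRingEnd ℂ) ζ * 0) = ζ := by
      rw [zero_add, mul_zero, add_zero, div_one]
    rw [e0] at key
    have hp1 : 0 < h (ζ * s, y) (ζ * t, w) := hh.pos _ (hU ζ hζ) _ (hne _)
    have hp2 : 0 < h (s, y) (t, w) := hh.pos _ hs _ (hne _)
    exact (Real.log_le_log_iff hp1 hp2).1 key
  · exact le_of_eq ((hr ζ heq (s, y) hs).2 (t, w))

theorem mul_le (hh : IsMetric h U) (hr : RotInv h U) (ha : 1 < a) {B L v₁ : ℂ}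
    {y w : EuclideanSpace ℂ (Fin n)} (hw : w ≠ 0) (hB : ‖B‖ ≤ 1)
    (hU : ∀ ζ : ℂ, ‖ζ‖ ≤ 1 → (ζ * Complex.exp (a * L), y) ∈ U) :
    pull a h (B * Complex.exp L, y) (v₁, w) ≤
      h (B * Complex.exp (a * L), y) (a * Complex.exp ((a - 1) * L) * v₁, w) := by
  obtain ⟨e, he, hee⟩ := B2_rot a L
  set q : ℝ := ‖Complex.exp L‖ ^ (a - 1) with hq
  have hE := B2_exp a L
  set X : ℂ := Complex.exp ((a - 1) * L) with hX
  have hs : (B * Complex.exp (a * L), y) ∈ U := hU B hB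
  have h1 := (hr e he _ hs).2 (a * X * v₁, w)
  rw [← h1]
  have e1 : e * (B * Complex.exp (a * L)) = (q : ℂ) * (B * Complex.exp L) := by
    rw [hE]
    linear_combination (B * Complex.exp L) * hee
  have e2 : e * (a * X * v₁) = (a : ℂ) * q * v₁ := by
    linear_combination ((a : ℂ) * v₁) * hee
  show h (((‖B * Complex.exp L‖ ^ (a - 1) : ℝ) : ℂ) * (B * Complex.exp L), y)
    (((a * ‖B * Complex.exp L‖ ^ (a - 1) : ℝ) : ℂ) * v₁, w) ≤
    h (e * (B * Complex.exp (a * L)), y) (e * (a * X * v₁), w)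
  rw [e1, e2]
  have hβ : ‖B * Complex.exp L‖ ^ (a - 1) = ‖B‖ ^ (a - 1) * q := by
    rw [norm_mul, Real.mul_rpow (norm_nonneg _) (norm_nonneg _)]
  have hβ0 : 0 ≤ ‖B‖ ^ (a - 1) := Real.rpow_nonneg (norm_nonneg _) _
  have hβ1 : ‖B‖ ^ (a - 1) ≤ 1 :=
    Real.rpow_le_one (norm_nonneg _) hB (by linarith)
  have hβn : ‖((‖B‖ ^ (a - 1) : ℝ) : ℂ)‖ ≤ 1 := by
    rw [Complex.norm_real, Real.norm_eq_abs, abs_of_nonneg hβ0]
    exact hβ1
  have e3 : ((‖B * Complex.exp L‖ ^ (a - 1) : ℝ) : ℂ) * (B * Complex.exp L) =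
      ((‖B‖ ^ (a - 1) : ℝ) : ℂ) * ((q : ℂ) * (B * Complex.exp L)) := by
    rw [hβ, Complex.ofReal_mul]
    ring
  have e4 : ((a * ‖B * Complex.exp L‖ ^ (a - 1) : ℝ) : ℂ) * v₁ =
      ((‖B‖ ^ (a - 1) : ℝ) : ℂ) * ((a : ℂ) * q * v₁) := by
    rw [hβ, Complex.ofReal_mul, Complex.ofReal_mul]
    ring
  rw [e3, e4]
  refine scale_le hh hr hw ?_ hβn
  intro ζ hζ
  have e5 : ζ * ((q : ℂ) * (B * Complex.exp L)) = (ζ * e * B) * Complex.exp (a * L) := by
    rw [← e1]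
    ring
  rw [e5]
  apply hU
  rw [norm_mul, norm_mul, he, mul_one]
  calc ‖ζ‖ * ‖B‖ ≤ 1 * 1 := mul_le_mul hζ hB (norm_nonneg _) zero_le_one
    _ = 1 := one_mul 1

theorem mul_eq (hh : IsMetric h U) (hr : RotInv h U) (ha : 1 < a) {B L v₁ : ℂ}
    {y w : EuclideanSpace ℂ (Fin n)} (hB : ‖B‖ = 1)
    (hU : (Complex.exp (a * L), y) ∈ U) :
    pull a h (B * Complex.exp L, y) (v₁, w) =
      h (B * Complex.exp (a * L), y) (a * Complex.exp ((a - 1) * L) * v₁, w) := by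
  obtain ⟨e, he, hee⟩ := B2_rot a L
  set q : ℝ := ‖Complex.exp L‖ ^ (a - 1) with hq
  have hE := B2_exp a L
  set X : ℂ := Complex.exp ((a - 1) * L) with hX
  have hs : (B * Complex.exp (a * L), y) ∈ U := (hr B hB _ hU).1
  have h1 := (hr e he _ hs).2 (a * X * v₁, w)
  rw [← h1]
  have e1 : e * (B * Complex.exp (a * L)) = (q : ℂ) * (B * Complex.exp L) := by
    rw [hE]
    linear_combination (B * Complex.exp L) * hee
  have e2 : e * (a * X * v₁) = (a : ℂ) * q * v₁ := by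
    linear_combination ((a : ℂ) * v₁) * hee
  show h (((‖B * Complex.exp L‖ ^ (a - 1) : ℝ) : ℂ) * (B * Complex.exp L), y)
    (((a * ‖B * Complex.exp L‖ ^ (a - 1) : ℝ) : ℂ) * v₁, w) =
    h (e * (B * Complex.exp (a * L)), y) (e * (a * X * v₁), w)
  rw [e1, e2, norm_mul, hB, one_mul, ← hq, Complex.ofReal_mul]

end Pool.Agent.Nef6.SM
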