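import Pool.Agent.H.MP_6a1d6a_ag.SM.B1

/-!
MP_6a1d6a_ag/SM, module B3: the sub-mean value inequality off the divisor, and for `a = 1`.

`sub_one`: near `z₀` the functions `x`, `v` are analytic (`AnalyticAt.eventually_analyticAt`), `x z ∈ U`, `v z ≠ 0`; take `ρ` with all this on `ball z₀ (2 ρ)` and use
`psh` (`closedBall b r ⊆ ball z₀ (2 ρ)`), `pull_one`.
`sub_off`: `(x z₀).1 ≠ 0`. Near `z₀` there is an analytic `L` with `exp (L z) = (x z).1`: `L z = log ((x z).1 / (x z₀).1) + log (x z₀).1`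
(`(x z).1 / (x z₀).1` is near `1`, so in `Complex.slitPlane`). By `pull_exp`, `pull a h (x z) (v z) = h (X z) (V z)`,
`X z = (exp (a L z), (x z).2)`, `V z = (a exp ((a - 1) L z) (v z).1, (v z).2)`, analytic, `X z ∈ U`, `V z ≠ 0` near `z₀` (`v z ≠ 0`). Then as `sub_one`.
-/

set_option autoImplicit false

open Set Filter Topology Metric
open scoped ContDiff

namespace Pool.Agent.Nef6.SM

variable {n : ℕ} {h : E n → E n → ℝ} {U : Set (E n)} {a : ℝ}

private theorem B3_core (hh : IsMetric h U) {X V : ℂ → E n} {z₀ : ℂ} {G : ℂ → ℝ}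
    (hX : AnalyticAt ℂ X z₀) (hV : AnalyticAt ℂ V z₀) (hU : X z₀ ∈ U) (h0 : V z₀ ≠ 0)
    (hG : ∀ᶠ z in 𝓝 z₀, G z = Real.log (h (X z) (V z))) :
    ∃ ρ > 0, ∀ b ∈ ball z₀ ρ, ∀ r, 0 < r → r < ρ → G b ≤ Real.circleAverage G b r := by
  have e1 : ∀ᶠ z in 𝓝 z₀, X z ∈ U := hX.continuousAt.eventually_mem (hh.op.mem_nhds hU)
  have e2 : ∀ᶠ z in 𝓝 z₀, V z ≠ 0 := hV.continuousAt.eventually_ne h0
  have e3 : ∀ᶠ z in 𝓝 z₀, AnalyticAt ℂ X z := hX.eventually_analyticAt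
  have e4 : ∀ᶠ z in 𝓝 z₀, AnalyticAt ℂ V z := hV.eventually_analyticAt
  obtain ⟨ε, hε, hb⟩ := Metric.eventually_nhds_iff_ball.1 (e1.and (e2.and (e3.and (e4.and hG))))
  refine ⟨ε / 2, by positivity, fun b hbb r hr0 hr => ?_⟩
  have hsub : ∀ z ∈ closedBall b r, z ∈ ball z₀ ε := by
    intro z hz
    rw [mem_closedBall] at hz
    rw [mem_ball] at hbb ⊢
    calc dist z z₀ ≤ dist z b + dist b z₀ := dist_triangle _ _ _
      _ < ε := by linarith
  have hbz : b ∈ closedBall b r := mem_closedBall_self hr0.le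
  have h1 := hh.psh X V b r hr0 (fun z hz => (hb z (hsub z hz)).2.2.1)
    (fun z hz => (hb z (hsub z hz)).2.2.2.1)
    (fun z hz => ⟨(hb z (hsub z hz)).1, (hb z (hsub z hz)).2.1⟩)
  rw [(hb b (hsub b hbz)).2.2.2.2]
  refine h1.trans (le_of_eq ?_)
  refine Real.circleAverage_congr_sphere fun z hz => ?_
  rw [abs_of_pos hr0] at hz
  exact ((hb z (hsub z (sphere_subset_closedBall hz))).2.2.2.2).symm

theorem sub_one (hh : IsMetric h U) {x v : ℂ → E n} {z₀ : ℂ} (hx : AnalyticAt ℂ x z₀)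
    (hv : AnalyticAt ℂ v z₀) (hU : x z₀ ∈ U) (h0 : v z₀ ≠ 0) :
    ∃ ρ > 0, ∀ b ∈ ball z₀ ρ, ∀ r, 0 < r → r < ρ →
      Real.log (h (x b) (v b)) ≤ Real.circleAverage (fun z => Real.log (h (x z) (v z))) b r :=
  B3_core (G := fun z => Real.log (h (x z) (v z))) hh hx hv hU h0
    (Eventually.of_forall fun _ => rfl)

theorem sub_off (hh : IsMetric h U) (hr : RotInv h U) (ha : 1 < a) {x v : ℂ → E n} {z₀ : ℂ}
    (hx : AnalyticAt ℂ x z₀) (hv : AnalyticAt ℂ v z₀) (hU : pt a (x z₀) ∈ U)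
    (h1 : (x z₀).1 ≠ 0) (h0 : v z₀ ≠ 0) :
    ∃ ρ > 0, ∀ b ∈ ball z₀ ρ, ∀ r, 0 < r → r < ρ →
      Real.log (pull a h (x b) (v b)) ≤
        Real.circleAverage (fun z => Real.log (pull a h (x z) (v z))) b r := by
  have hx1 : AnalyticAt ℂ (fun z => (x z).1) z₀ := analyticAt_fst.comp hx
  have hx2 : AnalyticAt ℂ (fun z => (x z).2) z₀ := analyticAt_snd.comp hx
  have hv1 : AnalyticAt ℂ (fun z => (v z).1) z₀ := analyticAt_fst.comp hv
  have hv2 : AnalyticAt ℂ (fun z => (v z).2) z₀ := analyticAt_snd.comp hv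
  obtain ⟨L, hLd⟩ : ∃ L : ℂ → ℂ, L = fun z =>
    Complex.log ((x z).1 / (x z₀).1) + Complex.log (x z₀).1 := ⟨_, rfl⟩
  have hL : AnalyticAt ℂ L z₀ := by
    rw [hLd]
    refine AnalyticAt.add (AnalyticAt.clog (hx1.div analyticAt_const h1) ?_) analyticAt_const
    show (x z₀).1 / (x z₀).1 ∈ Complex.slitPlane
    rw [div_self h1]
    exact Complex.one_mem_slitPlane
  have hLe : ∀ z, (x z).1 ≠ 0 → Complex.exp (L z) = (x z).1 := by
    intro z hz
    rw [hLd]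
    show Complex.exp (Complex.log ((x z).1 / (x z₀).1) + Complex.log (x z₀).1) = _
    rw [Complex.exp_add, Complex.exp_log (div_ne_zero hz h1), Complex.exp_log h1,
      div_mul_cancel₀ _ h1]
  have hxe : ∀ z, (x z).1 ≠ 0 → (Complex.exp (L z), (x z).2) = x z := by
    intro z hz
    rw [hLe z hz]
  have ha0 : (a : ℂ) ≠ 0 := by
    have : (0 : ℝ) < a := by linarith
    exact_mod_cast this.ne'
  have hE1 : AnalyticAt ℂ (fun z => Complex.exp (a * L z)) z₀ :=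
    (analyticAt_const.mul hL).cexp
  have hE2 : AnalyticAt ℂ (fun z => Complex.exp ((a - 1) * L z)) z₀ :=
    (analyticAt_const.mul hL).cexp
  have hX : AnalyticAt ℂ (fun z => ((Complex.exp (a * L z), (x z).2) : E n)) z₀ :=
    AnalyticAt.prod hE1 hx2
  have hV : AnalyticAt ℂ (fun z =>
      ((a * Complex.exp ((a - 1) * L z) * (v z).1, (v z).2) : E n)) z₀ :=
    AnalyticAt.prod ((analyticAt_const.mul hE2).mul hv1) hv2
  have hU0 : pt a ((Complex.exp (L z₀), (x z₀).2) : E n) ∈ U := by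
    rw [hxe z₀ h1]
    exact hU
  refine B3_core (G := fun z => Real.log (pull a h (x z) (v z))) hh hX hV
    (pull_exp hh hr hU0 (v z₀)).1 ?_ ?_
  · intro h2
    have h3 : (a : ℂ) * Complex.exp ((a - 1) * L z₀) * (v z₀).1 = 0 := congrArg Prod.fst h2
    have h4 : (v z₀).2 = 0 := congrArg Prod.snd h2
    have h5 : (v z₀).1 = 0 := by
      rcases mul_eq_zero.1 h3 with h6 | h6
      · rcases mul_eq_zero.1 h6 with h7 | h7
        · exact absurd h7 ha0
        · exact absurd h7 (Complex.exp_ne_zero _)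
      · exact h6
    exact h0 (Prod.ext h5 h4)
  · have e1 : ∀ᶠ z in 𝓝 z₀, pt a (x z) ∈ U :=
      (((pt_cont ha.le).continuousAt).comp hx.continuousAt).eventually_mem (hh.op.mem_nhds hU)
    have e2 : ∀ᶠ z in 𝓝 z₀, (x z).1 ≠ 0 := hx1.continuousAt.eventually_ne h1
    filter_upwards [e1, e2] with z hz1 hz2
    have hz3 : pt a ((Complex.exp (L z), (x z).2) : E n) ∈ U := by
      rw [hxe z hz2]
      exact hz1
    have h6 := (pull_exp hh hr hz3 (v z)).2
    rw [hxe z hz2] at h6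
    show Real.log (pull a h (x z) (v z)) = _
    rw [h6]

end Pool.Agent.Nef6.SM
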