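import Pool.Agent.H.MP_6a1d6a_ag.SM.B2
import Pool.Agent.H.MP_6a1d6a_ag.SM.B3

/-!
MP_6a1d6a_ag/SM, module B4: the sub-mean value inequality across the divisor.

`sub_on`: `(x z₀).1 = 0`, so `pt a (x z₀) = x z₀ ∈ U`, `(v z₀).2 ≠ 0`.
Case 1: `(x z).1 = 0` for all `z` near `z₀`: by `pull_zero`, `pull a h (x z) (v z) = h (0, (x z).2) (0, (v z).2)`, `sub_one`.
Case 2: `(x z).1 = (z - z₀) ^ k * e z` near `z₀`, `k ≥ 1`, `e` analytic, `e z₀ ≠ 0` (`AnalyticAt.eventually_eq_zero_or_eventually_ne_zero`,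
`analyticOrderAt`, `AnalyticAt.analyticOrderAt_ne_top`). Let `l z = log (e z / e z₀) + log (e z₀)`, `exp (l z) = e z` near `z₀`. Choose `ρ > 0` such that on
`ball z₀ (4 ρ)` all this is true, `(v z).2 ≠ 0`, and `(ζ, (x z).2) ∈ U` for all `‖ζ‖ ≤ κ` (some `κ > 0`, `U` is open and contains `(0, (x z₀).2)`), and
`(4 ρ) ^ (k a) * ‖exp (a l z)‖ ≤ κ` there (`ρ` small; `k a > 0`). Let `b ∈ ball z₀ ρ`, `0 < r < ρ`, `q = z₀ - b`.
(i) `r < ‖q‖`: no zero in the closed disc. By continuity of the circle average in `r` (or directly) it is enough to treat `r ≠ ‖q‖`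
(for `r = ‖q‖` take radii `r' ↑ r` or `r' ↓ r`: `log (pull ...)` is continuous on `ball z₀ (4 ρ)` as `pull a h (x z) (v z) > 0` by `pull_zero_iff`).
On the closed disc put `L z = k log ((z - z₀)/(b - z₀)) + k log (b - z₀) + l z` (`(z - z₀)/(b - z₀)` has positive real part for
`‖z - b‖ ≤ r < ‖q‖`): `exp (L z) = (x z).1`; `pull_exp` and `psh` for `(exp (a L z), (x z).2)`, `(a exp ((a-1) L z) (v z).1, (v z).2)`.
(ii) `‖q‖ < r`: Blaschke factor `β z = r (z - z₀) / (r² - conj q * (z - b))`, `‖β z‖ = 1` for `‖z - b‖ = r`, `≤ 1` inside; `c z = (r² - conj q (z - b)) / r` has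
positive real part for `‖z - b‖ ≤ r`, `‖c z‖ ≤ 2 r`, `z - z₀ = β z * c z`. Put `B = β ^ k`, `L z = k log (c z) + l z`: `(x z).1 = B z * exp (L z)`, `‖exp (a L z)‖ ≤ κ`.
`mul_le` at `z = b`, then `psh` for the disc `z ↦ (B z * exp (a L z), (x z).2)`, `z ↦ (a exp ((a-1) L z) (v z).1, (v z).2)` (holomorphic on a neighbourhood of the
closed disc, in `U`, second component `≠ 0`), then `mul_eq` on the circle.

`pull_sub`: by cases: `a = 1` (`sub_one`, `pull_one`, `pt_one`; `v z₀ ≠ 0`), `(x z₀).1 ≠ 0` (`sub_off`), `(x z₀).1 = 0` (`sub_on`), with `pull_zero_iff`.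
-/

set_option autoImplicit false

open Set Filter Topology Metric
open scoped ContDiff

namespace Pool.Agent.Nef6.SM

variable {n : ℕ} {h : E n → E n → ℝ} {U : Set (E n)} {a : ℝ}

private theorem B4_fin (hh : IsMetric h U) {x v X V : ℂ → E n} {b : ℂ} {r : ℝ} (hr : 0 < r)
    (hX : AnalyticOnNhd ℂ X (closedBall b r)) (hV : AnalyticOnNhd ℂ V (closedBall b r))
    (hU : ∀ z ∈ closedBall b r, X z ∈ U ∧ V z ≠ 0)
    (h1 : 0 < pull a h (x b) (v b)) (h2 : pull a h (x b) (v b) ≤ h (X b) (V b))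
    (h3 : ∀ z ∈ sphere b r, pull a h (x z) (v z) = h (X z) (V z)) :
    Real.log (pull a h (x b) (v b)) ≤
      Real.circleAverage (fun z => Real.log (pull a h (x z) (v z))) b r := by
  have h4 := hh.psh X V b r hr hX hV hU
  have h5 : Real.circleAverage (fun z => Real.log (h (X z) (V z))) b r =
      Real.circleAverage (fun z => Real.log (pull a h (x z) (v z))) b r := by
    refine Real.circleAverage_congr_sphere fun z hz => ?_
    rw [abs_of_pos hr] at hz
    rw [h3 z hz]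
  rw [← h5]
  exact (Real.log_le_log h1 h2).trans h4

/-- the circle average of a continuous function is continuous in the radius, from below -/
private theorem B4_lim {f : ℂ → ℝ} {b : ℂ} {r m : ℝ} (hr : 0 < r)
    (hf : ContinuousOn f (closedBall b r))
    (hm : ∀ s, 0 < s → s < r → m ≤ Real.circleAverage f b s) :
    m ≤ Real.circleAverage f b r := by
  obtain ⟨C, hC⟩ := (isCompact_closedBall b r).exists_bound_of_continuousOn hf
  have hmem : ∀ s, 0 < s → s ≤ r → ∀ θ, circleMap b s θ ∈ closedBall b r := fun s hs hsr θ =>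
    closedBall_subset_closedBall hsr (circleMap_mem_closedBall b hs.le θ)
  have h1 : Tendsto (fun s => Real.circleAverage f b s) (𝓝[Ioo 0 r] r)
      (𝓝 (Real.circleAverage f b r)) := by
    simp only [Real.circleAverage_def]
    refine Tendsto.const_smul ?_ _
    refine intervalIntegral.tendsto_integral_filter_of_dominated_convergence (fun _ => C)
      ?_ ?_ ?_ ?_
    · filter_upwards [self_mem_nhdsWithin] with s hs
      have h2 : Continuous fun θ => f (circleMap b s θ) :=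
        hf.comp_continuous (continuous_circleMap b s) (hmem s hs.1 hs.2.le)
      exact h2.aestronglyMeasurable
    · filter_upwards [self_mem_nhdsWithin] with s hs
      exact Filter.Eventually.of_forall fun θ _ => hC _ (hmem s hs.1 hs.2.le θ)
    · exact intervalIntegrable_const
    · refine Filter.Eventually.of_forall fun θ _ => ?_
      have h2 : ContinuousWithinAt f (closedBall b r) (circleMap b r θ) :=
        hf _ (hmem r hr le_rfl θ)
      have h3 : Tendsto (fun s : ℝ => circleMap b s θ) (𝓝[Ioo 0 r] r)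
          (𝓝[closedBall b r] (circleMap b r θ)) := by
        refine tendsto_nhdsWithin_iff.mpr ⟨?_, ?_⟩
        · have h4 : Continuous fun s : ℝ => circleMap b s θ := by
            unfold circleMap
            fun_prop
          exact h4.continuousAt.tendsto.mono_left nhdsWithin_le_nhds
        · filter_upwards [self_mem_nhdsWithin] with s hs
          exact hmem s hs.1 hs.2.le θ
      exact h2.tendsto.comp h3
  have h5 : (𝓝[Ioo 0 r] r).NeBot := by
    rw [nhdsWithin_Ioo_eq_nhdsLT hr]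
    infer_instance
  refine ge_of_tendsto h1 ?_
  filter_upwards [self_mem_nhdsWithin] with s hs
  exact hm s hs.1 hs.2

private theorem B4_data {f : ℂ → ℂ} {z₀ : ℂ} (hf : AnalyticAt ℂ f z₀) (h0 : f z₀ = 0)
    (hne : ¬ ∀ᶠ z in 𝓝 z₀, f z = 0) :
    ∃ k : ℕ, 0 < k ∧ ∃ l : ℂ → ℂ, AnalyticAt ℂ l z₀ ∧
      ∀ᶠ z in 𝓝 z₀, f z = (z - z₀) ^ k * Complex.exp (l z) := by
  obtain ⟨k, e, he, he0, hfe⟩ := hf.exists_eventuallyEq_pow_smul_nonzero_iff.mpr hne
  refine ⟨k, ?_, fun z => Complex.log (e z / e z₀) + Complex.log (e z₀), ?_, ?_⟩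
  · rcases Nat.eq_zero_or_pos k with hk | hk
    · exfalso
      have h1 := hfe.self_of_nhds
      rw [h0, hk, pow_zero, one_smul] at h1
      exact he0 h1.symm
    · exact hk
  · refine AnalyticAt.add (AnalyticAt.clog (he.div analyticAt_const he0) ?_) analyticAt_const
    rw [div_self he0]
    exact Complex.one_mem_slitPlane
  · filter_upwards [hfe, he.continuousAt.eventually_ne he0] with z hz hz0
    rw [hz, smul_eq_mul, Complex.exp_add, Complex.exp_log he0,
      Complex.exp_log (div_ne_zero hz0 he0), div_mul_cancel₀ _ he0]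

private theorem B4_an {x v : ℂ → E n} {B L : ℂ → ℂ} {z : ℂ} (hx : AnalyticAt ℂ x z)
    (hv : AnalyticAt ℂ v z) (hB : AnalyticAt ℂ B z) (hL : AnalyticAt ℂ L z) :
    AnalyticAt ℂ (fun z => ((B z * Complex.exp (a * L z), (x z).2) : E n)) z ∧
    AnalyticAt ℂ (fun z => ((a * Complex.exp ((a - 1) * L z) * (v z).1, (v z).2) : E n)) z := by
  have hx2 : AnalyticAt ℂ (fun z => (x z).2) z := analyticAt_snd.comp hx
  have hv1 : AnalyticAt ℂ (fun z => (v z).1) z := analyticAt_fst.comp hv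
  have hv2 : AnalyticAt ℂ (fun z => (v z).2) z := analyticAt_snd.comp hv
  have h1 : ∀ c : ℂ, AnalyticAt ℂ (fun z => Complex.exp (c * L z)) z := fun c =>
    AnalyticAt.cexp' (analyticAt_const.mul hL)
  exact ⟨(hB.mul (h1 a)).prod hx2, ((analyticAt_const.mul (h1 (a - 1))).mul hv1).prod hv2⟩

/-- no zero in the closed disc -/
private theorem B4_small (hh : IsMetric h U) (hr : RotInv h U) {x v : ℂ → E n} {z₀ b : ℂ} {k : ℕ}
    {l : ℂ → ℂ} {r : ℝ} (h0r : 0 < r) (hrq : r < ‖b - z₀‖)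
    (hloc : ∀ z ∈ closedBall b r, AnalyticAt ℂ x z ∧ AnalyticAt ℂ v z ∧ AnalyticAt ℂ l z ∧
      (x z).1 = (z - z₀) ^ k * Complex.exp (l z) ∧ (v z).2 ≠ 0 ∧ pt a (x z) ∈ U) :
    Real.log (pull a h (x b) (v b)) ≤
      Real.circleAverage (fun z => Real.log (pull a h (x z) (v z))) b r := by
  have hp : 0 < ‖b - z₀‖ := h0r.trans hrq
  have hp0 : b - z₀ ≠ 0 := norm_pos_iff.mp hp
  set L : ℂ → ℂ := fun z => k * Complex.log ((z - z₀) / (b - z₀)) + k * Complex.log (b - z₀) + l z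
    with hL
  have hre : ∀ z ∈ closedBall b r, 0 < ((z - z₀) / (b - z₀)).re := by
    intro z hz
    have h1 : (z - z₀) / (b - z₀) = 1 + (z - b) / (b - z₀) := by
      field_simp
      ring
    have h2 : ‖(z - b) / (b - z₀)‖ < 1 := by
      rw [norm_div, div_lt_one hp]
      exact (mem_closedBall_iff_norm.mp hz).trans_lt hrq
    have h3 := Complex.abs_re_le_norm ((z - b) / (b - z₀))
    rw [h1, Complex.add_re, Complex.one_re]
    linarith [neg_abs_le ((z - b) / (b - z₀)).re]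
  have hLe : ∀ z ∈ closedBall b r, Complex.exp (L z) = (x z).1 := by
    intro z hz
    have h1 : (z - z₀) / (b - z₀) ≠ 0 := fun h2 => by
      have h3 := hre z hz
      rw [h2, Complex.zero_re] at h3
      exact lt_irrefl _ h3
    rw [(hloc z hz).2.2.2.1, hL]
    simp only
    rw [Complex.exp_add, Complex.exp_add, Complex.exp_nat_mul, Complex.exp_nat_mul,
      Complex.exp_log h1, Complex.exp_log hp0, ← mul_pow, div_mul_cancel₀ _ hp0]
  have hLa : ∀ z ∈ closedBall b r, AnalyticAt ℂ L z := by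
    intro z hz
    have h1 : AnalyticAt ℂ (fun z => (z - z₀) / (b - z₀)) z :=
      (analyticAt_id.sub analyticAt_const).div analyticAt_const hp0
    exact ((analyticAt_const.mul (h1.clog (Or.inl (hre z hz)))).add analyticAt_const).add
      (hloc z hz).2.2.1
  have hxz : ∀ z ∈ closedBall b r, ((Complex.exp (L z), (x z).2) : E n) = x z := fun z hz =>
    Prod.ext (hLe z hz) rfl
  have key : ∀ z ∈ closedBall b r, ((1 * Complex.exp (a * L z), (x z).2) : E n) ∈ U ∧
      pull a h (x z) (v z) = h (1 * Complex.exp (a * L z), (x z).2)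
        (a * Complex.exp ((a - 1) * L z) * (v z).1, (v z).2) := by
    intro z hz
    have h1 : pt a ((Complex.exp (L z), (x z).2) : E n) ∈ U := by
      rw [hxz z hz]
      exact (hloc z hz).2.2.2.2.2
    have h2 := pull_exp hh hr h1 (v z)
    rw [hxz z hz] at h2
    rw [one_mul]
    exact h2
  have hV0 : ∀ z ∈ closedBall b r,
      ((a * Complex.exp ((a - 1) * L z) * (v z).1, (v z).2) : E n) ≠ 0 := fun z hz h1 =>
    (hloc z hz).2.2.2.2.1 (congrArg Prod.snd h1)
  have hb : b ∈ closedBall b r := mem_closedBall_self h0r.le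
  refine B4_fin hh h0r (X := fun z => (1 * Complex.exp (a * L z), (x z).2))
    (V := fun z => (a * Complex.exp ((a - 1) * L z) * (v z).1, (v z).2))
    (fun z hz => (B4_an (hloc z hz).1 (hloc z hz).2.1 analyticAt_const (hLa z hz)).1)
    (fun z hz => (B4_an (hloc z hz).1 (hloc z hz).2.1 (B := fun _ => 1) analyticAt_const
      (hLa z hz)).2)
    (fun z hz => ⟨(key z hz).1, hV0 z hz⟩) ?_ (key b hb).2.le
    (fun z hz => (key z (sphere_subset_closedBall hz)).2)
  rw [(key b hb).2]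
  exact hh.pos _ (key b hb).1 _ (hV0 b hb)

private theorem B4_id (q w : ℂ) (r : ℝ) :
    ‖(r : ℂ) ^ 2 - (starRingEnd ℂ) q * w‖ ^ 2 - r ^ 2 * ‖w - q‖ ^ 2 =
      (r ^ 2 - ‖w‖ ^ 2) * (r ^ 2 - ‖q‖ ^ 2) := by
  have h1 : (r : ℂ) ^ 2 = ((r ^ 2 : ℝ) : ℂ) := by push_cast; ring
  rw [h1]
  simp only [← Complex.normSq_eq_norm_sq, Complex.normSq_apply, Complex.sub_re, Complex.sub_im,
    Complex.mul_re, Complex.mul_im, Complex.conj_re, Complex.conj_im, Complex.ofReal_re,
    Complex.ofReal_im]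
  ring

/-- the zero is in the open disc -/
private theorem B4_large (hh : IsMetric h U) (hr : RotInv h U) (ha : 1 < a) {x v : ℂ → E n}
    {z₀ b : ℂ} {k : ℕ} {l : ℂ → ℂ} {r κ : ℝ} (h0r : 0 < r) (hqr : ‖z₀ - b‖ < r)
    (hloc : ∀ z ∈ closedBall b r, AnalyticAt ℂ x z ∧ AnalyticAt ℂ v z ∧ AnalyticAt ℂ l z ∧
      (x z).1 = (z - z₀) ^ k * Complex.exp (l z) ∧ (v z).2 ≠ 0 ∧ pt a (x z) ∈ U)
    (hκ : ∀ z ∈ closedBall b r, ∀ s : ℝ, 0 < s → s ≤ 2 * r →
      s ^ ((k : ℝ) * a) * ‖Complex.exp (a * l z)‖ ≤ κ)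
    (hu : ∀ z ∈ closedBall b r, ∀ ζ : ℂ, ‖ζ‖ ≤ κ → (ζ, (x z).2) ∈ U) :
    Real.log (pull a h (x b) (v b)) ≤
      Real.circleAverage (fun z => Real.log (pull a h (x z) (v z))) b r := by
  set q : ℂ := z₀ - b with hq
  have hr0 : (r : ℂ) ≠ 0 := Complex.ofReal_ne_zero.mpr h0r.ne'
  set D : ℂ → ℂ := fun z => (r : ℂ) ^ 2 - (starRingEnd ℂ) q * (z - b) with hD
  set c : ℂ → ℂ := fun z => D z / r with hc
  have hqw : ∀ z ∈ closedBall b r, ‖(starRingEnd ℂ) q * (z - b)‖ ≤ ‖q‖ * r := by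
    intro z hz
    rw [norm_mul, RCLike.norm_conj]
    exact mul_le_mul_of_nonneg_left (mem_closedBall_iff_norm.mp hz) (norm_nonneg _)
  have hqr2 : ‖q‖ * r < r ^ 2 := by nlinarith
  have hre : ∀ z ∈ closedBall b r, 0 < (c z).re := by
    intro z hz
    have h1 : (c z).re = (r ^ 2 - ((starRingEnd ℂ) q * (z - b)).re) / r := by
      rw [hc]
      simp only
      rw [Complex.div_ofReal_re, hD]
      simp only [Complex.sub_re]
      congr 2
      rw [← Complex.ofReal_pow, Complex.ofReal_re]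
    rw [h1]
    refine div_pos ?_ h0r
    have h2 := (Complex.abs_re_le_norm ((starRingEnd ℂ) q * (z - b))).trans (hqw z hz)
    linarith [le_abs_self ((starRingEnd ℂ) q * (z - b)).re]
  have hc0 : ∀ z ∈ closedBall b r, c z ≠ 0 := fun z hz h1 => by
    have h2 := hre z hz
    rw [h1, Complex.zero_re] at h2
    exact lt_irrefl _ h2
  have hcn : ∀ z ∈ closedBall b r, ‖c z‖ ≤ 2 * r := by
    intro z hz
    rw [hc]
    simp only
    rw [norm_div, Complex.norm_real, Real.norm_of_nonneg h0r.le, div_le_iff₀ h0r]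
    have h1 : ‖D z‖ ≤ ‖(r : ℂ) ^ 2‖ + ‖(starRingEnd ℂ) q * (z - b)‖ := norm_sub_le _ _
    rw [norm_pow, Complex.norm_real, Real.norm_of_nonneg h0r.le] at h1
    have h2 := hqw z hz
    nlinarith
  have hca : ∀ z, AnalyticAt ℂ c z := fun z =>
    (analyticAt_const.sub (analyticAt_const.mul (analyticAt_id.sub analyticAt_const))).div
      analyticAt_const hr0
  set B : ℂ → ℂ := fun z => ((z - z₀) / c z) ^ k with hB
  set L : ℂ → ℂ := fun z => k * Complex.log (c z) + l z with hL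
  have hBa : ∀ z ∈ closedBall b r, AnalyticAt ℂ B z := fun z hz =>
    ((analyticAt_id.sub analyticAt_const).div (hca z) (hc0 z hz)).pow k
  have hLa : ∀ z ∈ closedBall b r, AnalyticAt ℂ L z := fun z hz =>
    (analyticAt_const.mul ((hca z).clog (Or.inl (hre z hz)))).add (hloc z hz).2.2.1
  have hnid : ∀ z, ‖D z‖ ^ 2 - r ^ 2 * ‖z - z₀‖ ^ 2 =
      (r ^ 2 - ‖z - b‖ ^ 2) * (r ^ 2 - ‖q‖ ^ 2) := by
    intro z
    have h1 := B4_id q (z - b) r
    have h2 : z - b - q = z - z₀ := by rw [hq]; ring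
    rw [h2] at h1
    exact h1
  have hnc : ∀ z, ‖c z‖ = ‖D z‖ / r := fun z => by
    rw [hc]
    simp only
    rw [norm_div, Complex.norm_real, Real.norm_of_nonneg h0r.le]
  have hβ1 : ∀ z ∈ closedBall b r, ‖z - z₀‖ ≤ ‖c z‖ := by
    intro z hz
    rw [hnc, le_div_iff₀ h0r]
    have h1 := hnid z
    have h2 : ‖z - b‖ ≤ r := mem_closedBall_iff_norm.mp hz
    have h3 : 0 ≤ (r ^ 2 - ‖z - b‖ ^ 2) * (r ^ 2 - ‖q‖ ^ 2) :=
      mul_nonneg (by nlinarith [norm_nonneg (z - b)]) (by nlinarith [norm_nonneg q])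
    refine le_of_sq_le_sq ?_ (norm_nonneg _)
    rw [mul_pow]
    linarith
  have hβ2 : ∀ z ∈ sphere b r, ‖z - z₀‖ = ‖c z‖ := by
    intro z hz
    rw [hnc, eq_div_iff h0r.ne']
    have h1 := hnid z
    have h2 : ‖z - b‖ = r := mem_sphere_iff_norm.mp hz
    rw [h2, sub_self, zero_mul] at h1
    have h3 : (‖z - z₀‖ * r) ^ 2 = ‖D z‖ ^ 2 := by
      rw [mul_pow]
      linarith
    exact (sq_eq_sq₀ (mul_nonneg (norm_nonneg _) h0r.le) (norm_nonneg _)).mp h3
  have hB1 : ∀ z ∈ closedBall b r, ‖B z‖ ≤ 1 := by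
    intro z hz
    rw [hB]
    simp only
    rw [norm_pow, norm_div]
    exact pow_le_one₀ (by positivity) (div_le_one_of_le₀ (hβ1 z hz) (norm_nonneg _))
  have hB2 : ∀ z ∈ sphere b r, ‖B z‖ = 1 := by
    intro z hz
    have h1 : ‖c z‖ ≠ 0 := norm_ne_zero_iff.mpr (hc0 z (sphere_subset_closedBall hz))
    rw [hB]
    simp only
    rw [norm_pow, norm_div, hβ2 z hz, div_self h1, one_pow]
  have hxz : ∀ z ∈ closedBall b r, ((B z * Complex.exp (L z), (x z).2) : E n) = x z := by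
    intro z hz
    refine Prod.ext ?_ rfl
    have h1 := hc0 z hz
    change B z * Complex.exp (L z) = (x z).1
    rw [(hloc z hz).2.2.2.1, hB, hL]
    simp only
    rw [Complex.exp_add, Complex.exp_nat_mul, Complex.exp_log h1, ← mul_assoc, ← mul_pow,
      div_mul_cancel₀ _ h1]
  have hLn : ∀ z ∈ closedBall b r, ‖Complex.exp (a * L z)‖ ≤ κ := by
    intro z hz
    have hcp : 0 < ‖c z‖ := norm_pos_iff.mpr (hc0 z hz)
    refine le_trans (le_of_eq ?_) (hκ z hz ‖c z‖ hcp (hcn z hz))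
    have h1 : (a : ℂ) * L z = (((k : ℝ) * a : ℝ) : ℂ) * Complex.log (c z) + a * l z := by
      rw [hL]
      simp only
      push_cast
      ring
    rw [h1, Complex.exp_add, norm_mul]
    congr 1
    rw [Complex.norm_exp, Complex.re_ofReal_mul, Complex.log_re, Real.rpow_def_of_pos hcp, mul_comm]
  have hUz : ∀ z ∈ closedBall b r, ∀ ζ : ℂ, ‖ζ‖ ≤ 1 →
      ((ζ * Complex.exp (a * L z), (x z).2) : E n) ∈ U := by
    intro z hz ζ hζ
    refine hu z hz _ ?_
    rw [norm_mul]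
    exact (mul_le_of_le_one_left (norm_nonneg _) hζ).trans (hLn z hz)
  have hV0 : ∀ z ∈ closedBall b r,
      ((a * Complex.exp ((a - 1) * L z) * (v z).1, (v z).2) : E n) ≠ 0 := fun z hz h1 =>
    (hloc z hz).2.2.2.2.1 (congrArg Prod.snd h1)
  have hb : b ∈ closedBall b r := mem_closedBall_self h0r.le
  refine B4_fin hh h0r (X := fun z => (B z * Complex.exp (a * L z), (x z).2))
    (V := fun z => (a * Complex.exp ((a - 1) * L z) * (v z).1, (v z).2))
    (fun z hz => (B4_an (hloc z hz).1 (hloc z hz).2.1 (hBa z hz) (hLa z hz)).1)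
    (fun z hz => (B4_an (hloc z hz).1 (hloc z hz).2.1 (hBa z hz) (hLa z hz)).2)
    (fun z hz => ⟨hUz z hz _ (hB1 z hz), hV0 z hz⟩) ?_ ?_ ?_
  · have hpt := (hloc b hb).2.2.2.2.2
    refine lt_of_le_of_ne (pull_nonneg hh hpt _) fun h1 => ?_
    rcases (pull_zero_iff hh (Or.inr ⟨ha, hr⟩) hpt (v b)).mp h1.symm with h2 | h2
    · exact (hloc b hb).2.2.2.2.1 (congrArg Prod.snd h2)
    · exact (hloc b hb).2.2.2.2.1 h2.2.2
  · have h1 := mul_le hh hr ha (B := B b) (L := L b) (v₁ := (v b).1) (y := (x b).2)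
      (w := (v b).2) (hloc b hb).2.2.2.2.1 (hB1 b hb) (hUz b hb)
    rw [hxz b hb] at h1
    exact h1
  · intro z hz
    have hz' := sphere_subset_closedBall hz
    have h1 := mul_eq hh hr ha (B := B z) (L := L z) (v₁ := (v z).1) (y := (x z).2)
      (w := (v z).2) (hB2 z hz) (by
        have h2 := hUz z hz' 1 (by rw [norm_one])
        rwa [one_mul] at h2)
    rw [hxz z hz'] at h1
    exact h1

theorem sub_on (hh : IsMetric h U) (hr : RotInv h U) (ha : 1 < a) {x v : ℂ → E n} {z₀ : ℂ}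
    (hx : AnalyticAt ℂ x z₀) (hv : AnalyticAt ℂ v z₀) (hU : pt a (x z₀) ∈ U)
    (h1 : (x z₀).1 = 0) (h0 : (v z₀).2 ≠ 0) :
    ∃ ρ > 0, ∀ b ∈ ball z₀ ρ, ∀ r, 0 < r → r < ρ →
      Real.log (pull a h (x b) (v b)) ≤
        Real.circleAverage (fun z => Real.log (pull a h (x z) (v z))) b r := by
  classical
  have hU' : x z₀ ∈ U := by rwa [pt_zero ha h1] at hU
  by_cases hne : ∀ᶠ z in 𝓝 z₀, (x z).1 = 0
  · have hv' : AnalyticAt ℂ (fun z => ((0, (v z).2) : E n)) z₀ :=
      analyticAt_const.prod (analyticAt_snd.comp hv)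
    obtain ⟨ρ₁, hρ₁, hsub⟩ := sub_one hh hx hv' hU' (fun h2 => h0 (congrArg Prod.snd h2))
    obtain ⟨ρ₂, hρ₂, hz⟩ := Metric.eventually_nhds_iff_ball.mp hne
    refine ⟨min ρ₁ (ρ₂ / 2), lt_min hρ₁ (half_pos hρ₂), fun b hb r h0r hrρ => ?_⟩
    have hb1 : b ∈ ball z₀ ρ₁ := ball_subset_ball (min_le_left _ _) hb
    have hb2 : dist b z₀ < ρ₂ / 2 := lt_of_lt_of_le hb (min_le_right _ _)
    have hr2 : r < ρ₂ / 2 := lt_of_lt_of_le hrρ (min_le_right _ _)
    have hcb : ∀ z ∈ closedBall b r, z ∈ ball z₀ ρ₂ := fun z hz => by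
      have h3 := dist_triangle z b z₀
      have h4 : dist z b ≤ r := hz
      rw [mem_ball]
      linarith
    have h3 := hsub b hb1 r h0r (lt_of_lt_of_le hrρ (min_le_left _ _))
    have h4 : Real.circleAverage (fun z => Real.log (h (x z) (0, (v z).2))) b r =
        Real.circleAverage (fun z => Real.log (pull a h (x z) (v z))) b r := by
      refine Real.circleAverage_congr_sphere fun z hz' => ?_
      rw [abs_of_pos h0r] at hz'
      rw [pull_zero ha (hz z (hcb z (sphere_subset_closedBall hz')))]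
    rw [← h4, pull_zero ha (hz b (hcb b (mem_closedBall_self h0r.le)))]
    exact h3
  · obtain ⟨k, hk, l, hl, hkl⟩ := B4_data (analyticAt_fst.comp hx) h1 hne
    obtain ⟨ε, hε, hεU⟩ := Metric.isOpen_iff.mp hh.op _ hU'
    have hx2 : ContinuousAt (fun z => (x z).2) z₀ := continuousAt_snd.comp hx.continuousAt
    have hv2 : ContinuousAt (fun z => (v z).2) z₀ := continuousAt_snd.comp hv.continuousAt
    have hE1 : ∀ᶠ z in 𝓝 z₀, dist (x z).2 (x z₀).2 < ε :=
      hx2.eventually (Metric.ball_mem_nhds _ hε)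
    have hE2 : ∀ᶠ z in 𝓝 z₀, pt a (x z) ∈ U :=
      hx.continuousAt.eventually ((pull_open hh ha.le).mem_nhds hU)
    have hE : ∀ᶠ z in 𝓝 z₀, AnalyticAt ℂ x z ∧ AnalyticAt ℂ v z ∧ AnalyticAt ℂ l z ∧
        (x z).1 = (z - z₀) ^ k * Complex.exp (l z) ∧ (v z).2 ≠ 0 ∧ pt a (x z) ∈ U ∧
        dist (x z).2 (x z₀).2 < ε := by
      filter_upwards [hx.eventually_analyticAt, hv.eventually_analyticAt, hl.eventually_analyticAt,
        hkl, hv2.eventually_ne h0, hE2, hE1] with z g1 g2 g3 g4 g5 g6 g7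
      exact ⟨g1, g2, g3, g4, g5, g6, g7⟩
    obtain ⟨ρ₁, hρ₁, hloc⟩ := Metric.eventually_nhds_iff_ball.mp hE
    have hka : 0 < (k : ℝ) * a := mul_pos (Nat.cast_pos.mpr hk) (by linarith)
    have hS : ContinuousAt (fun q : ℂ × ℝ => q.2 ^ ((k : ℝ) * a) * ‖Complex.exp (a * l q.1)‖)
        (z₀, 0) := by
      refine ContinuousAt.mul (continuousAt_snd.rpow_const (Or.inr hka.le)) ?_
      have h2 : ContinuousAt (fun q : ℂ × ℝ => l q.1) (z₀, 0) :=
        ContinuousAt.comp (f := Prod.fst) (g := l) hl.continuousAt continuousAt_fst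
      exact (Complex.continuous_exp.continuousAt.comp (continuousAt_const.mul h2)).norm
    have hS0 : ∀ᶠ q : ℂ × ℝ in 𝓝 (z₀, 0),
        q.2 ^ ((k : ℝ) * a) * ‖Complex.exp (a * l q.1)‖ < ε / 2 := by
      refine hS.eventually (gt_mem_nhds ?_)
      simp only
      rw [Real.zero_rpow hka.ne', zero_mul]
      exact half_pos hε
    obtain ⟨ρ₂, hρ₂, hS1⟩ := Metric.eventually_nhds_iff_ball.mp hS0
    have hm : 0 < min ρ₁ ρ₂ := lt_min hρ₁ hρ₂
    refine ⟨min ρ₁ ρ₂ / 4, by positivity, fun b hb r h0r hrρ => ?_⟩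
    have hm1 : min ρ₁ ρ₂ ≤ ρ₁ := min_le_left _ _
    have hm2 : min ρ₁ ρ₂ ≤ ρ₂ := min_le_right _ _
    have hb' : dist b z₀ < min ρ₁ ρ₂ / 4 := hb
    have hcb : ∀ z ∈ closedBall b r, dist z z₀ < min ρ₁ ρ₂ / 2 := fun z hz => by
      have h3 := dist_triangle z b z₀
      have h4 : dist z b ≤ r := hz
      linarith
    have hloc1 : ∀ z ∈ closedBall b r, AnalyticAt ℂ x z ∧ AnalyticAt ℂ v z ∧ AnalyticAt ℂ l z ∧
        (x z).1 = (z - z₀) ^ k * Complex.exp (l z) ∧ (v z).2 ≠ 0 ∧ pt a (x z) ∈ U := by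
      intro z hz
      have h2 := hcb z hz
      obtain ⟨g1, g2, g3, g4, g5, g6, _⟩ := hloc z (by rw [mem_ball]; linarith)
      exact ⟨g1, g2, g3, g4, g5, g6⟩
    rcases lt_trichotomy r ‖b - z₀‖ with h2 | h2 | h2
    · exact B4_small hh hr h0r h2 hloc1
    · refine B4_lim h0r ?_ fun s hs hsr => ?_
      · have h3 : ContinuousOn (fun z => (x z, v z)) (closedBall b r) := fun z hz =>
          ((hloc1 z hz).1.continuousAt.prodMk (hloc1 z hz).2.1.continuousAt).continuousWithinAt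
        have h6 : ContinuousOn (fun z => pull a h (x z) (v z)) (closedBall b r) :=
          ContinuousOn.comp (g := fun q : E n × E n => pull a h q.1 q.2)
            (f := fun z => (x z, v z)) (t := {x | pt a x ∈ U} ×ˢ univ) (pull_cont hh ha.le) h3
            fun z hz => ⟨(hloc1 z hz).2.2.2.2.2, mem_univ _⟩
        refine h6.log fun z hz h4 => ?_
        rcases (pull_zero_iff hh (Or.inr ⟨ha, hr⟩) (hloc1 z hz).2.2.2.2.2 (v z)).mp h4 with h5 | h5
        · exact (hloc1 z hz).2.2.2.2.1 (congrArg Prod.snd h5)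
        · exact (hloc1 z hz).2.2.2.2.1 h5.2.2
      · exact B4_small hh hr hs (hsr.trans_eq h2)
          fun z hz => hloc1 z (closedBall_subset_closedBall hsr.le hz)
    · rw [norm_sub_rev] at h2
      refine B4_large hh hr ha h0r h2 hloc1 (κ := ε / 2) (fun z hz s hs hsr => ?_)
        fun z hz ζ hζ => ?_
      · refine (hS1 (z, s) ?_).le
        rw [mem_ball, Prod.dist_eq, max_lt_iff]
        refine ⟨lt_of_lt_of_le (hcb z hz) (by linarith), ?_⟩
        change dist s 0 < ρ₂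
        rw [Real.dist_eq, sub_zero, abs_of_pos hs]
        linarith
      · refine hεU ?_
        rw [mem_ball, Prod.dist_eq, max_lt_iff]
        have h3 := hcb z hz
        refine ⟨?_, (hloc z (by rw [mem_ball]; linarith)).2.2.2.2.2.2⟩
        change dist ζ (x z₀).1 < ε
        rw [h1, dist_zero_right]
        linarith

theorem pull_sub (hh : IsMetric h U) (ha : a = 1 ∨ 1 < a ∧ RotInv h U) {x v : ℂ → E n} {z₀ : ℂ}
    (hx : AnalyticAt ℂ x z₀) (hv : AnalyticAt ℂ v z₀) (hU : pt a (x z₀) ∈ U)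
    (h0 : pull a h (x z₀) (v z₀) ≠ 0) :
    ∃ ρ > 0, ∀ b ∈ ball z₀ ρ, ∀ r, 0 < r → r < ρ →
      Real.log (pull a h (x b) (v b)) ≤
        Real.circleAverage (fun z => Real.log (pull a h (x z) (v z))) b r := by
  rcases ha with ha | ⟨ha, hr⟩
  · subst ha
    rw [pt_one] at hU
    rw [pull_one] at h0
    simp only [pull_one]
    refine sub_one hh hx hv hU fun h1 => h0 ?_
    rw [h1]
    exact hh.zero hU
  · have h2 : ¬ (v z₀ = 0 ∨ (1 < a ∧ (x z₀).1 = 0 ∧ (v z₀).2 = 0)) := fun h3 =>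
      h0 ((pull_zero_iff hh (Or.inr ⟨ha, hr⟩) hU (v z₀)).mpr h3)
    by_cases h1 : (x z₀).1 = 0
    · exact sub_on hh hr ha hx hv hU h1 fun h3 => h2 (Or.inr ⟨ha, h1, h3⟩)
    · exact sub_off hh hr ha hx hv hU h1 fun h3 => h2 (Or.inl h3)

end Pool.Agent.Nef6.SM
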