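import Pool.Agent.H.MP_6a1d6a_ag.SM.B1

/-!
MP_6a1d6a_ag/SM, module B5: the metric near the divisor along discs which are tangent to its kernel.

`disc_exact`: `pull a h (s v₁, y) (v₁, 0) = h (pt a (s v₁, y)) (a ‖s v₁‖ ^ (a-1) v₁, 0)`, and by `smul` this is
`a ‖s‖ ^ (a-1) ‖v₁‖ ^ a h (pt ..) (1, 0)`; continuity of `h` at `((0, y), (1, 0))`.

`disc_lower`: with `F = (F₁, F₂)`, for `s ≠ 0` near `0`: `pull a h (F s) (F' s) = ‖s‖ ^ (a-1) h (pt a (F s)) (A s, (‖s‖ ^ (a-1))⁻¹ • F₂' s)`,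
`A s = a (‖F₁ s‖ / ‖s‖) ^ (a-1) F₁' s → a ‖b‖ ^ (a-1) b`. Two facts about the norms `h x`:
(1) for each `ε > 0`, for `x` near `x₀ = (0, y)`: `(1 - ε) h x₀ w ≤ h x w` for all `w` (homogeneity and compactness of the unit sphere: `h` is
continuous, `h x₀` has a positive minimum on the sphere; uniform continuity on a compact neighbourhood of `x₀` times the sphere);
(2) `h x₀ (A, 0) ≤ h x₀ (A, B)`: `2 (A, 0) = (A, B) + (A, -B)`, `h x₀ (A, -B) = h x₀ (-A, B) = h x₀ (A, B)` (`smul` with `-1`; `RotInv` with `e = -1`, `x₀.1 = 0`).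
So `pull a h (F s) (F' s) ≥ (1 - ε) ‖s‖ ^ (a-1) ‖A s‖ h x₀ (1, 0)`.

`disc_upper` (`a ≤ 2`): `‖F₁ s‖ ≤ C ‖s‖`, `‖F₁' s‖ ≤ C`, `‖F₂' s‖ ≤ C ‖s‖ ≤ C ‖s‖ ^ (a-1)` (`‖s‖ ≤ 1`): the vector `vec a (F s) (F' s)` has norm `≤ C' ‖s‖ ^ (a-1)`, and
`h x w ≤ C'' ‖w‖` for `x` near `x₀` and all `w` (homogeneity, compactness). For `s = 0` both sides are `0` (`a > 1`).
-/

set_option autoImplicit false

open Set Filter Topology Metric
open scoped ContDiff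

namespace Pool.Agent.Nef6.SM

variable {n : ℕ} {h : E n → E n → ℝ} {U : Set (E n)} {a : ℝ}

/-- joint continuity in a point of `U` -/
private theorem B5_contAt (hh : IsMetric h U) {x : E n} (hx : x ∈ U) (w : E n) :
    ContinuousAt (fun q : E n × E n => h q.1 q.2) (x, w) :=
  hh.cont.continuousAt ((hh.op.prod isOpen_univ).mem_nhds ⟨hx, mem_univ w⟩)

/-- homogeneity, real factor -/
private theorem B5_hom (hh : IsMetric h U) {x : E n} (hx : x ∈ U) {w : E n} (hw : w ≠ 0) :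
    h x w = ‖w‖ * h x (((‖w‖⁻¹ : ℝ) : ℂ) • w) := by
  have h1 : ‖w‖ ≠ 0 := norm_ne_zero_iff.mpr hw
  rw [hh.smul x hx]
  rw [Complex.norm_real, norm_inv, norm_norm, ← mul_assoc, mul_inv_cancel₀ h1, one_mul]

private theorem B5_unit {w : E n} (hw : w ≠ 0) : ((‖w‖⁻¹ : ℝ) : ℂ) • w ∈ sphere (0 : E n) 1 := by
  have h1 : ‖w‖ ≠ 0 := norm_ne_zero_iff.mpr hw
  rw [mem_sphere_zero_iff_norm, norm_smul, Complex.norm_real, norm_inv, norm_norm,
    inv_mul_cancel₀ h1]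

/-- the norms `h x` near `x₀` are almost as large as `h x₀` -/
private theorem B5_low (hh : IsMetric h U) {x₀ : E n} (hx₀ : x₀ ∈ U) {ε : ℝ} (hε : 0 < ε) :
    ∀ᶠ x in 𝓝 x₀, ∀ w, (1 - ε) * h x₀ w ≤ h x w := by
  have key : ∀ᶠ x in 𝓝 x₀, ∀ w ∈ sphere (0 : E n) 1, (1 - ε) * h x₀ w < h x w := by
    refine (isCompact_sphere (0 : E n) 1).eventually_forall_of_forall_eventually ?_
    intro w hw
    have hw0 : w ≠ 0 := by
      rintro rfl
      simp at hw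
    have h1 : ContinuousAt (fun q : E n × E n => h q.1 q.2) (x₀, w) := B5_contAt hh hx₀ w
    have h2 : ContinuousAt (fun q : E n × E n => (1 - ε) * h x₀ q.2) (x₀, w) := by
      have h3 : ContinuousAt (fun q : E n × E n => (x₀, q.2)) (x₀, w) := by fun_prop
      have h4 : ContinuousAt (fun q : E n × E n => h x₀ q.2) (x₀, w) :=
        ContinuousAt.comp (g := fun q : E n × E n => h q.1 q.2)
          (f := fun q : E n × E n => (x₀, q.2)) (x := (x₀, w)) (B5_contAt hh hx₀ w) h3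
      exact h4.const_mul _
    refine h2.eventually_lt h1 ?_
    show (1 - ε) * h x₀ w < h x₀ w
    have := hh.pos x₀ hx₀ w hw0
    nlinarith
  filter_upwards [key, hh.op.mem_nhds hx₀] with x hx hxU w
  by_cases hw : w = 0
  · rw [hw, hh.zero hx₀, hh.zero hxU, mul_zero]
  · have h1 := (hx _ (B5_unit hw)).le
    rw [B5_hom hh hx₀ hw, B5_hom hh hxU hw]
    have h2 := mul_le_mul_of_nonneg_left h1 (norm_nonneg w)
    linarith

/-- the norms `h x` near `x₀` are uniformly bounded -/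
private theorem B5_upp (hh : IsMetric h U) {x₀ : E n} (hx₀ : x₀ ∈ U) :
    ∃ C : ℝ, 0 ≤ C ∧ ∀ᶠ x in 𝓝 x₀, ∀ w, h x w ≤ C * ‖w‖ := by
  have hc : ContinuousOn (fun w : E n => h x₀ w) (sphere (0 : E n) 1) := by
    intro w _
    have h3 : ContinuousAt (fun v : E n => (x₀, v)) w := by fun_prop
    exact (ContinuousAt.comp (g := fun q : E n × E n => h q.1 q.2)
      (f := fun v : E n => (x₀, v)) (x := w) (B5_contAt hh hx₀ w) h3).continuousWithinAt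
  obtain ⟨M, hM⟩ := (isCompact_sphere (0 : E n) 1).exists_bound_of_continuousOn hc
  have key : ∀ᶠ x in 𝓝 x₀, ∀ w ∈ sphere (0 : E n) 1, h x w < |M| + 1 := by
    refine (isCompact_sphere (0 : E n) 1).eventually_forall_of_forall_eventually ?_
    intro w hw
    refine (B5_contAt hh hx₀ w).eventually_lt continuousAt_const ?_
    show h x₀ w < |M| + 1
    have h1 := hM w hw
    have h2 := le_abs_self (h x₀ w)
    have h3 := le_abs_self M
    rw [Real.norm_eq_abs] at h1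
    linarith
  refine ⟨|M| + 1, by positivity, ?_⟩
  filter_upwards [key, hh.op.mem_nhds hx₀] with x hx hxU w
  by_cases hw : w = 0
  · rw [hw, hh.zero hxU, norm_zero, mul_zero]
  · have h1 := (hx _ (B5_unit hw)).le
    rw [B5_hom hh hxU hw]
    have h2 := mul_le_mul_of_nonneg_left h1 (norm_nonneg w)
    linarith

/-- the first component -/
private theorem B5_fst (hh : IsMetric h U) (hr : RotInv h U) {x₀ : E n} (hx₀ : x₀ ∈ U)
    (h0 : x₀.1 = 0) (w : E n) : ‖w.1‖ * h x₀ (1, 0) ≤ h x₀ w := by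
  have h1 : h x₀ (w.1, -w.2) = h x₀ w := by
    have h2 := (hr (-1) (by simp) x₀ hx₀).2 w
    rw [h0] at h2
    have h3 : ((-1 : ℂ) * 0, x₀.2) = x₀ := by
      rw [mul_zero, ← h0]
    rw [h3] at h2
    have h4 := hh.smul x₀ hx₀ (-1) (w.1, -w.2)
    rw [norm_neg, norm_one, one_mul] at h4
    rw [← h4, ← h2]
    congr 1
    ext i
    · simp
    · simp
  have h2 := hh.add x₀ hx₀ w (w.1, -w.2)
  have h3 : w + (w.1, -w.2) = (2 * w.1) • ((1 : ℂ), (0 : EuclideanSpace ℂ (Fin n))) := by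
    ext i
    · simp
      ring
    · simp
  rw [h3, hh.smul x₀ hx₀, h1, norm_mul] at h2
  have h4 : ‖(2 : ℂ)‖ = 2 := by simp
  rw [h4] at h2
  linarith

theorem disc_exact (hh : IsMetric h U) (ha : 1 < a) {y : EuclideanSpace ℂ (Fin n)}
    (hU : ((0 : ℂ), y) ∈ U) (v₁ : ℂ) :
    Tendsto (fun s : ℂ => pull a h (s * v₁, y) (v₁, 0) / ‖s‖ ^ (a - 1)) (𝓝[≠] 0)
      (𝓝 (a * h (0, y) (1, 0) * ‖v₁‖ ^ a)) := by
  have ha0 : 0 < a - 1 := by linarith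
  have hpt : Tendsto (fun s : ℂ => (pt a (s * v₁, y) : E n)) (𝓝 0) (𝓝 ((0 : ℂ), y)) := by
    have h1 : Continuous (fun s : ℂ => (pt a (s * v₁, y) : E n)) :=
      (pt_cont ha.le).comp (by fun_prop)
    have h2 := h1.tendsto 0
    rw [zero_mul, pt_zero ha rfl] at h2
    exact h2
  have hlim : Tendsto (fun s : ℂ => a * h (pt a (s * v₁, y)) (1, 0) * ‖v₁‖ ^ a) (𝓝[≠] 0)
      (𝓝 (a * h (0, y) (1, 0) * ‖v₁‖ ^ a)) := by
    have h1 : Tendsto (fun s : ℂ => ((pt a (s * v₁, y) : E n), ((1 : ℂ), (0 : EuclideanSpace ℂ (Fin n)))))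
        (𝓝 0) (𝓝 (((0 : ℂ), y), ((1 : ℂ), (0 : EuclideanSpace ℂ (Fin n))))) :=
      hpt.prodMk_nhds tendsto_const_nhds
    have h2 := (B5_contAt hh hU (1, 0)).tendsto.comp h1
    exact ((h2.const_mul a).mul_const _).mono_left nhdsWithin_le_nhds
  refine hlim.congr' ?_
  have hev : ∀ᶠ s : ℂ in 𝓝[≠] 0, (pt a (s * v₁, y) : E n) ∈ U :=
    (hpt.eventually (hh.op.mem_nhds hU)).filter_mono nhdsWithin_le_nhds
  filter_upwards [hev, self_mem_nhdsWithin] with s hs hs0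
  have hs1 : 0 < ‖s‖ := norm_pos_iff.mpr hs0
  have h1 : pull a h (s * v₁, y) (v₁, 0) =
      h (pt a (s * v₁, y)) ((((a * ‖s * v₁‖ ^ (a - 1) : ℝ) : ℂ) * v₁) •
        ((1 : ℂ), (0 : EuclideanSpace ℂ (Fin n)))) := by
    unfold pull vec
    congr 1
    ext i
    · simp
    · simp
  have h2 : ‖v₁‖ ^ a = ‖v₁‖ ^ (a - 1) * ‖v₁‖ := by
    by_cases hv : v₁ = 0
    · rw [hv, norm_zero, mul_zero, Real.zero_rpow (by linarith)]
    · have hv' : 0 < ‖v₁‖ := norm_pos_iff.mpr hv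
      rw [← Real.rpow_add_one hv'.ne', sub_add_cancel]
  rw [h1, hh.smul _ hs, norm_mul, Complex.norm_real, Real.norm_eq_abs,
    abs_of_nonneg (by positivity), norm_mul, Real.mul_rpow (norm_nonneg _) (norm_nonneg _), h2]
  have h3 : ‖s‖ ^ (a - 1) ≠ 0 := (Real.rpow_pos_of_pos hs1 _).ne'
  field_simp

theorem disc_lower (hh : IsMetric h U) (hr : RotInv h U) (ha : 1 < a) {F : ℂ → E n} {b : ℂ}
    (hF : AnalyticAt ℂ F 0) (hU : F 0 ∈ U) (h0 : (F 0).1 = 0) (hb : deriv F 0 = (b, 0)) {κ : ℝ}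
    (hκ : κ < a * h (F 0) (1, 0) * ‖b‖ ^ a) :
    ∀ᶠ s in 𝓝[≠] (0 : ℂ), κ * ‖s‖ ^ (a - 1) ≤ pull a h (F s) (deriv F s) := by
  have ha0 : 0 < a - 1 := by linarith
  -- the factor
  obtain ⟨ε, hε, hε1, hεκ⟩ : ∃ ε : ℝ, 0 < ε ∧ ε < 1 ∧
      κ < (1 - ε) * (a * h (F 0) (1, 0) * ‖b‖ ^ a) := by
    have h1 : Tendsto (fun ε : ℝ => (1 - ε) * (a * h (F 0) (1, 0) * ‖b‖ ^ a)) (𝓝[>] 0)
        (𝓝 ((1 - 0) * (a * h (F 0) (1, 0) * ‖b‖ ^ a))) := by
      have : Continuous (fun ε : ℝ => (1 - ε) * (a * h (F 0) (1, 0) * ‖b‖ ^ a)) := by fun_prop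
      exact (this.tendsto 0).mono_left nhdsWithin_le_nhds
    rw [sub_zero, one_mul] at h1
    have h2 := h1.eventually (lt_mem_nhds hκ)
    have h3 : ∀ᶠ ε : ℝ in 𝓝[>] 0, ε < 1 :=
      (eventually_lt_nhds (zero_lt_one)).filter_mono nhdsWithin_le_nhds
    obtain ⟨ε, h4, h5, h6⟩ := (h2.and (h3.and self_mem_nhdsWithin)).exists
    exact ⟨ε, h6, h5, h4⟩
  have hdF : HasDerivAt F (b, 0) 0 := by
    rw [← hb]
    exact hF.differentiableAt.hasDerivAt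
  have hpt : Tendsto (fun s : ℂ => pt a (F s)) (𝓝 0) (𝓝 (F 0)) := by
    have h1 : ContinuousAt (fun s : ℂ => pt a (F s)) 0 :=
      (pt_cont ha.le).continuousAt.comp hF.continuousAt
    have h2 := h1.tendsto
    rw [pt_zero ha h0] at h2
    exact h2
  have hlow := (hpt.eventually (B5_low hh hU hε)).filter_mono
    (nhdsWithin_le_nhds (s := {(0 : ℂ)}ᶜ))
  -- the asymptotics
  have hq : Tendsto (fun s : ℂ => ‖(F s).1‖ / ‖s‖) (𝓝[≠] 0) (𝓝 ‖b‖) := by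
    have h1 := hdF.tendsto_slope_zero
    have h2 := ((continuous_fst.tendsto _).comp h1).norm
    refine h2.congr ?_
    intro s
    show ‖(s⁻¹ • (F (0 + s) - F 0)).1‖ = _
    rw [zero_add, Prod.smul_fst, Prod.fst_sub, h0, sub_zero, norm_smul, norm_inv]
    ring
  have hd : Tendsto (fun s : ℂ => ‖(deriv F s).1‖) (𝓝[≠] 0) (𝓝 ‖b‖) := by
    have h1 : Tendsto (deriv F) (𝓝 0) (𝓝 (deriv F 0)) := hF.deriv.continuousAt.tendsto
    rw [hb] at h1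
    exact (((continuous_fst.tendsto _).comp h1).norm).mono_left nhdsWithin_le_nhds
  have hlim : Tendsto (fun s : ℂ => (1 - ε) * (a * h (F 0) (1, 0) *
      ((‖(F s).1‖ / ‖s‖) ^ (a - 1) * ‖(deriv F s).1‖))) (𝓝[≠] 0)
      (𝓝 ((1 - ε) * (a * h (F 0) (1, 0) * (‖b‖ ^ (a - 1) * ‖b‖)))) :=
    (((hq.rpow_const (Or.inr ha0.le)).mul hd).const_mul _).const_mul _
  have h2 : ‖b‖ ^ (a - 1) * ‖b‖ = ‖b‖ ^ a := by
    by_cases hv : b = 0
    · rw [hv, norm_zero, mul_zero, Real.zero_rpow (by linarith)]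
    · have hv' : 0 < ‖b‖ := norm_pos_iff.mpr hv
      rw [← Real.rpow_add_one hv'.ne', sub_add_cancel]
  rw [h2] at hlim
  have hev := hlim.eventually (lt_mem_nhds hεκ)
  filter_upwards [hlow, hev, self_mem_nhdsWithin] with s hs1 hs2 hs0
  have hs : 0 < ‖s‖ := norm_pos_iff.mpr hs0
  have h3 := hs1 (vec a (F s) (deriv F s))
  have h4 := B5_fst hh hr hU h0 (vec a (F s) (deriv F s))
  have h5 : ‖(vec a (F s) (deriv F s)).1‖ =
      a * ((‖(F s).1‖ / ‖s‖) ^ (a - 1) * ‖s‖ ^ (a - 1)) * ‖(deriv F s).1‖ := by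
    unfold vec
    show ‖((a * ‖(F s).1‖ ^ (a - 1) : ℝ) : ℂ) * (deriv F s).1‖ = _
    rw [norm_mul, Complex.norm_real, Real.norm_eq_abs, abs_of_nonneg (by positivity),
      ← Real.mul_rpow (by positivity) (by positivity), div_mul_cancel₀ _ hs.ne']
  rw [h5] at h4
  have h6 : 0 < ‖s‖ ^ (a - 1) := Real.rpow_pos_of_pos hs _
  have h7 : 0 < 1 - ε := by linarith
  calc κ * ‖s‖ ^ (a - 1) ≤ ((1 - ε) * (a * h (F 0) (1, 0) *
      ((‖(F s).1‖ / ‖s‖) ^ (a - 1) * ‖(deriv F s).1‖))) * ‖s‖ ^ (a - 1) :=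
        mul_le_mul_of_nonneg_right hs2.le h6.le
    _ = (1 - ε) * (a * ((‖(F s).1‖ / ‖s‖) ^ (a - 1) * ‖s‖ ^ (a - 1)) * ‖(deriv F s).1‖ *
        h (F 0) (1, 0)) := by ring
    _ ≤ (1 - ε) * h (F 0) (vec a (F s) (deriv F s)) := mul_le_mul_of_nonneg_left h4 h7.le
    _ ≤ h (pt a (F s)) (vec a (F s) (deriv F s)) := h3

theorem disc_upper (hh : IsMetric h U) (ha : 1 < a) (ha2 : a ≤ 2) {F : ℂ → E n} {b : ℂ}
    (hF : AnalyticAt ℂ F 0) (hU : F 0 ∈ U) (h0 : (F 0).1 = 0) (hb : deriv F 0 = (b, 0)) :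
    ∃ C : ℝ, ∀ᶠ s in 𝓝 (0 : ℂ), pull a h (F s) (deriv F s) ≤ C * ‖s‖ ^ (a - 1) := by
  have ha0 : 0 < a - 1 := by linarith
  obtain ⟨C, hC, hupp⟩ := B5_upp hh hU
  have hpt : Tendsto (fun s : ℂ => pt a (F s)) (𝓝 0) (𝓝 (F 0)) := by
    have h1 : ContinuousAt (fun s : ℂ => pt a (F s)) 0 :=
      (pt_cont ha.le).continuousAt.comp hF.continuousAt
    have h2 := h1.tendsto
    rw [pt_zero ha h0] at h2
    exact h2
  have hupp' := hpt.eventually hupp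
  obtain ⟨C1, hC1, hb1⟩ := (hF.differentiableAt.isBigO_sub).exists_pos
  obtain ⟨C2, hC2, hb2⟩ := (hF.deriv.differentiableAt.isBigO_sub).exists_pos
  have hd : ∀ᶠ s : ℂ in 𝓝 0, ‖deriv F s‖ < ‖deriv F 0‖ + 1 :=
    (hF.deriv.continuousAt.norm).eventually_lt continuousAt_const (by simp)
  set C3 := ‖deriv F 0‖ + 1 with hC3
  have hC3' : 0 < C3 := by positivity
  refine ⟨C * (a * C1 ^ (a - 1) * C3 + C2), ?_⟩
  have hball : ∀ᶠ s : ℂ in 𝓝 0, ‖s‖ < 1 := by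
    have := Metric.ball_mem_nhds (0 : ℂ) one_pos
    filter_upwards [this] with s hs
    simpa using hs
  filter_upwards [hupp', hb1.bound, hb2.bound, hd, hball] with s h1 h2 h3 h4 h5
  rw [sub_zero] at h2 h3
  have h6 := h1 (vec a (F s) (deriv F s))
  have h7 : ‖(F s).1‖ ≤ C1 * ‖s‖ := by
    have : ‖(F s - F 0).1‖ ≤ ‖F s - F 0‖ := norm_fst_le _
    rw [Prod.fst_sub, h0, sub_zero] at this
    exact this.trans h2
  have h8 : ‖(deriv F s).2‖ ≤ C2 * ‖s‖ := by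
    have : ‖(deriv F s - deriv F 0).2‖ ≤ ‖deriv F s - deriv F 0‖ := norm_snd_le _
    rw [Prod.snd_sub, hb, sub_zero, ← hb] at this
    exact this.trans h3
  have h9 : ‖(deriv F s).1‖ ≤ C3 := (norm_fst_le _).trans h4.le
  have h10 : ‖s‖ ≤ ‖s‖ ^ (a - 1) := by
    by_cases hs : s = 0
    · rw [hs, norm_zero, Real.zero_rpow ha0.ne']
    · have hs' : 0 < ‖s‖ := norm_pos_iff.mpr hs
      have := Real.rpow_le_rpow_of_exponent_ge hs' h5.le (show a - 1 ≤ 1 by linarith)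
      rwa [Real.rpow_one] at this
  have h11 : 0 ≤ ‖s‖ ^ (a - 1) := by positivity
  have h12 : ‖(vec a (F s) (deriv F s)).1‖ ≤ a * C1 ^ (a - 1) * C3 * ‖s‖ ^ (a - 1) := by
    unfold vec
    show ‖((a * ‖(F s).1‖ ^ (a - 1) : ℝ) : ℂ) * (deriv F s).1‖ ≤ _
    rw [norm_mul, Complex.norm_real, Real.norm_eq_abs, abs_of_nonneg (by positivity)]
    have h13 : ‖(F s).1‖ ^ (a - 1) ≤ C1 ^ (a - 1) * ‖s‖ ^ (a - 1) := by
      rw [← Real.mul_rpow hC1.le (norm_nonneg _)]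
      exact Real.rpow_le_rpow (norm_nonneg _) h7 ha0.le
    have h14 : 0 ≤ C1 ^ (a - 1) * ‖s‖ ^ (a - 1) := by positivity
    calc a * ‖(F s).1‖ ^ (a - 1) * ‖(deriv F s).1‖
        ≤ a * (C1 ^ (a - 1) * ‖s‖ ^ (a - 1)) * C3 := by gcongr
      _ = a * C1 ^ (a - 1) * C3 * ‖s‖ ^ (a - 1) := by ring
  have h13 : ‖(vec a (F s) (deriv F s)).2‖ ≤ C2 * ‖s‖ ^ (a - 1) :=
    h8.trans (mul_le_mul_of_nonneg_left h10 hC2.le)
  have h14 : ‖vec a (F s) (deriv F s)‖ ≤ (a * C1 ^ (a - 1) * C3 + C2) * ‖s‖ ^ (a - 1) := by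
    rw [Prod.norm_def]
    have h15 : 0 ≤ a * C1 ^ (a - 1) * C3 * ‖s‖ ^ (a - 1) := by positivity
    have h16 : 0 ≤ C2 * ‖s‖ ^ (a - 1) := by positivity
    refine max_le ?_ ?_
    · linarith
    · linarith
  calc pull a h (F s) (deriv F s) ≤ C * ‖vec a (F s) (deriv F s)‖ := h6
    _ ≤ C * ((a * C1 ^ (a - 1) * C3 + C2) * ‖s‖ ^ (a - 1)) := mul_le_mul_of_nonneg_left h14 hC
    _ = C * (a * C1 ^ (a - 1) * C3 + C2) * ‖s‖ ^ (a - 1) := by ring

end Pool.Agent.Nef6.SM
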