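import Pool.Agent.H.MP_6a1d6a_ag.SM.B3
import Pool.Agent.H.MP_6a1d6a_ag.SM.A4
import Pool.Agent.H.MP_6a1d6a_ag.W

/-!
MP_6a1d6a_ag/SM, module B6: the renormalised metric on the kernel along the divisor.

`x`, `v` analytic at `z₀`, `(x z).1 = 0` near `z₀`, `v z₀ ≠ 0`, `(v z₀).2 = 0`, so `(v z₀).1 ≠ 0`. The function `kn a h x v = (a h x (1,0)) ^ (1/a) ‖v.1‖` at `(x z, v z)` is
continuous and positive near `z₀`, and `log (kn ...) = (1/a) (log a + log (h (x z) (1, 0))) + log ‖(v z).1‖`. Sub-mean value inequality: `sub_one` for the disc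
`x` and the constant vector `(1, 0)`, and `W_jensen` for the analytic function `z ↦ (v z).1` (nonvanishing near `z₀`); linearity of the circle average
(all functions are continuous near `z₀`, `circleAverage_add`, `circleAverage_smul` ...).
-/

set_option autoImplicit false

open Set Filter Topology Metric
open scoped ContDiff

namespace Pool.Agent.Nef6.SM

variable {n : ℕ} {h : E n → E n → ℝ} {U : Set (E n)} {a : ℝ}

/-- the renormalised length of a vector of the kernel at a point of the divisor -/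
noncomputable def kn (a : ℝ) (h : E n → E n → ℝ) (x v : E n) : ℝ :=
  (a * h x (1, 0)) ^ (1 / a) * ‖v.1‖

private theorem B6_ne {n : ℕ} : ((1, 0) : E n) ≠ 0 := by
  intro h
  exact one_ne_zero (congrArg Prod.fst h)

private theorem B6_pos (hh : IsMetric h U) {x : E n} (hx : x ∈ U) : 0 < h x (1, 0) :=
  hh.pos x hx _ B6_ne

theorem kn_nonneg (hh : IsMetric h U) (ha : 1 < a) {x : E n} (hx : x ∈ U) (v : E n) :
    0 ≤ kn a h x v := by
  have h1 := B6_pos hh hx
  unfold kn
  exact mul_nonneg (Real.rpow_nonneg (mul_nonneg (by linarith) h1.le) _) (norm_nonneg _)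

theorem kn_pos (hh : IsMetric h U) (ha : 1 < a) {x : E n} (hx : x ∈ U) {v : E n} (hv : v.1 ≠ 0) :
    0 < kn a h x v := by
  have h1 := B6_pos hh hx
  unfold kn
  exact mul_pos (Real.rpow_pos_of_pos (mul_pos (by linarith) h1) _) (norm_pos_iff.2 hv)

private theorem B6_cont (hh : IsMetric h U) {x : ℂ → E n} {z₀ : ℂ}
    (hx : ContinuousAt x z₀) (hU : x z₀ ∈ U) :
    ContinuousAt (fun z => h (x z) (1, 0)) z₀ := by
  have h1 : ContinuousAt (fun q : E n × E n => h q.1 q.2) (x z₀, (1, 0)) :=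
    hh.cont.continuousAt ((hh.op.prod isOpen_univ).mem_nhds ⟨hU, mem_univ _⟩)
  have h2 : ContinuousAt (fun z => ((x z, (1, 0)) : E n × E n)) z₀ := hx.prodMk continuousAt_const
  exact ContinuousAt.comp (f := fun z => ((x z, (1, 0)) : E n × E n)) h1 h2

theorem kn_cont (hh : IsMetric h U) (ha : 1 < a) {x v : ℂ → E n} {z₀ : ℂ}
    (hx : ContinuousAt x z₀) (hv : ContinuousAt v z₀) (hU : x z₀ ∈ U) :
    ContinuousAt (fun z => kn a h (x z) (v z)) z₀ := by
  have h1 := B6_pos hh hU
  have h2 : ContinuousAt (fun z => a * h (x z) (1, 0)) z₀ :=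
    continuousAt_const.mul (B6_cont hh hx hU)
  have h3 : ContinuousAt (fun z => (a * h (x z) (1, 0)) ^ (1 / a)) z₀ :=
    h2.rpow_const (Or.inl (mul_pos (by linarith) h1).ne')
  have h4 : ContinuousAt (fun z => ‖(v z).1‖) z₀ := (continuous_fst.continuousAt.comp hv).norm
  exact h3.mul h4

theorem kn_sub (hh : IsMetric h U) (ha : 1 < a) {x v : ℂ → E n} {z₀ : ℂ} (hx : AnalyticAt ℂ x z₀)
    (hv : AnalyticAt ℂ v z₀) (hU : x z₀ ∈ U) (h0 : (v z₀).1 ≠ 0) :
    ∃ ρ > 0, ∀ b ∈ ball z₀ ρ, ∀ r, 0 < r → r < ρ →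
      Real.log (kn a h (x b) (v b)) ≤
        Real.circleAverage (fun z => Real.log (kn a h (x z) (v z))) b r := by
  obtain ⟨ρ₁, hρ₁, hsub⟩ := sub_one hh hx (v := fun _ => ((1, 0) : E n)) analyticAt_const hU B6_ne
  have hv1 : AnalyticAt ℂ (fun z => (v z).1) z₀ :=
    AnalyticAt.fun_comp (g := fun p : E n => p.1) (f := v) analyticAt_fst hv
  have hev : ∀ᶠ z in 𝓝 z₀, ContinuousAt x z ∧ x z ∈ U ∧ AnalyticAt ℂ (fun z => (v z).1) z ∧
      (v z).1 ≠ 0 := by
    have e1 : ∀ᶠ z in 𝓝 z₀, ContinuousAt x z :=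
      hx.eventually_analyticAt.mono fun z hz => hz.continuousAt
    have e2 : ∀ᶠ z in 𝓝 z₀, x z ∈ U := hx.continuousAt.eventually (hh.op.mem_nhds hU)
    have e3 : ∀ᶠ z in 𝓝 z₀, (v z).1 ≠ 0 := hv1.continuousAt.eventually_ne h0
    filter_upwards [e1, e2, hv1.eventually_analyticAt, e3] with z k1 k2 k3 k4
    exact ⟨k1, k2, k3, k4⟩
  obtain ⟨δ, hδ, hball⟩ := Metric.eventually_nhds_iff_ball.1 hev
  refine ⟨min ρ₁ (δ / 2), lt_min hρ₁ (half_pos hδ), fun b hb r hr hrρ => ?_⟩
  have hb1 : b ∈ ball z₀ ρ₁ := ball_subset_ball (min_le_left _ _) hb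
  have hr1 : r < ρ₁ := hrρ.trans_le (min_le_left _ _)
  have hcb : ∀ z ∈ closedBall b r, z ∈ ball z₀ δ := by
    intro z hz
    rw [mem_ball] at hb ⊢
    rw [mem_closedBall] at hz
    have k1 := dist_triangle z b z₀
    have k2 : dist b z₀ < δ / 2 := hb.trans_le (min_le_right _ _)
    have k3 : r < δ / 2 := hrρ.trans_le (min_le_right _ _)
    linarith
  have habs : |r| = r := abs_of_pos hr
  have hlog : ∀ z ∈ closedBall b r, Real.log (kn a h (x z) (v z)) =
      ((1 / a) * Real.log a + (1 / a) * Real.log (h (x z) (1, 0))) + Real.log ‖(v z).1‖ := by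
    intro z hz
    obtain ⟨-, k2, -, k4⟩ := hball z (hcb z hz)
    have k5 := B6_pos hh k2
    have k6 : 0 < a := by linarith
    unfold kn
    rw [Real.log_mul (Real.rpow_pos_of_pos (mul_pos k6 k5) _).ne' (norm_pos_iff.2 k4).ne',
      Real.log_rpow (mul_pos k6 k5), Real.log_mul k6.ne' k5.ne']
    ring
  have hbb : b ∈ closedBall b r := mem_closedBall_self hr.le
  have hs1 := hsub b hb1 r hr hr1
  have hs2 : Real.log ‖(v b).1‖ ≤ Real.circleAverage (fun z => Real.log ‖(v z).1‖) b r := by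
    refine W_jensen (f := fun z => (v z).1) hr ?_ ?_
    · rw [habs]
      intro z hz
      exact (hball z (hcb z hz)).2.2.1
    · exact (hball b (hcb b hbb)).2.2.2
  have c1 : ContinuousOn (fun z => Real.log (h (x z) (1, 0))) (sphere b |r|) := by
    rw [habs]
    intro z hz
    obtain ⟨k1, k2, -, -⟩ := hball z (hcb z (sphere_subset_closedBall hz))
    exact ((B6_cont hh k1 k2).log (B6_pos hh k2).ne').continuousWithinAt
  have c2 : ContinuousOn (fun z => Real.log ‖(v z).1‖) (sphere b |r|) := by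
    rw [habs]
    intro z hz
    obtain ⟨-, -, k3, k4⟩ := hball z (hcb z (sphere_subset_closedBall hz))
    exact (k3.continuousAt.norm.log (norm_pos_iff.2 k4).ne').continuousWithinAt
  have c3 : ContinuousOn (fun z => (1 / a) * Real.log (h (x z) (1, 0))) (sphere b |r|) :=
    continuousOn_const.mul c1
  have e1 : Real.circleAverage (fun z => Real.log (kn a h (x z) (v z))) b r =
      Real.circleAverage (fun z => ((1 / a) * Real.log a + (1 / a) * Real.log (h (x z) (1, 0))) +
        Real.log ‖(v z).1‖) b r := by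
    refine Real.circleAverage_congr_sphere fun z hz => ?_
    rw [habs] at hz
    exact hlog z (sphere_subset_closedBall hz)
  have e2 : Real.circleAverage (fun z => (1 / a) * Real.log (h (x z) (1, 0))) b r =
      (1 / a) * Real.circleAverage (fun z => Real.log (h (x z) (1, 0))) b r :=
    Real.circleAverage_fun_smul (a := 1 / a) (f := fun z => Real.log (h (x z) (1, 0)))
  have c4 : ContinuousOn (fun z => (1 / a) * Real.log a + (1 / a) * Real.log (h (x z) (1, 0)))
      (sphere b |r|) := continuousOn_const.add c3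
  rw [hlog b hbb, e1, Real.circleAverage_fun_add c4.circleIntegrable' c2.circleIntegrable',
    Real.circleAverage_fun_add (circleIntegrable_const _ _ _) c3.circleIntegrable',
    Real.circleAverage_const, e2]
  have h6 : 0 < 1 / a := one_div_pos.2 (by linarith)
  have h7 := mul_le_mul_of_nonneg_left hs1 h6.le
  linarith

end Pool.Agent.Nef6.SM
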