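import Pool.Agent.H.MP_6a1d6a_ag.Defs

/-!
MP_6a1d6a_ag, singular metrics of nonpositive curvature: definitions of the local metrics.
-/

set_option autoImplicit false

open Set Filter Topology Metric
open scoped ContDiff Manifold

namespace Pool.Agent.Nef6.SM

/-- The space `ℂ × ℂⁿ`; its points are written `(z, y)`. -/
abbrev E (n : ℕ) : Type := ℂ × EuclideanSpace ℂ (Fin n)

variable {n : ℕ}

/-- `h` is a continuous complex Finsler metric on the open set `U` with plurisubharmonic logarithm (`h x v` is the
length of the tangent vector `v` at the point `x`): `log h` satisfies the sub-mean value inequality for all closed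
holomorphic discs `z ↦ (x z, v z)` in `U × (E \ 0)`. For the length of a smooth Hermitian metric this means that its
curvature is nonpositive in the sense of Griffiths (for a Kähler metric: the holomorphic bisectional curvature is
nonpositive). -/
structure IsMetric (h : E n → E n → ℝ) (U : Set (E n)) : Prop where
  op : IsOpen U
  cont : ContinuousOn (fun q : E n × E n => h q.1 q.2) (U ×ˢ univ)
  pos : ∀ x ∈ U, ∀ v, v ≠ 0 → 0 < h x v
  smul : ∀ x ∈ U, ∀ (c : ℂ) (v : E n), h x (c • v) = ‖c‖ * h x v
  add : ∀ x ∈ U, ∀ v w, h x (v + w) ≤ h x v + h x w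
  psh : ∀ (x v : ℂ → E n) (b : ℂ) (r : ℝ), 0 < r →
    AnalyticOnNhd ℂ x (closedBall b r) → AnalyticOnNhd ℂ v (closedBall b r) →
    (∀ z ∈ closedBall b r, x z ∈ U ∧ v z ≠ 0) →
    Real.log (h (x b) (v b)) ≤ Real.circleAverage (fun z => Real.log (h (x z) (v z))) b r

/-- The set `U` and the metric `h` on it are invariant under the rotations `(z, y) ↦ (e z, y)`, `|e| = 1`. -/
def RotInv (h : E n → E n → ℝ) (U : Set (E n)) : Prop :=
  ∀ e : ℂ, ‖e‖ = 1 → ∀ x ∈ U, (e * x.1, x.2) ∈ U ∧
    ∀ v : E n, h (e * x.1, x.2) (e * v.1, v.2) = h x v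

/-- The point `(|z|^(a-1) z, y)`: up to a rotation this is the point `(z^a, y)`. -/
noncomputable def pt (a : ℝ) (x : E n) : E n := (((‖x.1‖ ^ (a - 1) : ℝ) : ℂ) * x.1, x.2)

/-- The vector `(a |z|^(a-1) v₁, v₂)`: up to the same rotation this is the image `(a z^(a-1) v₁, v₂)` of the tangent
vector `v` at `(z, y)` under the derivative of `(z, y) ↦ (z^a, y)`. -/
noncomputable def vec (a : ℝ) (x v : E n) : E n := (((a * ‖x.1‖ ^ (a - 1) : ℝ) : ℂ) * v.1, v.2)

/-- The pull-back of the rotationally symmetric metric `h` by the multivalued map `(z, y) ↦ (z^a, y)`: the metric with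
cone angle `2π a` along `z = 0`. For `a = 1` it is `h`. -/
noncomputable def pull (a : ℝ) (h : E n → E n → ℝ) (x v : E n) : ℝ := h (pt a x) (vec a x v)

/-- The type of the charts (open partial homeomorphisms to `ℂ × ℂⁿ`) of `Y`. -/
abbrev Chart (n : ℕ) (Y : Type) [TopologicalSpace Y] : Type := OpenPartialHomeomorph Y (E n)

end Pool.Agent.Nef6.SM
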