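import Pool.Agent.H.MP_6a1d6a_ag.SM.B1
import Pool.Agent.H.MP_6a1d6a_ag.CC.Tr

/-!
MP_6a1d6a_ag/SM, module C1: the metric of a `SingularMetric` in an arbitrary holomorphic chart `φ`.

`N_eq`: compare the chosen chart with `ch j` by `compat` and the chain rule `CC.tr_comp` (with `y = φ.symm x`, `φ y = x`). `N_ch`: `N_eq` for `φ = ch j`,
`CC.tr_id`. `N_change`: `N_eq` for both charts and `CC.tr_comp`. `N_smul`, `N_nonneg`: `N_eq`, `pull_smul`, `pull_nonneg` (`maps`). `N_zero`: `N_eq`,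
`pull_zero_iff`; the derivative of a coordinate change is injective (`D_inj`, from `CC.tr_comp` and `CC.tr_id`). `off_P`: `cover`.
-/

set_option autoImplicit false

open Set Filter Topology Metric
open scoped ContDiff Manifold

namespace Pool.Agent.Nef6.SM

variable {n : ℕ} {Y : Type} [TopologicalSpace Y] [ChartedSpace (E n) Y]

open Classical in
/-- the metric in an arbitrary holomorphic chart -/
noncomputable def SingularMetric.N (X : SingularMetric n Y) (φ : Chart n Y) (x v : E n) : ℝ :=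
  if h : ∃ j, φ.symm x ∈ (X.ch j).source then
    pull (X.a h.choose) (X.h h.choose) (X.ch h.choose (φ.symm x))
      (fderiv ℂ (X.ch h.choose ∘ φ.symm) x v)
  else 0

variable [IsManifold 𝓘(ℂ, E n) ω Y] (X : SingularMetric n Y)

theorem a_ge (j : X.J) : 1 ≤ X.a j := by
  rcases X.cone j with h | h
  · exact h.ge
  · exact h.1.le

theorem off_P {y : Y} (hy : y ∉ X.P) : ∃ j, y ∈ (X.ch j).source := (X.cover y).1 hy

theorem D_inj {φ ψ : Chart n Y} (hφ : φ ∈ Charts (E n) Y) (hψ : ψ ∈ Charts (E n) Y) {y : Y}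
    (hy : y ∈ φ.source) (hy' : y ∈ ψ.source) {v : E n}
    (h : fderiv ℂ (ψ ∘ φ.symm) (φ y) v = 0) : v = 0 := by
  have h1 := CC.tr_comp hφ hψ hφ hy hy' hy v
  rw [h, map_zero, CC.tr_id hy] at h1
  exact h1.symm

theorem N_eq {φ : Chart n Y} (hφ : φ ∈ Charts (E n) Y) {x : E n} (hx : x ∈ φ.target) {j : X.J}
    (hj : φ.symm x ∈ (X.ch j).source) (v : E n) :
    X.N φ x v = pull (X.a j) (X.h j) (X.ch j (φ.symm x)) (fderiv ℂ (X.ch j ∘ φ.symm) x v) := by
  have hex : ∃ j, φ.symm x ∈ (X.ch j).source := ⟨j, hj⟩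
  unfold SingularMetric.N
  rw [dif_pos hex]
  have hi := hex.choose_spec
  generalize hex.choose = i at hi ⊢
  have hy : φ.symm x ∈ φ.source := φ.map_target hx
  have h1 := X.compat j i (φ.symm x) hj hi (fderiv ℂ (X.ch j ∘ φ.symm) x v)
  have h2 := CC.tr_comp hφ (X.hol j) (X.hol i) hy hj hi v
  rw [φ.right_inv hx] at h2
  rw [h2] at h1
  exact h1

theorem N_ch (j : X.J) {x : E n} (hx : x ∈ (X.ch j).target) (v : E n) :
    X.N (X.ch j) x v = pull (X.a j) (X.h j) x v := by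
  have hy : (X.ch j).symm x ∈ (X.ch j).source := (X.ch j).map_target hx
  rw [N_eq X (X.hol j) hx hy v]
  have h1 := CC.tr_id hy v
  rw [(X.ch j).right_inv hx] at h1 ⊢
  rw [h1]

theorem N_change {φ ψ : Chart n Y} (hφ : φ ∈ Charts (E n) Y) (hψ : ψ ∈ Charts (E n) Y) {y : Y}
    (hy : y ∈ φ.source) (hy' : y ∈ ψ.source) (hP : y ∉ X.P) (v : E n) :
    X.N ψ (ψ y) (fderiv ℂ (ψ ∘ φ.symm) (φ y) v) = X.N φ (φ y) v := by
  obtain ⟨j, hj⟩ := off_P X hP
  rw [N_eq X hψ (ψ.map_source hy') (j := j) (by rw [ψ.left_inv hy']; exact hj),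
    N_eq X hφ (φ.map_source hy) (j := j) (by rw [φ.left_inv hy]; exact hj),
    ψ.left_inv hy', φ.left_inv hy, CC.tr_comp hφ hψ (X.hol j) hy hy' hj v]

theorem N_smul {φ : Chart n Y} (hφ : φ ∈ Charts (E n) Y) {x : E n} (hx : x ∈ φ.target)
    (hP : φ.symm x ∉ X.P) (c : ℂ) (v : E n) : X.N φ x (c • v) = ‖c‖ * X.N φ x v := by
  obtain ⟨j, hj⟩ := off_P X hP
  rw [N_eq X hφ hx hj, N_eq X hφ hx hj, map_smul,
    pull_smul (X.metric j) (X.maps j _ ((X.ch j).map_source hj))]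

theorem N_nonneg {φ : Chart n Y} (hφ : φ ∈ Charts (E n) Y) {x : E n} (hx : x ∈ φ.target)
    (v : E n) : 0 ≤ X.N φ x v := by
  by_cases h : ∃ j, φ.symm x ∈ (X.ch j).source
  · obtain ⟨j, hj⟩ := h
    rw [N_eq X hφ hx hj]
    exact pull_nonneg (X.metric j) (X.maps j _ ((X.ch j).map_source hj)) _
  · unfold SingularMetric.N
    rw [dif_neg h]

theorem N_zero {φ : Chart n Y} (hφ : φ ∈ Charts (E n) Y) {x : E n} (hx : x ∈ φ.target) {j : X.J}
    (hj : φ.symm x ∈ (X.ch j).source) {v : E n} (hv : v ≠ 0) :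
    X.N φ x v = 0 ↔ 1 < X.a j ∧ (X.ch j (φ.symm x)).1 = 0 ∧
      (fderiv ℂ (X.ch j ∘ φ.symm) x v).2 = 0 := by
  rw [N_eq X hφ hx hj, pull_zero_iff (X.metric j) (X.cone j)
    (X.maps j _ ((X.ch j).map_source hj))]
  constructor
  · rintro (h | h)
    · exfalso
      refine hv (D_inj hφ (X.hol j) (φ.map_target hx) hj ?_)
      rw [φ.right_inv hx]
      exact h
    · exact h
  · exact Or.inr

end Pool.Agent.Nef6.SM
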