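import Pool.Agent.H.MP_6a1d6a_ag.SM.A4

/-!
MP_6a1d6a_ag/SM, module D0: the maximum principle (no exceptional points).

`max_le`: suppose `f 0 > M` (we may assume `0 ≤ M`, as `f ≥ 0` on the sphere). Let `H s = f s * exp (ε (‖s‖² - r²))`, `ε > 0` so small that `H 0 > M`. `H` is continuous on the compact disc, so it has
a maximum at `s'`, `H s' > M`; on the sphere `H = f ≤ M`, so `s'` is in the open ball, `f s' > 0`. Near `s'`: `log H = log f + ε (‖s‖² - r²)`, so by `PSub` and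
`circleAverage (‖s‖²) s' t = ‖s'‖² + t²`: `log H s' + ε t² ≤ circleAverage (log H) s' t ≤ log H s'` for small `t > 0`, a contradiction.
(The same argument, with exceptional points, is in module A6.)
-/

set_option autoImplicit false

open Set Filter Topology Metric MeasureTheory
open scoped ContDiff

namespace Pool.Agent.Nef6.SM

private theorem D0_sq (c : ℂ) {t : ℝ} (ht : 0 < t) :
    Real.circleAverage (fun z : ℂ => ‖z‖ ^ 2) c t = ‖c‖ ^ 2 + t ^ 2 := by
  obtain ⟨g, hg⟩ : ∃ g : ℂ → ℂ, g = fun z => 2 * ((z - c) * (starRingEnd ℂ) c) := ⟨_, rfl⟩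
  have hgc : Continuous g := by
    rw [hg]
    fun_prop
  have hgd : Differentiable ℂ g := by
    rw [hg]
    fun_prop
  have h1 : Real.circleAverage g c t = 0 := by
    have h2 : Real.circleAverage g c t = g c :=
      DiffContOnCl.circleAverage hgd.diffContOnCl
    rw [h2, hg]
    simp
  have h3 : Real.circleAverage (Complex.reCLM ∘ g) c t = 0 := by
    rw [Complex.reCLM.circleAverage_comp_comm hgc.continuousOn.circleIntegrable', h1, map_zero]
  have h4 : Real.circleAverage (fun z : ℂ => ‖z‖ ^ 2) c t =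
      Real.circleAverage (fun z => (‖c‖ ^ 2 + t ^ 2) + (Complex.reCLM ∘ g) z) c t := by
    refine Real.circleAverage_congr_sphere fun z hz => ?_
    rw [mem_sphere, abs_of_pos ht, dist_eq_norm] at hz
    show ‖z‖ ^ 2 = (‖c‖ ^ 2 + t ^ 2) + (g z).re
    rw [← hz, hg, ← Complex.normSq_eq_norm_sq, ← Complex.normSq_eq_norm_sq,
      ← Complex.normSq_eq_norm_sq]
    simp only [Complex.normSq_apply, Complex.sub_re, Complex.sub_im, Complex.mul_re,
      Complex.mul_im, Complex.conj_re, Complex.conj_im, Complex.re_ofNat, Complex.im_ofNat]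
    ring
  have hrc : CircleIntegrable (Complex.reCLM ∘ g) c t :=
    (Complex.reCLM.continuous.comp hgc).continuousOn.circleIntegrable'
  rw [h4, Real.circleAverage_fun_add (circleIntegrable_const _ _ _) hrc,
    Real.circleAverage_const, h3, add_zero]

theorem max_le {f : ℂ → ℝ} {r M : ℝ} (hr : 0 < r) (hf : ContinuousOn f (closedBall 0 r))
    (h0 : ∀ s ∈ closedBall 0 r, 0 ≤ f s) (hsub : PSub f (ball 0 r))
    (hM : ∀ s ∈ sphere (0 : ℂ) r, f s ≤ M) : f 0 ≤ M := by
  by_contra hcon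
  rw [not_le] at hcon
  have hM0 : 0 ≤ M := by
    have h1 : (r : ℂ) ∈ sphere (0 : ℂ) r := by
      rw [mem_sphere_zero_iff_norm, Complex.norm_real, Real.norm_eq_abs, abs_of_pos hr]
    exact (h0 _ (sphere_subset_closedBall h1)).trans (hM _ h1)
  have hf0 : 0 < f 0 := hM0.trans_lt hcon
  obtain ⟨ε, hε, hε1⟩ : ∃ ε : ℝ, 0 < ε ∧ M < f 0 * Real.exp (-(ε * r ^ 2)) := by
    refine ⟨(f 0 - M) / (2 * f 0 * r ^ 2), div_pos (by linarith) (by positivity), ?_⟩
    have h1 : (f 0 - M) / (2 * f 0 * r ^ 2) * r ^ 2 = (f 0 - M) / (2 * f 0) := by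
      field_simp
    rw [h1]
    have h2 := Real.add_one_le_exp (-((f 0 - M) / (2 * f 0)))
    have h3 : f 0 * (-((f 0 - M) / (2 * f 0)) + 1) = (f 0 + M) / 2 := by
      field_simp
      ring
    have h4 := mul_le_mul_of_nonneg_left h2 hf0.le
    rw [h3] at h4
    linarith
  obtain ⟨H, hH⟩ : ∃ H : ℂ → ℝ, H = fun s => f s * Real.exp (ε * (‖s‖ ^ 2 - r ^ 2)) := ⟨_, rfl⟩
  have hHc : ContinuousOn H (closedBall 0 r) := by
    rw [hH]
    refine hf.mul (Continuous.continuousOn ?_)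
    fun_prop
  obtain ⟨s, hs, hmax⟩ := (isCompact_closedBall (0 : ℂ) r).exists_isMaxOn
    ⟨0, mem_closedBall_self hr.le⟩ hHc
  have hmax' : ∀ z ∈ closedBall (0 : ℂ) r, H z ≤ H s := fun z hz => hmax hz
  have hH0 : M < H 0 := by
    rw [hH]
    show M < f 0 * Real.exp (ε * (‖(0 : ℂ)‖ ^ 2 - r ^ 2))
    have h1 : ε * (‖(0 : ℂ)‖ ^ 2 - r ^ 2) = -(ε * r ^ 2) := by
      rw [norm_zero]
      ring
    rw [h1]
    exact hε1
  have hHs : M < H s := hH0.trans_le (hmax' 0 (mem_closedBall_self hr.le))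
  have hsb : s ∈ ball (0 : ℂ) r := by
    rw [mem_ball]
    refine lt_of_le_of_ne hs fun he => ?_
    have h1 : s ∈ sphere (0 : ℂ) r := he
    have h2 : H s = f s := by
      rw [hH]
      show f s * Real.exp (ε * (‖s‖ ^ 2 - r ^ 2)) = f s
      rw [mem_sphere_zero_iff_norm.1 h1, sub_self, mul_zero, Real.exp_zero, mul_one]
    rw [h2] at hHs
    exact absurd (hM s h1) (not_le.2 hHs)
  have hfs : f s ≠ 0 := by
    intro h
    have h1 : H s = 0 := by
      rw [hH]
      show f s * Real.exp (ε * (‖s‖ ^ 2 - r ^ 2)) = 0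
      rw [h, zero_mul]
    rw [h1] at hHs
    exact absurd hM0 (not_le.2 hHs)
  obtain ⟨ρ, hρ, hne, hav⟩ := hsub s hsb hfs
  have ht : 0 < ρ / 2 := by positivity
  have h1 := hav s (mem_ball_self hρ) (ρ / 2) ht (by linarith)
  have hcb : ∀ z ∈ sphere s |ρ / 2|, z ∈ ball (0 : ℂ) r ∧ f z ≠ 0 := by
    intro z hz
    refine hne z ?_
    rw [mem_sphere, abs_of_pos ht] at hz
    rw [mem_ball, hz]
    linarith
  have hpos : ∀ z, z ∈ ball (0 : ℂ) r → f z ≠ 0 → 0 < f z := fun z hz hz0 =>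
    lt_of_le_of_ne (h0 z (ball_subset_closedBall hz)) hz0.symm
  have hlog : ∀ z, z ∈ ball (0 : ℂ) r → f z ≠ 0 →
      Real.log (f z) + ε * (‖z‖ ^ 2 - r ^ 2) ≤ Real.log (H s) := by
    intro z hz hz0
    have h2 : Real.log (f z) + ε * (‖z‖ ^ 2 - r ^ 2) = Real.log (H z) := by
      rw [hH]
      show _ = Real.log (f z * Real.exp (ε * (‖z‖ ^ 2 - r ^ 2)))
      rw [Real.log_mul hz0 (Real.exp_ne_zero _), Real.log_exp]
    rw [h2]
    refine Real.log_le_log ?_ (hmax' z (ball_subset_closedBall hz))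
    rw [hH]
    exact mul_pos (hpos z hz hz0) (Real.exp_pos _)
  have hlogs : Real.log (H s) = Real.log (f s) + ε * (‖s‖ ^ 2 - r ^ 2) := by
    rw [hH]
    show Real.log (f s * Real.exp (ε * (‖s‖ ^ 2 - r ^ 2))) = _
    rw [Real.log_mul hfs (Real.exp_ne_zero _), Real.log_exp]
  have i1 : CircleIntegrable (fun z => Real.log (f z)) s (ρ / 2) := by
    refine ContinuousOn.circleIntegrable' ?_
    exact (hf.mono fun z hz => ball_subset_closedBall (hcb z hz).1).log fun z hz => (hcb z hz).2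
  have i2 : CircleIntegrable (fun z : ℂ => ‖z‖ ^ 2) s (ρ / 2) :=
    (continuous_norm.pow 2).continuousOn.circleIntegrable'
  have i3 : CircleIntegrable (fun z : ℂ => ε * (‖z‖ ^ 2 - r ^ 2)) s (ρ / 2) :=
    (continuous_const.mul ((continuous_norm.pow 2).sub continuous_const)).continuousOn.circleIntegrable'
  have h2 : Real.circleAverage (fun z : ℂ => ε * (‖z‖ ^ 2 - r ^ 2)) s (ρ / 2) =
      ε * (‖s‖ ^ 2 + (ρ / 2) ^ 2 - r ^ 2) := by
    have e1 := Real.circleAverage_fun_smul (a := ε) (f := fun z : ℂ => ‖z‖ ^ 2 - r ^ 2)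
      (c := s) (R := ρ / 2)
    simp only [smul_eq_mul] at e1
    have e2 := Real.circleAverage_fun_sub i2 (circleIntegrable_const (r ^ 2) s (ρ / 2))
    rw [D0_sq s ht, Real.circleAverage_const] at e2
    rw [e1, e2]
  have h3 : Real.circleAverage (fun z => Real.log (f z) + ε * (‖z‖ ^ 2 - r ^ 2)) s (ρ / 2) ≤
      Real.log (H s) :=
    Real.circleAverage_mono_on_of_le_circle (i1.add i3) fun z hz =>
      hlog z (hcb z hz).1 (hcb z hz).2
  rw [Real.circleAverage_fun_add i1 i3, h2, hlogs] at h3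
  have h4 : 0 < ε * (ρ / 2) ^ 2 := by positivity
  nlinarith

end Pool.Agent.Nef6.SM
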