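import Pool.Agent.H.MP_6a1d6a_ag.SM.C2
import Pool.Agent.H.MP_6a1d6a_ag.SM.B5
import Pool.Agent.H.MP_6a1d6a_ag.SM.B6
import Pool.Agent.H.MP_6a1d6a_ag.SM.A6
import Pool.Agent.H.MP_6a1d6a_ag.SM.D1

/-!
MP_6a1d6a_ag/SM, module C8: the renormalised metric on the kernel is bounded near an exceptional point.

In the second case of `exc` this is clear (`C8_exc`). In the first case: take `φ`, `C` from `bdd_N`; replace `C` by `max C 1`. Choose `0 < r ≤ 1` with `closedBall (φ p) (2 r) ⊆ φ.target` and `φ.symm x ∉ P` for `x ≠ φ p` in this ball (`discrete`,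
continuity and injectivity of `φ.symm`). `K = C / r`. Let `x ≠ φ p`, `‖x - φ p‖ < r`, `y = φ.symm x`, `j` with `y ∈ (ch j).source`, `1 < a = a j`, `(ch j y).1 = 0`; so `a ≤ 2` (`exc`). Let
`v` be with `fderiv ℂ (ch j ∘ φ.symm) x v = (b, 0)`. Both sides are homogeneous in `v` (`kn` has the factor `‖v.1‖`), `v = 0` is trivial, so let `‖v‖ = 1`.
`G s = x + s • v`, `f s = X.N φ (G s) v`, `s₁` the number with `G s₁ = φ p` if it exists (then `‖s₁‖ = ‖φ p - x‖ < r`), else `s₁ = 0`. For `‖s‖ ≤ r`, `s ≠ s₁`: `G s ∈ ball (φ p) (2 r)`, `G s ≠ φ p`,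
`0 ≤ f s ≤ C` (`N_nonneg`, `N_eq` and `bdd_N`), `f` continuous (`N_cont`), `PSub f` (`N_sub`). Near `0`, `f s = pull a (h j) (F s) (deriv F s)`, `F s = ch j (φ.symm (G s))`, `F 0 = ch j y`,
`deriv F 0 = (b, 0)` (`loc_rep`, chain rule), so `f s ≤ C' ‖s‖ ^ (a - 1)` near `0` (`disc_upper`). By `max_princ` (`κ = a - 1`): `f s ≤ C (‖s‖ / r) ^ (a - 1)` for `0 < ‖s‖ < r`, `s ≠ s₁`.
With `disc_lower`: `a h_j (ch j y) (1, 0) ‖b‖ ^ a ≤ C r ^ (1 - a)` (all `κ` below the left side; `‖s‖ ^ (a-1) > 0`). So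
`kn = (a h (1,0) ‖b‖ ^ a) ^ (1/a) ≤ (C r ^ (1-a)) ^ (1/a) ≤ C r⁻¹` (`C ≥ 1`, `r ≤ 1`, `0 < 1/a ≤ 1`, `(a - 1)/a ≤ 1`).
-/

set_option autoImplicit false

open Set Filter Topology Metric
open scoped ContDiff Manifold

namespace Pool.Agent.Nef6.SM

variable {n : ℕ} {Y : Type} [TopologicalSpace Y] [ChartedSpace (E n) Y]
  [IsManifold 𝓘(ℂ, E n) ω Y] (X : SingularMetric n Y)

private theorem C8_kn {a : ℝ} {h : E n → E n → ℝ} {x w : E n} (ha : 1 < a)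
    (h0 : 0 ≤ h x (1, 0)) {C r : ℝ} (hC : 1 ≤ C) (hr : 0 < r) (hr1 : r ≤ 1)
    (hA : a * h x (1, 0) * ‖w.1‖ ^ a ≤ C / r ^ (a - 1)) : kn a h x w ≤ C / r := by
  have ha0 : 0 < a := by linarith
  have hb := norm_nonneg w.1
  have h1 : 0 ≤ a * h x (1, 0) := mul_nonneg ha0.le h0
  have h2 : 0 ≤ (a * h x (1, 0)) ^ (1 / a) := Real.rpow_nonneg h1 _
  have h3 : (kn a h x w) ^ a = a * h x (1, 0) * ‖w.1‖ ^ a := by
    unfold kn
    rw [Real.mul_rpow h2 hb, ← Real.rpow_mul h1, one_div_mul_cancel ha0.ne', Real.rpow_one]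
  have h4 : 0 ≤ kn a h x w := mul_nonneg h2 hb
  have h5 : 0 ≤ C / r := by positivity
  rw [← Real.rpow_le_rpow_iff h4 h5 ha0, h3]
  refine hA.trans ?_
  rw [Real.div_rpow (by linarith) hr.le]
  have h6 : C ≤ C ^ a := by
    calc C = C ^ (1 : ℝ) := (Real.rpow_one C).symm
      _ ≤ C ^ a := Real.rpow_le_rpow_of_exponent_le hC ha.le
  have h7 : r ^ a ≤ r ^ (a - 1) := Real.rpow_le_rpow_of_exponent_ge hr hr1 (by linarith)
  have h8 : 0 < r ^ a := Real.rpow_pos_of_pos hr _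
  exact div_le_div₀ (by linarith) h6 h8 h7

private theorem C8_chain {φ : Chart n Y} (hφ : φ ∈ Charts (E n) Y) {j : X.J} {x v : E n} {s : ℂ}
    (ht : x + s • v ∈ φ.target) (hj : φ.symm (x + s • v) ∈ (X.ch j).source) :
    deriv (fun s : ℂ => X.ch j (φ.symm (x + s • v))) s =
      fderiv ℂ (X.ch j ∘ φ.symm) (x + s • v) v := by
  have h1 := CC.tr_smooth hφ (X.hol j) (φ.map_target ht) hj
  rw [φ.right_inv ht] at h1
  have h2 : DifferentiableAt ℂ (X.ch j ∘ φ.symm) (x + s • v) := h1.differentiableAt (by simp)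
  have h3 : HasDerivAt (fun s : ℂ => x + s • v) v s := by
    have h4 := ((hasDerivAt_id s).smul_const v).const_add x
    simpa using h4
  exact (h2.hasFDerivAt.comp_hasDerivAt s h3).deriv

/-- the case of a unit vector -/
private theorem C8_unit {φ : Chart n Y} (hφ : φ ∈ Charts (E n) Y) {p : Y} {C r : ℝ}
    (hC1 : 1 ≤ C) (hr : 0 < r) (hr1 : r ≤ 1)
    (hball : ∀ z, ‖z - φ p‖ < 2 * r → z ∈ φ.target ∧ (z ≠ φ p → φ.symm z ∉ X.P))
    (hC : ∀ j, ∀ y ∈ φ.source, y ∈ (X.ch j).source → ((X.ch j y).1 = 0 → X.a j ≤ 2) ∧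
      ∀ v, pull (X.a j) (X.h j) (X.ch j y) (fderiv ℂ (X.ch j ∘ φ.symm) (φ y) v) ≤ C * ‖v‖)
    {x : E n} (hx : ‖x - φ p‖ < r) (hxp : x ≠ φ p) {j : X.J}
    (hj : φ.symm x ∈ (X.ch j).source) (ha : 1 < X.a j) (h1 : (X.ch j (φ.symm x)).1 = 0)
    {v : E n} (hv : ‖v‖ = 1) (h2 : (fderiv ℂ (X.ch j ∘ φ.symm) x v).2 = 0) :
    kn (X.a j) (X.h j) (X.ch j (φ.symm x)) (fderiv ℂ (X.ch j ∘ φ.symm) x v) ≤ C / r := by
  classical
  have hv0 : v ≠ 0 := by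
    rintro rfl
    rw [norm_zero] at hv
    exact zero_ne_one hv
  have hxt : x ∈ φ.target := (hball x (by linarith)).1
  have hxP : φ.symm x ∉ X.P := (hball x (by linarith)).2 hxp
  obtain ⟨-, hR⟩ : 1 < X.a j ∧ RotInv (X.h j) (X.U j) := by
    rcases X.cone j with h | h
    · exact absurd h ha.ne'
    · exact h
  -- the line
  obtain ⟨G, hGdef⟩ : ∃ G : ℂ → E n, G = fun s => x + s • v := ⟨_, rfl⟩
  have hGs : ∀ s, G s = x + s • v := fun s => by rw [hGdef]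
  have hGan : ∀ s, AnalyticAt ℂ G s := by
    intro s
    rw [hGdef]
    exact analyticAt_const.add (analyticAt_id.smul analyticAt_const)
  have hG0 : G 0 = x := by rw [hGs, zero_smul, add_zero]
  have hGb : ∀ s : ℂ, ‖s‖ ≤ r → ‖G s - φ p‖ < 2 * r := by
    intro s hs
    have e1 : G s - φ p = (x - φ p) + s • v := by
      rw [hGs]
      abel
    rw [e1]
    calc ‖(x - φ p) + s • v‖ ≤ ‖x - φ p‖ + ‖s • v‖ := norm_add_le _ _
      _ = ‖x - φ p‖ + ‖s‖ := by rw [norm_smul, hv, mul_one]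
      _ < 2 * r := by linarith
  have hinj : ∀ s t : ℂ, G s = G t → s = t := by
    intro s t hst
    rw [hGs, hGs] at hst
    have h3 := add_left_cancel hst
    exact smul_left_injective ℂ hv0 h3
  obtain ⟨s₁, hs₁r, hs₁⟩ : ∃ s₁ : ℂ, ‖s₁‖ < r ∧ ∀ s, G s = φ p → s = s₁ := by
    by_cases hex : ∃ s, G s = φ p
    · obtain ⟨s, hs⟩ := hex
      refine ⟨s, ?_, fun t ht => hinj t s (ht.trans hs.symm)⟩
      have h3 : s • v = φ p - x := by
        rw [← hs, hGs]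
        abel
      have h4 : ‖s‖ = ‖φ p - x‖ := by rw [← h3, norm_smul, hv, mul_one]
      rw [h4, norm_sub_rev]
      exact hx
    · exact ⟨0, by rwa [norm_zero], fun s hs => absurd ⟨s, hs⟩ hex⟩
  -- the function
  obtain ⟨f, hfdef⟩ : ∃ f : ℂ → ℝ, f = fun s => X.N φ (G s) v := ⟨_, rfl⟩
  have hfs : ∀ s, f s = X.N φ (G s) v := fun s => by rw [hfdef]
  have hgood : ∀ s ∈ closedBall (0 : ℂ) r \ {0, s₁}, G s ∈ φ.target ∧ φ.symm (G s) ∉ X.P := by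
    rintro s ⟨hs, hs'⟩
    have h3 : ‖s‖ ≤ r := mem_closedBall_zero_iff.1 hs
    refine ⟨(hball _ (hGb s h3)).1, (hball _ (hGb s h3)).2 fun h4 => hs' ?_⟩
    rw [hs₁ s h4]
    exact Or.inr rfl
  have hcontAt : ∀ s ∈ closedBall (0 : ℂ) r \ {0, s₁}, ContinuousAt f s := by
    intro s hs
    rw [hfdef]
    exact N_cont X hφ (hGan s) analyticAt_const (hgood s hs).1 (hgood s hs).2
  have hfcont : ContinuousOn f (closedBall 0 r \ {0, s₁}) :=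
    fun s hs => (hcontAt s hs).continuousWithinAt
  have hf0 : ∀ s ∈ closedBall 0 r \ {0, s₁}, 0 ≤ f s ∧ f s ≤ C := by
    intro s hs
    obtain ⟨h3, h4⟩ := hgood s hs
    obtain ⟨k, hk⟩ := off_P X h4
    rw [hfs]
    refine ⟨N_nonneg X hφ h3 v, ?_⟩
    have h5 := (hC k (φ.symm (G s)) (φ.map_target h3) hk).2 v
    rw [φ.right_inv h3, hv, mul_one] at h5
    rw [N_eq X hφ h3 hk v]
    exact h5
  have hopen : IsOpen (ball (0 : ℂ) r \ {0, s₁}) :=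
    isOpen_ball.sdiff ((finite_singleton s₁).insert 0).isClosed
  have hsub : PSub f (ball 0 r \ {0, s₁}) := by
    intro z hz hfz
    have hz' : z ∈ closedBall (0 : ℂ) r \ {0, s₁} := ⟨ball_subset_closedBall hz.1, hz.2⟩
    obtain ⟨h3, h4⟩ := hgood z hz'
    have h5 : X.N φ (G z) ((fun _ : ℂ => v) z) ≠ 0 := by
      rw [← hfs]
      exact hfz
    obtain ⟨ρ, hρ, hρ'⟩ := N_sub X hφ (hGan z) (analyticAt_const (v := v)) h3 h4 h5
    have h6 : ∀ᶠ b in 𝓝 z, b ∈ ball (0 : ℂ) r \ {0, s₁} ∧ f b ≠ 0 :=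
      (hopen.eventually_mem hz).and ((hcontAt z hz').eventually_ne hfz)
    obtain ⟨ε, hε, hε'⟩ := Metric.eventually_nhds_iff_ball.1 h6
    refine ⟨min ρ (ε / 2), lt_min hρ (by positivity), fun b hb => ?_, fun b hb t ht0 ht => ?_⟩
    · refine hε' b ?_
      rw [mem_ball] at hb ⊢
      have := min_le_right ρ (ε / 2)
      linarith
    · have h7 := hρ' b (ball_subset_ball (min_le_left _ _) hb) t ht0
        (lt_of_lt_of_le ht (min_le_left _ _))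
      rw [hfdef]
      exact h7
  -- the local form at zero
  obtain ⟨F, hFdef⟩ : ∃ F : ℂ → E n, F = fun s => X.ch j (φ.symm (G s)) := ⟨_, rfl⟩
  have hF0 : F 0 = X.ch j (φ.symm x) := by
    rw [hFdef]
    show X.ch j (φ.symm (G 0)) = _
    rw [hG0]
  obtain ⟨hFan, -, hloc⟩ := loc_rep X hφ (hGan 0) (analyticAt_const (v := v) (x := (0 : ℂ)))
    (by rw [hG0]; exact hxt) (j := j) (by rw [hG0]; exact hj)
  rw [← hFdef] at hFan
  have hder : ∀ s : ℂ, G s ∈ φ.target → φ.symm (G s) ∈ (X.ch j).source →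
      deriv F s = fderiv ℂ (X.ch j ∘ φ.symm) (G s) v := by
    intro s h3 h4
    rw [hGs] at h3 h4
    rw [hFdef, hGdef]
    exact C8_chain X hφ h3 h4
  have hd0 : deriv F 0 = ((fderiv ℂ (X.ch j ∘ φ.symm) x v).1, 0) := by
    rw [hder 0 (by rw [hG0]; exact hxt) (by rw [hG0]; exact hj), hG0]
    exact Prod.ext rfl h2
  have hf_eq : ∀ᶠ s in 𝓝 (0 : ℂ), f s = pull (X.a j) (X.h j) (F s) (deriv F s) := by
    filter_upwards [hloc] with s hs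
    rw [hfs, hs.2.2.2, hder s hs.1 hs.2.1, hFdef]
  have hFU : F 0 ∈ X.U j := by
    have h3 := X.maps j (F 0) (by rw [hF0]; exact (X.ch j).map_source hj)
    rw [pt_zero ha (by rw [hF0]; exact h1)] at h3
    exact h3
  have hF1 : (F 0).1 = 0 := by rw [hF0]; exact h1
  have ha2 : X.a j ≤ 2 := (hC j (φ.symm x) (φ.map_target hxt) hj).1 h1
  have hup : ∃ C' : ℝ, ∀ᶠ s in 𝓝[≠] (0 : ℂ), f s ≤ C' * ‖s‖ ^ (X.a j - 1) := by
    obtain ⟨C', hC'⟩ := disc_upper (X.metric j) ha ha2 hFan hFU hF1 hd0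
    refine ⟨C', ?_⟩
    have h3 := hf_eq.and hC'
    filter_upwards [h3.filter_mono nhdsWithin_le_nhds] with s hs
    rw [hs.1]
    exact hs.2
  have hmax := max_princ hr (by linarith) (by linarith) hs₁r hfcont hf0 hsub hup
  -- comparison
  have hA : X.a j * X.h j (F 0) (1, 0) * ‖(fderiv ℂ (X.ch j ∘ φ.symm) x v).1‖ ^ X.a j ≤
      C / r ^ (X.a j - 1) := by
    refine le_of_forall_lt fun κ hκ => ?_
    obtain ⟨κ', hκ1, hκ2⟩ := exists_between hκ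
    refine lt_of_lt_of_le hκ1 ?_
    have h3 := disc_lower (X.metric j) hR ha hFan hFU hF1 hd0 hκ2
    have h4 : ∀ᶠ s in 𝓝[≠] (0 : ℂ), s ∈ ball (0 : ℂ) r \ {0, s₁} := by
      have h5 : ∀ᶠ s in 𝓝[≠] (0 : ℂ), s ≠ s₁ := by
        by_cases hs0 : s₁ = 0
        · rw [hs0]
          exact self_mem_nhdsWithin
        · exact (eventually_ne_nhds (Ne.symm hs0)).filter_mono nhdsWithin_le_nhds
      have h6 : ∀ᶠ s in 𝓝[≠] (0 : ℂ), s ∈ ball (0 : ℂ) r :=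
        nhdsWithin_le_nhds (ball_mem_nhds (0 : ℂ) hr)
      filter_upwards [h5, h6, self_mem_nhdsWithin] with s hs1 hs2 hs3
      refine ⟨hs2, ?_⟩
      rintro (h | h)
      · exact hs3 h
      · exact hs1 h
    obtain ⟨s, ⟨⟨hs1, hs2⟩, hs3⟩, hs4⟩ := (((h3.and h4).and
      (hf_eq.filter_mono nhdsWithin_le_nhds)).and
      (self_mem_nhdsWithin : {(0 : ℂ)}ᶜ ∈ 𝓝[≠] (0 : ℂ))).exists
    have hs0 : 0 < ‖s‖ := norm_pos_iff.2 hs4
    have h5 := hmax s hs2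
    rw [hs3] at h5
    have h6 := hs1.trans h5
    rw [Real.div_rpow hs0.le hr.le] at h6
    have h7 : 0 < ‖s‖ ^ (X.a j - 1) := Real.rpow_pos_of_pos hs0 _
    have h8 : C * (‖s‖ ^ (X.a j - 1) / r ^ (X.a j - 1)) =
        C / r ^ (X.a j - 1) * ‖s‖ ^ (X.a j - 1) := by ring
    rw [h8] at h6
    exact le_of_mul_le_mul_right h6 h7
  rw [hF0] at hA
  rw [hF0] at hFU
  have hpos : 0 ≤ X.h j (X.ch j (φ.symm x)) (1, 0) := (X.metric j).nonneg hFU _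
  exact C8_kn ha hpos hC1 hr hr1 hA

/-- the second case of `exc` -/
private theorem C8_exc {φ : Chart n Y} (hφ : φ ∈ Charts (E n) Y) {p : Y} (hpφ : p ∈ φ.source)
    {C : ℝ} (hC0 : 0 ≤ C)
    (hC : ∀ j, ∀ y ∈ φ.source, y ∈ (X.ch j).source → 1 < X.a j → (X.ch j y).1 = 0 →
      ∀ v, (fderiv ℂ (X.ch j ∘ φ.symm) (φ y) v).2 = 0 →
        (X.a j * X.h j (X.ch j y) (1, 0)) ^ (1 / X.a j) *
          ‖(fderiv ℂ (X.ch j ∘ φ.symm) (φ y) v).1‖ ≤ C * ‖v‖) :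
    ∃ φ ∈ Charts (E n) Y, p ∈ φ.source ∧
    ∃ K : ℝ, 0 ≤ K ∧ ∀ᶠ x in 𝓝[≠] (φ p), x ∈ φ.target ∧ φ.symm x ∉ X.P ∧
      ∀ j, φ.symm x ∈ (X.ch j).source → 1 < X.a j → (X.ch j (φ.symm x)).1 = 0 →
        ∀ v : E n, (fderiv ℂ (X.ch j ∘ φ.symm) x v).2 = 0 →
          kn (X.a j) (X.h j) (X.ch j (φ.symm x)) (fderiv ℂ (X.ch j ∘ φ.symm) x v) ≤ K * ‖v‖ := by
  obtain ⟨W, hW, hpW, hWP⟩ := X.discrete p
  have hopen : IsOpen (φ.target ∩ φ.symm ⁻¹' W) := φ.symm.isOpen_inter_preimage hW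
  have hmem : φ p ∈ φ.target ∩ φ.symm ⁻¹' W := by
    refine ⟨φ.map_source hpφ, ?_⟩
    show φ.symm (φ p) ∈ W
    rw [φ.left_inv hpφ]
    exact hpW
  refine ⟨φ, hφ, hpφ, C, hC0, ?_⟩
  filter_upwards [nhdsWithin_le_nhds (hopen.mem_nhds hmem), self_mem_nhdsWithin] with x hx hxp
  refine ⟨hx.1, fun h1 => hxp ?_, ?_⟩
  · have h2 : φ.symm x = p := hWP ⟨hx.2, h1⟩
    show x = φ p
    rw [← h2, φ.right_inv hx.1]
  · intro j hj ha h0 v hv
    have h1 := hC j (φ.symm x) (φ.map_target hx.1) hj ha h0 v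
    rw [φ.right_inv hx.1] at h1
    exact h1 hv

theorem bound_P (hn : 0 < n) {p : Y} (hp : p ∈ X.P) : ∃ φ ∈ Charts (E n) Y, p ∈ φ.source ∧
    ∃ K : ℝ, 0 ≤ K ∧ ∀ᶠ x in 𝓝[≠] (φ p), x ∈ φ.target ∧ φ.symm x ∉ X.P ∧
      ∀ j, φ.symm x ∈ (X.ch j).source → 1 < X.a j → (X.ch j (φ.symm x)).1 = 0 →
        ∀ v : E n, (fderiv ℂ (X.ch j ∘ φ.symm) x v).2 = 0 →
          kn (X.a j) (X.h j) (X.ch j (φ.symm x)) (fderiv ℂ (X.ch j ∘ φ.symm) x v) ≤ K * ‖v‖ := by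
  rcases X.exc p hp with ⟨W₂, hW₂o, hpW₂, hW₂⟩ | ⟨φ, hφ, hpφ, C, hC0, hC⟩
  swap
  · exact C8_exc X hφ hpφ hC0 hC
  obtain ⟨φ, hφ, hpφ, hφW, C₀, hC₀⟩ := bdd_N X hn hp hW₂o hpW₂
  obtain ⟨W, hW, hpW, hWP⟩ := X.discrete p
  have hC : ∀ j, ∀ y ∈ φ.source, y ∈ (X.ch j).source → ((X.ch j y).1 = 0 → X.a j ≤ 2) ∧
      ∀ v, pull (X.a j) (X.h j) (X.ch j y) (fderiv ℂ (X.ch j ∘ φ.symm) (φ y) v) ≤
        max C₀ 1 * ‖v‖ := by
    intro j y hy hy'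
    refine ⟨hW₂ j y (hφW hy) hy', fun v => (hC₀ j y hy hy' v).trans ?_⟩
    exact mul_le_mul_of_nonneg_right (le_max_left _ _) (norm_nonneg _)
  have hopen : IsOpen (φ.target ∩ φ.symm ⁻¹' W) := φ.symm.isOpen_inter_preimage hW
  have hmem : φ p ∈ φ.target ∩ φ.symm ⁻¹' W := by
    refine ⟨φ.map_source hpφ, ?_⟩
    show φ.symm (φ p) ∈ W
    rw [φ.left_inv hpφ]
    exact hpW
  obtain ⟨R, hR, hball⟩ := Metric.isOpen_iff.1 hopen _ hmem
  obtain ⟨r, hrdef⟩ : ∃ r : ℝ, r = min (R / 2) 1 := ⟨_, rfl⟩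
  have hr : 0 < r := by
    rw [hrdef]
    exact lt_min (by positivity) one_pos
  have hr1 : r ≤ 1 := by
    rw [hrdef]
    exact min_le_right _ _
  have hrR : 2 * r ≤ R := by
    have := min_le_left (R / 2) 1
    rw [← hrdef] at this
    linarith
  have hgood : ∀ z, ‖z - φ p‖ < 2 * r → z ∈ φ.target ∧ (z ≠ φ p → φ.symm z ∉ X.P) := by
    intro z hz
    have h1 := hball (show z ∈ ball (φ p) R by
      rw [mem_ball, dist_eq_norm]
      linarith)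
    refine ⟨h1.1, fun h2 h3 => h2 ?_⟩
    have h4 : φ.symm z = p := hWP ⟨h1.2, h3⟩
    rw [← h4, φ.right_inv h1.1]
  refine ⟨φ, hφ, hpφ, max C₀ 1 / r, by positivity, ?_⟩
  have h1 : ∀ᶠ x in 𝓝[≠] (φ p), x ∈ ball (φ p) r :=
    nhdsWithin_le_nhds (ball_mem_nhds (φ p) hr)
  filter_upwards [h1, self_mem_nhdsWithin] with x hx hxp
  have hxn : ‖x - φ p‖ < r := by
    rw [mem_ball, dist_eq_norm] at hx
    exact hx
  have hxp' : x ≠ φ p := hxp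
  refine ⟨(hgood x (by linarith)).1, (hgood x (by linarith)).2 hxp', ?_⟩
  intro j hj ha h2 v h3
  by_cases hv : v = 0
  · rw [hv, map_zero, norm_zero, mul_zero]
    unfold kn
    rw [Prod.fst_zero, norm_zero, mul_zero]
  · have hn : ‖v‖ ≠ 0 := norm_ne_zero_iff.2 hv
    have hc : ‖((‖v‖⁻¹ : ℝ) : ℂ) • v‖ = 1 := by
      rw [norm_smul, Complex.norm_real, norm_inv, norm_norm, inv_mul_cancel₀ hn]
    have h4 : (fderiv ℂ (X.ch j ∘ φ.symm) x (((‖v‖⁻¹ : ℝ) : ℂ) • v)).2 = 0 := by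
      rw [map_smul, Prod.smul_snd, h3, smul_zero]
    have h5 := C8_unit X hφ (le_max_right C₀ 1) hr hr1 hgood hC hxn hxp' hj ha h2 hc h4
    have h6 : kn (X.a j) (X.h j) (X.ch j (φ.symm x))
        (fderiv ℂ (X.ch j ∘ φ.symm) x (((‖v‖⁻¹ : ℝ) : ℂ) • v)) =
        ‖v‖⁻¹ * kn (X.a j) (X.h j) (X.ch j (φ.symm x)) (fderiv ℂ (X.ch j ∘ φ.symm) x v) := by
      unfold kn
      rw [map_smul, Prod.smul_fst, norm_smul, Complex.norm_real, norm_inv, norm_norm]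
      ring
    rw [h6, inv_mul_le_iff₀ (lt_of_le_of_ne (norm_nonneg v) (Ne.symm hn))] at h5
    rw [mul_comm]
    exact h5

end Pool.Agent.Nef6.SM
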