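import Pool.Agent.H.MP_6a1d6a_ag.SM.C7
import Pool.Agent.H.MP_6a1d6a_ag.SM.C2

/-!
MP_6a1d6a_ag/SM, module C9: the renormalised metric on the kernel in an arbitrary chart, and along discs.

`K` is only used for `x`, `v` with `v ≠ 0`, `X.N φ x v = 0`, `x ∈ φ.target`, `φ.symm x ∉ P`: then by `N_zero`, for every chart `j` at `y = φ.symm x`: `1 < a j`, `(ch j y).1 = 0`,
`(fderiv ℂ (ch j ∘ φ.symm) x v).2 = 0`. `K_eq`: the chosen chart and `ch j` are compared by `kernel_inv` (applied to `fderiv ℂ (ch j ∘ φ.symm) x v`, `CC.tr_comp`, `D_inj`).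
`K_change`: `K_eq` for both charts with the same `j` (`off_P`), `CC.tr_comp`; `N` of the image vector is `0` by `N_change`. `K_smul`: `K_eq` for both vectors (`N_smul`), `kn` is
homogeneous. `K_pos`: `kn_pos` (the first component of the image vector is not `0`: `D_inj`); `pt (a j) x' = x'` for `x'.1 = 0` (`pt_zero`), so `x' ∈ U j` by `maps`.
`K_cont`, `K_sub`: take `j` at `φ.symm (x z₀)`, `loc_rep`; near `z₀` the values are `kn (a j) (h j)` of the two analytic functions (`K_eq`), `kn_cont`, `kn_sub`.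
-/

set_option autoImplicit false

open Set Filter Topology Metric
open scoped ContDiff Manifold

namespace Pool.Agent.Nef6.SM

variable {n : ℕ} {Y : Type} [TopologicalSpace Y] [ChartedSpace (E n) Y]

open Classical in
/-- the renormalised length of a vector of the kernel, in an arbitrary holomorphic chart -/
noncomputable def SingularMetric.K (X : SingularMetric n Y) (φ : Chart n Y) (x v : E n) : ℝ :=
  if h : ∃ j, φ.symm x ∈ (X.ch j).source then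
    kn (X.a h.choose) (X.h h.choose) (X.ch h.choose (φ.symm x))
      (fderiv ℂ (X.ch h.choose ∘ φ.symm) x v)
  else 0

variable [IsManifold 𝓘(ℂ, E n) ω Y] (X : SingularMetric n Y)

/-- the data of a vector of the kernel in the chart `ch j` -/
private theorem C9_ker {φ : Chart n Y} (hφ : φ ∈ Charts (E n) Y) {x : E n} (hx : x ∈ φ.target)
    {j : X.J} (hj : φ.symm x ∈ (X.ch j).source) {v : E n} (hv : v ≠ 0) (h0 : X.N φ x v = 0) :
    1 < X.a j ∧ (X.ch j (φ.symm x)).1 = 0 ∧ (fderiv ℂ (X.ch j ∘ φ.symm) x v).2 = 0 ∧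
      fderiv ℂ (X.ch j ∘ φ.symm) x v ≠ 0 ∧ X.ch j (φ.symm x) ∈ X.U j := by
  obtain ⟨h1, h2, h3⟩ := (N_zero X hφ hx hj hv).1 h0
  refine ⟨h1, h2, h3, fun h4 => hv ?_, ?_⟩
  · refine D_inj hφ (X.hol j) (φ.map_target hx) hj ?_
    rw [φ.right_inv hx]
    exact h4
  · have h5 := X.maps j _ ((X.ch j).map_source hj)
    rwa [pt_zero h1 h2] at h5

theorem K_eq {φ : Chart n Y} (hφ : φ ∈ Charts (E n) Y) {x : E n} (hx : x ∈ φ.target) {j : X.J}
    (hj : φ.symm x ∈ (X.ch j).source) {v : E n} (hv : v ≠ 0) (h0 : X.N φ x v = 0) :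
    X.K φ x v = kn (X.a j) (X.h j) (X.ch j (φ.symm x)) (fderiv ℂ (X.ch j ∘ φ.symm) x v) := by
  have hex : ∃ j, φ.symm x ∈ (X.ch j).source := ⟨j, hj⟩
  unfold SingularMetric.K
  rw [dif_pos hex]
  have hi := hex.choose_spec
  generalize hex.choose = i at hi ⊢
  have hy : φ.symm x ∈ φ.source := φ.map_target hx
  obtain ⟨h1, h2, h3, h4, -⟩ := C9_ker X hφ hx hj hv h0
  have h5 := kernel_inv X hj hi h1 h2 h4 h3
  have h6 := CC.tr_comp hφ (X.hol j) (X.hol i) hy hj hi v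
  rw [φ.right_inv hx] at h6
  rw [h6] at h5
  exact h5

theorem K_change {φ ψ : Chart n Y} (hφ : φ ∈ Charts (E n) Y) (hψ : ψ ∈ Charts (E n) Y) {y : Y}
    (hy : y ∈ φ.source) (hy' : y ∈ ψ.source) (hP : y ∉ X.P) {v : E n} (hv : v ≠ 0)
    (h0 : X.N φ (φ y) v = 0) :
    X.K ψ (ψ y) (fderiv ℂ (ψ ∘ φ.symm) (φ y) v) = X.K φ (φ y) v := by
  obtain ⟨j, hj⟩ := off_P X hP
  have hv' : fderiv ℂ (ψ ∘ φ.symm) (φ y) v ≠ 0 := fun h => hv (D_inj hφ hψ hy hy' h)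
  have h0' : X.N ψ (ψ y) (fderiv ℂ (ψ ∘ φ.symm) (φ y) v) = 0 := by
    rw [N_change X hφ hψ hy hy' hP, h0]
  rw [K_eq X hψ (ψ.map_source hy') (j := j) (by rw [ψ.left_inv hy']; exact hj) hv' h0',
    K_eq X hφ (φ.map_source hy) (j := j) (by rw [φ.left_inv hy]; exact hj) hv h0,
    ψ.left_inv hy', φ.left_inv hy, CC.tr_comp hφ hψ (X.hol j) hy hy' hj v]

theorem K_smul {φ : Chart n Y} (hφ : φ ∈ Charts (E n) Y) {x : E n} (hx : x ∈ φ.target)
    (hP : φ.symm x ∉ X.P) {c : ℂ} (hc : c ≠ 0) {v : E n} (hv : v ≠ 0) (h0 : X.N φ x v = 0) :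
    X.K φ x (c • v) = ‖c‖ * X.K φ x v := by
  obtain ⟨j, hj⟩ := off_P X hP
  have h1 : X.N φ x (c • v) = 0 := by rw [N_smul X hφ hx hP, h0, mul_zero]
  rw [K_eq X hφ hx hj (smul_ne_zero hc hv) h1, K_eq X hφ hx hj hv h0, map_smul]
  unfold kn
  rw [Prod.smul_fst, norm_smul]
  ring

theorem K_pos {φ : Chart n Y} (hφ : φ ∈ Charts (E n) Y) {x : E n} (hx : x ∈ φ.target)
    (hP : φ.symm x ∉ X.P) {v : E n} (hv : v ≠ 0) (h0 : X.N φ x v = 0) : 0 < X.K φ x v := by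
  obtain ⟨j, hj⟩ := off_P X hP
  obtain ⟨h1, h2, h3, h4, h5⟩ := C9_ker X hφ hx hj hv h0
  rw [K_eq X hφ hx hj hv h0]
  refine kn_pos (X.metric j) h1 h5 fun h6 => h4 ?_
  exact Prod.ext h6 h3

/-- the renormalised metric along a disc, in the chart `ch j` -/
private theorem C9_loc {φ : Chart n Y} (hφ : φ ∈ Charts (E n) Y) {x v : ℂ → E n} {z₀ : ℂ}
    (hx : AnalyticAt ℂ x z₀) (hv : AnalyticAt ℂ v z₀) (ht : x z₀ ∈ φ.target)
    (hP : φ.symm (x z₀) ∉ X.P) (hv0 : v z₀ ≠ 0) (h0 : ∀ᶠ z in 𝓝 z₀, X.N φ (x z) (v z) = 0) :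
    ∃ j : X.J, 1 < X.a j ∧ AnalyticAt ℂ (fun z => X.ch j (φ.symm (x z))) z₀ ∧
      AnalyticAt ℂ (fun z => fderiv ℂ (X.ch j ∘ φ.symm) (x z) (v z)) z₀ ∧
      X.ch j (φ.symm (x z₀)) ∈ X.U j ∧ (fderiv ℂ (X.ch j ∘ φ.symm) (x z₀) (v z₀)).1 ≠ 0 ∧
      ∀ᶠ z in 𝓝 z₀, X.K φ (x z) (v z) = kn (X.a j) (X.h j) (X.ch j (φ.symm (x z)))
        (fderiv ℂ (X.ch j ∘ φ.symm) (x z) (v z)) := by
  obtain ⟨j, hj⟩ := off_P X hP
  obtain ⟨hf, hg, he⟩ := loc_rep X hφ hx hv ht hj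
  obtain ⟨h1, h2, h3, h4, h5⟩ := C9_ker X hφ ht hj hv0 h0.self_of_nhds
  refine ⟨j, h1, hf, hg, h5, fun h6 => h4 (Prod.ext h6 h3), ?_⟩
  filter_upwards [he, h0, hv.continuousAt.eventually_ne hv0] with z hz1 hz2 hz3
  exact K_eq X hφ hz1.1 hz1.2.1 hz3 hz2

theorem K_cont {φ : Chart n Y} (hφ : φ ∈ Charts (E n) Y) {x v : ℂ → E n} {z₀ : ℂ}
    (hx : AnalyticAt ℂ x z₀) (hv : AnalyticAt ℂ v z₀) (ht : x z₀ ∈ φ.target)
    (hP : φ.symm (x z₀) ∉ X.P) (hv0 : v z₀ ≠ 0) (h0 : ∀ᶠ z in 𝓝 z₀, X.N φ (x z) (v z) = 0) :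
    ContinuousAt (fun z => X.K φ (x z) (v z)) z₀ := by
  obtain ⟨j, h1, hf, hg, h5, h6, he⟩ := C9_loc X hφ hx hv ht hP hv0 h0
  refine (kn_cont (X.metric j) h1 hf.continuousAt hg.continuousAt h5).congr ?_
  filter_upwards [he] with z hz
  exact hz.symm

theorem K_sub {φ : Chart n Y} (hφ : φ ∈ Charts (E n) Y) {x v : ℂ → E n} {z₀ : ℂ}
    (hx : AnalyticAt ℂ x z₀) (hv : AnalyticAt ℂ v z₀) (ht : x z₀ ∈ φ.target)
    (hP : φ.symm (x z₀) ∉ X.P) (hv0 : v z₀ ≠ 0) (h0 : ∀ᶠ z in 𝓝 z₀, X.N φ (x z) (v z) = 0) :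
    ∃ ρ > 0, ∀ b ∈ ball z₀ ρ, ∀ r, 0 < r → r < ρ →
      Real.log (X.K φ (x b) (v b)) ≤
        Real.circleAverage (fun z => Real.log (X.K φ (x z) (v z))) b r := by
  obtain ⟨j, h1, hf, hg, h5, h6, he⟩ := C9_loc X hφ hx hv ht hP hv0 h0
  obtain ⟨ρ, hρ, hsub⟩ := kn_sub (X.metric j) h1 hf hg h5 h6
  obtain ⟨ε, hε, hball⟩ := Metric.eventually_nhds_iff_ball.1 he
  refine ⟨min ρ (ε / 2), lt_min hρ (half_pos hε), fun b hb r hr hr2 => ?_⟩
  have hb1 : dist b z₀ < ρ := lt_of_lt_of_le (mem_ball.1 hb) (min_le_left _ _)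
  have hb2 : dist b z₀ < ε / 2 := lt_of_lt_of_le (mem_ball.1 hb) (min_le_right _ _)
  have hr3 : r < ρ := lt_of_lt_of_le hr2 (min_le_left _ _)
  have hr4 : r < ε / 2 := lt_of_lt_of_le hr2 (min_le_right _ _)
  have h2 := hsub b (mem_ball.2 hb1) r hr hr3
  have h3 : b ∈ ball z₀ ε := mem_ball.2 (by linarith)
  rw [hball b h3]
  refine h2.trans (le_of_eq ?_)
  refine Real.circleAverage_congr_sphere fun z hz => ?_
  have h4 : dist z b = r := by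
    rw [mem_sphere.1 hz, abs_of_pos hr]
  have h7 : z ∈ ball z₀ ε := by
    have h8 := dist_triangle z b z₀
    exact mem_ball.2 (by linarith)
  show Real.log _ = Real.log _
  rw [hball z h7]

end Pool.Agent.Nef6.SM
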