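import Pool.Agent.H.MP_6a1d6a_ag.SM.C5
import Pool.Agent.H.MP_6a1d6a_ag.SM.C8
import Pool.Agent.H.MP_6a1d6a_ag.SM.C9
import Pool.Agent.H.MP_6a1d6a_ag.SM.A4
import Pool.Agent.H.MP_6a1d6a_ag.SM.A5

/-!
MP_6a1d6a_ag/SM, module C10: the second case: the length of the field vanishes identically.

`ku X ν σ c = X.K (chartAt ..) ..` like `nu`. `sum_le` with `m = o`, `u c = log (ku c)`. Let `c ∈ C`, `φ` the chart of `bound_P` if `ν c ∈ P`, else `chartAt (E n) (ν c)`. Take `R`, `g`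
from `loc_curve`, `R` so small that for `z ≠ z₀` in the ball `ν (χ.symm z) ∉ P` (`hP`) and `nu (χ.symm z) = 0` (`hT`), so `X.N φ (x z) (g z) = 0`, `x z = φ (ν (χ.symm z))` (`nu_loc`); also for
`z = z₀` if `ν c ∉ P` (`N_cont`). For `z ≠ z₀` in the ball: `ku (χ.symm z) = X.K φ (x z) (σ φ ..) = ‖z - z₀‖ ^ (o c) * f z`, `f z = X.K φ (x z) (g z) > 0` (`K_change` with the transformation
rule of `σ`, `K_smul`, `K_pos`). `wform_log` for `f` on the punctured ball: continuity `K_cont`, `PSub` from `K_sub` and continuity, no zeros; `f ≤ M`: if `ν c ∉ P`, `f` is continuous at `z₀` too (shrink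
`R`); if `ν c ∈ P`, `bound_P` and `K_eq` (with `off_P`; `N_zero` gives `1 < a j` and the other conditions; `x z → φ p`, `x z ≠ φ p` for `z ≠ z₀` near `z₀` since `ν (χ.symm z) ∉ P`), `f z ≤ K ‖g z‖`, `g` bounded.
-/

set_option autoImplicit false

open Set Filter Topology Metric MeasureTheory
open scoped ContDiff Manifold

namespace Pool.Agent.Nef6.SM

variable {n : ℕ} {Y : Type} [TopologicalSpace Y] [ChartedSpace (E n) Y]
  [IsManifold 𝓘(ℂ, E n) ω Y] (X : SingularMetric n Y)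
  {C : Type} [TopologicalSpace C] [ChartedSpace ℂ C] [IsManifold 𝓘(ℂ) ω C]

/-- the renormalised length of `σ` at `c` -/
private noncomputable def C10_ku {n : ℕ} {Y : Type} [TopologicalSpace Y] [ChartedSpace (E n) Y]
    (X : SingularMetric n Y) {C : Type} (ν : C → Y) (σ : Chart n Y → C → E n) (c : C) : ℝ :=
  X.K (chartAt (E n) (ν c)) (chartAt (E n) (ν c) (ν c)) (σ (chartAt (E n) (ν c)) c)

omit [IsManifold 𝓘(ℂ) ω C] in
private theorem C10_tend (c : C) :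
    Tendsto (chartAt ℂ c).symm (𝓝[≠] (chartAt ℂ c c)) (𝓝[≠] c) := by
  have hct : chartAt ℂ c c ∈ (chartAt ℂ c).target := mem_chart_target ℂ c
  have hsymm : ContinuousAt (chartAt ℂ c).symm (chartAt ℂ c c) :=
    (chartAt ℂ c).symm.continuousAt hct
  have hsc : (chartAt ℂ c).symm (chartAt ℂ c c) = c :=
    (chartAt ℂ c).left_inv (mem_chart_source ℂ c)
  have hT : ∀ᶠ z in 𝓝 (chartAt ℂ c c), z ∈ (chartAt ℂ c).target :=
    (chartAt ℂ c).open_target.mem_nhds hct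
  refine tendsto_nhdsWithin_iff.2 ⟨?_, ?_⟩
  · have h1 : Tendsto (chartAt ℂ c).symm (𝓝 (chartAt ℂ c c)) (𝓝 c) := by
      have h2 := hsymm.tendsto
      rwa [hsc] at h2
    exact h1.mono_left nhdsWithin_le_nhds
  · filter_upwards [mem_nhdsWithin_of_mem_nhds hT, self_mem_nhdsWithin] with z hz hne
    intro he
    apply hne
    show z = chartAt ℂ c c
    rw [← (chartAt ℂ c).right_inv hz]
    exact congrArg _ he

omit [IsManifold 𝓘(ℂ) ω C] in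
private theorem C10_eq {ν : C → Y} {σ : Chart n Y → C → E n} {o : C → ℤ}
    (hσ : IsMeroField ν σ o) {φ : Chart n Y} (hφ : φ ∈ Charts (E n) Y) {c : C}
    (hc : ν c ∈ φ.source) (hP : ν c ∉ X.P) {t : ℂ} {k : ℤ} {v : E n} (ht : t ≠ 0) (hv : v ≠ 0)
    (h : σ φ c = t ^ k • v) (h0 : X.N φ (φ (ν c)) v = 0) :
    C10_ku X ν σ c = ‖t‖ ^ k * X.K φ (φ (ν c)) v := by
  have htk : t ^ k ≠ 0 := zpow_ne_zero _ ht
  have hx : φ (ν c) ∈ φ.target := φ.map_source hc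
  have hP' : φ.symm (φ (ν c)) ∉ X.P := by
    rw [φ.left_inv hc]
    exact hP
  have hs0 : σ φ c ≠ 0 := by
    rw [h]
    exact smul_ne_zero htk hv
  have hN : X.N φ (φ (ν c)) (σ φ c) = 0 := by
    rw [h, N_smul X hφ hx hP', h0, mul_zero]
  have h1 : chartAt (E n) (ν c) ∈ Charts (E n) Y :=
    IsManifold.chart_mem_maximalAtlas (I := 𝓘(ℂ, E n)) (n := ω) (ν c)
  unfold C10_ku
  rw [hσ.1 φ hφ _ h1 c hc (mem_chart_source (E n) (ν c)),
    K_change X hφ h1 hc (mem_chart_source (E n) (ν c)) hP hs0 hN, h,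
    K_smul X hφ hx hP' htk hv h0, norm_zpow]

omit [IsManifold 𝓘(ℂ) ω C] in
/-- the part of the proof after the choice of the chart: the bound `M` is given -/
private theorem C10_loc {ν : C → Y} {σ : Chart n Y → C → E n} {o : C → ℤ}
    (hσ : IsMeroField ν σ o) {φ : Chart n Y} (hφ : φ ∈ Charts (E n) Y) (c : C) {g : ℂ → E n}
    {R M : ℝ}
    (hb : ∀ z ∈ ball (chartAt ℂ c c) R, z ≠ chartAt ℂ c c →
      ν ((chartAt ℂ c).symm z) ∈ φ.source ∧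
        AnalyticAt ℂ (fun z => φ (ν ((chartAt ℂ c).symm z))) z ∧ AnalyticAt ℂ g z ∧ g z ≠ 0 ∧
        σ φ ((chartAt ℂ c).symm z) = (z - chartAt ℂ c c) ^ (o c) • g z ∧
        ν ((chartAt ℂ c).symm z) ∉ X.P ∧
        X.N φ (φ (ν ((chartAt ℂ c).symm z))) (g z) = 0 ∧
        X.K φ (φ (ν ((chartAt ℂ c).symm z))) (g z) ≤ M) :
    ∃ w : ℂ → ℝ, WForm w (chartAt ℂ c c) R ∧
        ∀ᵐ z : ℂ, z ∈ ball (chartAt ℂ c c) R →
          Real.log (C10_ku X ν σ ((chartAt ℂ c).symm z)) =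
            o c * Real.log ‖z - chartAt ℂ c c‖ + w z := by
  obtain ⟨z₀, hz₀⟩ : ∃ z₀, z₀ = chartAt ℂ c c := ⟨_, rfl⟩
  obtain ⟨x, hx⟩ : ∃ x : ℂ → E n, x = fun z => φ (ν ((chartAt ℂ c).symm z)) := ⟨_, rfl⟩
  have hxz : ∀ z, φ (ν ((chartAt ℂ c).symm z)) = x z := fun z => by rw [hx]
  rw [← hz₀] at hb ⊢
  have hO : IsOpen (ball z₀ R \ {z₀}) := isOpen_ball.sdiff isClosed_singleton
  have hmem : ∀ z ∈ ball z₀ R \ {z₀}, x z ∈ φ.target ∧ φ.symm (x z) ∉ X.P ∧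
      AnalyticAt ℂ x z ∧ AnalyticAt ℂ g z ∧ g z ≠ 0 ∧ X.N φ (x z) (g z) = 0 ∧
      X.K φ (x z) (g z) ≤ M := by
    rintro z ⟨hz, hne⟩
    obtain ⟨h1, h2, h3, h4, h5, h6, h7, h8⟩ := hb z hz hne
    rw [← hx] at h2
    rw [hxz] at h7 h8
    have h9 : x z ∈ φ.target := by
      rw [← hxz]
      exact φ.map_source h1
    refine ⟨h9, ?_, h2, h3, h4, h7, h8⟩
    rw [← hxz, φ.left_inv h1]
    exact h6
  have hN0 : ∀ z ∈ ball z₀ R \ {z₀}, ∀ᶠ z' in 𝓝 z, X.N φ (x z') (g z') = 0 := by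
    intro z hz
    filter_upwards [hO.mem_nhds hz] with z' hz'
    exact (hmem z' hz').2.2.2.2.2.1
  have hpos : ∀ z ∈ ball z₀ R \ {z₀}, 0 < X.K φ (x z) (g z) := by
    intro z hz
    obtain ⟨h1, h2, _, _, h5, h6, _⟩ := hmem z hz
    exact K_pos X hφ h1 h2 h5 h6
  have hcont : ContinuousOn (fun z => X.K φ (x z) (g z)) (ball z₀ R \ {z₀}) := by
    intro z hz
    obtain ⟨h1, h2, h3, h4, h5, h6, _⟩ := hmem z hz
    exact (K_cont X hφ h3 h4 h1 h2 h5 (hN0 z hz)).continuousWithinAt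
  have hps : PSub (fun z => X.K φ (x z) (g z)) (ball z₀ R \ {z₀}) := by
    intro z hz _
    obtain ⟨h1, h2, h3, h4, h5, h6, _⟩ := hmem z hz
    obtain ⟨ρ, hρ, hsub⟩ := K_sub X hφ h3 h4 h1 h2 h5 (hN0 z hz)
    obtain ⟨ε, hε, hball⟩ := Metric.isOpen_iff.1 hO z hz
    refine ⟨min ρ (ε / 2), lt_min hρ (by positivity), ?_, ?_⟩
    · intro b hbb
      have h7 : b ∈ ball z₀ R \ {z₀} := by
        apply hball
        rw [mem_ball] at hbb ⊢
        have := min_le_right ρ (ε / 2)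
        linarith
      exact ⟨h7, (hpos b h7).ne'⟩
    · intro b hbb r hr0 hr
      exact hsub b (ball_subset_ball (min_le_left _ _) hbb) r hr0 (hr.trans_le (min_le_left _ _))
  refine ⟨fun z => Real.log (X.K φ (x z) (g z)), wform_log (M := M) hcont
    (fun z hz => ⟨(hpos z hz).le, (hmem z hz).2.2.2.2.2.2⟩) hps ?_, ?_⟩
  · intro z hz
    filter_upwards [mem_nhdsWithin_of_mem_nhds (hO.mem_nhds hz)] with z' hz'
    exact (hpos z' hz').ne'
  · have hnull : ∀ᵐ z : ℂ, z ≠ z₀ := by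
      rw [ae_iff]
      have h1 : {z : ℂ | ¬ z ≠ z₀} = {z₀} := by
        ext z
        simp
      rw [h1]
      exact measure_singleton z₀
    filter_upwards [hnull] with z hne hz
    obtain ⟨h1, h2, h3, h4, h5, h6, h7, h8⟩ := hb z hz hne
    have ht : z - z₀ ≠ 0 := sub_ne_zero.2 hne
    have h9 := C10_eq X hσ hφ h1 h6 ht h4 h5 h7
    rw [hxz] at h9
    rw [h9, Real.log_mul (zpow_ne_zero _ (norm_ne_zero_iff.2 ht)) (hpos z ⟨hz, hne⟩).ne',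
      Real.log_zpow]

omit [IsManifold 𝓘(ℂ) ω C] in
/-- the bound near a point over the exceptional set -/
private theorem C10_bddP (hn : 0 < n) {p : Y} (hp : p ∈ X.P) : ∃ φ ∈ Charts (E n) Y, p ∈ φ.source ∧
    ∃ K : ℝ, 0 ≤ K ∧ ∀ᶠ x in 𝓝[≠] (φ p), ∀ v : E n, v ≠ 0 → X.N φ x v = 0 →
      X.K φ x v ≤ K * ‖v‖ := by
  obtain ⟨φ, hφ, hpφ, K, hK, h⟩ := bound_P X hn hp
  refine ⟨φ, hφ, hpφ, K, hK, ?_⟩
  filter_upwards [h] with x hx v hv h0
  obtain ⟨hxt, hxP, hx⟩ := hx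
  obtain ⟨j, hj⟩ := off_P X hxP
  obtain ⟨h1, h2, h3⟩ := (N_zero X hφ hxt hj hv).1 h0
  rw [K_eq X hφ hxt hj hv h0]
  exact hx j hj h1 h2 v h3

/-- the choice of the chart, the radius and the bound -/
private theorem C10_ex (hn : 0 < n) {ν : C → Y}
    (hν : ContMDiff 𝓘(ℂ) 𝓘(ℂ, E n) ω ν) {σ : Chart n Y → C → E n} {o : C → ℤ}
    (hσ : IsMeroField ν σ o) (hP : ∀ c, ∀ᶠ c' in 𝓝[≠] c, ν c' ∉ X.P)
    (hT : ∀ c, ∀ᶠ c' in 𝓝[≠] c, nu X ν σ c' = 0) (c : C) :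
    ∃ φ ∈ Charts (E n) Y, ∃ (R M : ℝ) (g : ℂ → E n), 0 < R ∧
      ball (chartAt ℂ c c) R ⊆ (chartAt ℂ c).target ∧
      ∀ z ∈ ball (chartAt ℂ c c) R, z ≠ chartAt ℂ c c →
      o ((chartAt ℂ c).symm z) = 0 ∧
      ν ((chartAt ℂ c).symm z) ∈ φ.source ∧
        AnalyticAt ℂ (fun z => φ (ν ((chartAt ℂ c).symm z))) z ∧ AnalyticAt ℂ g z ∧ g z ≠ 0 ∧
        σ φ ((chartAt ℂ c).symm z) = (z - chartAt ℂ c c) ^ (o c) • g z ∧
        ν ((chartAt ℂ c).symm z) ∉ X.P ∧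
        X.N φ (φ (ν ((chartAt ℂ c).symm z))) (g z) = 0 ∧
        X.K φ (φ (ν ((chartAt ℂ c).symm z))) (g z) ≤ M := by
  have hsc : (chartAt ℂ c).symm (chartAt ℂ c c) = c :=
    (chartAt ℂ c).left_inv (mem_chart_source ℂ c)
  -- the common part
  have main : ∀ φ ∈ Charts (E n) Y, ν c ∈ φ.source →
      ∃ (R : ℝ) (g : ℂ → E n), 0 < R ∧ ball (chartAt ℂ c c) R ⊆ (chartAt ℂ c).target ∧
      (∀ z ∈ ball (chartAt ℂ c c) R, ν ((chartAt ℂ c).symm z) ∈ φ.source ∧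
        AnalyticAt ℂ (fun z => φ (ν ((chartAt ℂ c).symm z))) z ∧ AnalyticAt ℂ g z ∧ g z ≠ 0) ∧
      ∀ z ∈ ball (chartAt ℂ c c) R, z ≠ chartAt ℂ c c →
      o ((chartAt ℂ c).symm z) = 0 ∧
      σ φ ((chartAt ℂ c).symm z) = (z - chartAt ℂ c c) ^ (o c) • g z ∧
        ν ((chartAt ℂ c).symm z) ∉ X.P ∧
        X.N φ (φ (ν ((chartAt ℂ c).symm z))) (g z) = 0 := by
    intro φ hφ hc
    obtain ⟨R, g, hR, hsub, hball⟩ := loc_curve hν hσ c hφ hc
    have h1 := (C10_tend c).eventually ((hP c).and (hT c))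
    rw [eventually_nhdsWithin_iff] at h1
    obtain ⟨R', hR', hb'⟩ := Metric.eventually_nhds_iff_ball.1 h1
    refine ⟨min R R', g, lt_min hR hR', (ball_subset_ball (min_le_left _ _)).trans hsub, ?_, ?_⟩
    · intro z hz
      obtain ⟨h2, h3, h4, h5, _⟩ := hball z (ball_subset_ball (min_le_left _ _) hz)
      exact ⟨h2, h3, h4, h5⟩
    · intro z hz hne
      obtain ⟨h2, h3, h4, h5, h6⟩ := hball z (ball_subset_ball (min_le_left _ _) hz)
      obtain ⟨h7, h8⟩ := hb' z (ball_subset_ball (min_le_right _ _) hz) hne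
      obtain ⟨h9, h10⟩ := h6 hne
      refine ⟨h10, h9, h7, ?_⟩
      have h11 := nu_loc X hσ hφ h2 h7 h9
      rw [h8] at h11
      have h12 : ‖z - chartAt ℂ c c‖ ^ (o c) ≠ 0 :=
        zpow_ne_zero _ (norm_ne_zero_iff.2 (sub_ne_zero.2 hne))
      exact (mul_eq_zero.1 h11.symm).resolve_left h12
  -- it is enough to have a bound near the centre
  have fin : ∀ φ ∈ Charts (E n) Y, ∀ (R : ℝ) (g : ℂ → E n), 0 < R →
      ball (chartAt ℂ c c) R ⊆ (chartAt ℂ c).target →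
      (∀ z ∈ ball (chartAt ℂ c c) R, ν ((chartAt ℂ c).symm z) ∈ φ.source ∧
        AnalyticAt ℂ (fun z => φ (ν ((chartAt ℂ c).symm z))) z ∧ AnalyticAt ℂ g z ∧ g z ≠ 0) →
      (∀ z ∈ ball (chartAt ℂ c c) R, z ≠ chartAt ℂ c c →
      o ((chartAt ℂ c).symm z) = 0 ∧
      σ φ ((chartAt ℂ c).symm z) = (z - chartAt ℂ c c) ^ (o c) • g z ∧
        ν ((chartAt ℂ c).symm z) ∉ X.P ∧
        X.N φ (φ (ν ((chartAt ℂ c).symm z))) (g z) = 0) →
      (∃ M : ℝ, ∀ᶠ z in 𝓝[≠] (chartAt ℂ c c),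
        X.K φ (φ (ν ((chartAt ℂ c).symm z))) (g z) ≤ M) →
      ∃ φ ∈ Charts (E n) Y, ∃ (R M : ℝ) (g : ℂ → E n), 0 < R ∧
      ball (chartAt ℂ c c) R ⊆ (chartAt ℂ c).target ∧
      ∀ z ∈ ball (chartAt ℂ c c) R, z ≠ chartAt ℂ c c →
      o ((chartAt ℂ c).symm z) = 0 ∧
      ν ((chartAt ℂ c).symm z) ∈ φ.source ∧
        AnalyticAt ℂ (fun z => φ (ν ((chartAt ℂ c).symm z))) z ∧ AnalyticAt ℂ g z ∧ g z ≠ 0 ∧
        σ φ ((chartAt ℂ c).symm z) = (z - chartAt ℂ c c) ^ (o c) • g z ∧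
        ν ((chartAt ℂ c).symm z) ∉ X.P ∧
        X.N φ (φ (ν ((chartAt ℂ c).symm z))) (g z) = 0 ∧
        X.K φ (φ (ν ((chartAt ℂ c).symm z))) (g z) ≤ M := by
    rintro φ hφ R g hR hsub hb hb' ⟨M, hM⟩
    rw [eventually_nhdsWithin_iff] at hM
    obtain ⟨R', hR', hM'⟩ := Metric.eventually_nhds_iff_ball.1 hM
    refine ⟨φ, hφ, min R R', M, g, lt_min hR hR',
      (ball_subset_ball (min_le_left _ _)).trans hsub, ?_⟩
    intro z hz hne
    obtain ⟨h1, h2, h3, h4⟩ := hb z (ball_subset_ball (min_le_left _ _) hz)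
    obtain ⟨h5, h6, h7, h8⟩ := hb' z (ball_subset_ball (min_le_left _ _) hz) hne
    exact ⟨h5, h1, h2, h3, h4, h6, h7, h8,
      hM' z (ball_subset_ball (min_le_right _ _) hz) hne⟩
  by_cases hcP : ν c ∈ X.P
  · obtain ⟨φ, hφ, hpφ, K, hK, hKb⟩ := C10_bddP X hn hcP
    obtain ⟨R, g, hR, hsub, hb, hb'⟩ := main φ hφ hpφ
    refine fin φ hφ R g hR hsub hb hb' ⟨K * (‖g (chartAt ℂ c c)‖ + 1), ?_⟩
    have hz0 : chartAt ℂ c c ∈ ball (chartAt ℂ c c) R := mem_ball_self hR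
    obtain ⟨h1, h2, h3, h4⟩ := hb _ hz0
    have hbR : ∀ᶠ z in 𝓝[≠] (chartAt ℂ c c), z ∈ ball (chartAt ℂ c c) R :=
      mem_nhdsWithin_of_mem_nhds (ball_mem_nhds _ hR)
    have hgb : ∀ᶠ z in 𝓝[≠] (chartAt ℂ c c), ‖g z‖ < ‖g (chartAt ℂ c c)‖ + 1 :=
      mem_nhdsWithin_of_mem_nhds (h3.continuousAt.norm.eventually_lt continuousAt_const
        (lt_add_one _))
    have htend : Tendsto (fun z => φ (ν ((chartAt ℂ c).symm z))) (𝓝[≠] (chartAt ℂ c c))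
        (𝓝[≠] (φ (ν c))) := by
      refine tendsto_nhdsWithin_iff.2 ⟨?_, ?_⟩
      · have h5 := h2.continuousAt.tendsto
        rw [hsc] at h5
        exact h5.mono_left nhdsWithin_le_nhds
      · filter_upwards [hbR, self_mem_nhdsWithin] with z hz hne he
        have h6 : ν ((chartAt ℂ c).symm z) = ν c :=
          φ.injOn (hb z hz).1 hpφ he
        have h7 := (hb' z hz hne).2.2.1
        rw [h6] at h7
        exact h7 hcP
    filter_upwards [hbR, hgb, htend.eventually hKb, self_mem_nhdsWithin] with z hz hgz hKz hne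
    have h8 := hKz (g z) (hb z hz).2.2.2 (hb' z hz hne).2.2.2
    exact h8.trans (mul_le_mul_of_nonneg_left hgz.le hK)
  · have hφ : chartAt (E n) (ν c) ∈ Charts (E n) Y :=
      IsManifold.chart_mem_maximalAtlas (I := 𝓘(ℂ, E n)) (n := ω) (ν c)
    obtain ⟨R, g, hR, hsub, hb, hb'⟩ := main _ hφ (mem_chart_source (E n) (ν c))
    refine fin _ hφ R g hR hsub hb hb' ?_
    obtain ⟨φ, hφd⟩ : ∃ φ, φ = chartAt (E n) (ν c) := ⟨_, rfl⟩
    rw [← hφd] at hb hb' hφ ⊢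
    have hz0 : chartAt ℂ c c ∈ ball (chartAt ℂ c c) R := mem_ball_self hR
    obtain ⟨h1, h2, h3, h4⟩ := hb _ hz0
    have hbR : ∀ᶠ z in 𝓝[≠] (chartAt ℂ c c), z ∈ ball (chartAt ℂ c c) R :=
      mem_nhdsWithin_of_mem_nhds (ball_mem_nhds _ hR)
    have ht : φ (ν ((chartAt ℂ c).symm (chartAt ℂ c c))) ∈ φ.target := φ.map_source h1
    have hPz : φ.symm (φ (ν ((chartAt ℂ c).symm (chartAt ℂ c c)))) ∉ X.P := by
      rw [φ.left_inv h1, hsc]
      exact hcP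
    have hNc := N_cont X hφ h2 h3 ht hPz
    have hN1 : ∀ᶠ z in 𝓝[≠] (chartAt ℂ c c),
        X.N φ (φ (ν ((chartAt ℂ c).symm z))) (g z) = 0 := by
      filter_upwards [hbR, self_mem_nhdsWithin] with z hz hne
      exact (hb' z hz hne).2.2.2
    have hN0 : X.N φ (φ (ν ((chartAt ℂ c).symm (chartAt ℂ c c)))) (g (chartAt ℂ c c)) = 0 := by
      have h5 : Tendsto (fun z => X.N φ (φ (ν ((chartAt ℂ c).symm z))) (g z))
          (𝓝[≠] (chartAt ℂ c c))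
          (𝓝 (X.N φ (φ (ν ((chartAt ℂ c).symm (chartAt ℂ c c)))) (g (chartAt ℂ c c)))) :=
        hNc.tendsto.mono_left nhdsWithin_le_nhds
      refine tendsto_nhds_unique h5 (Tendsto.congr' ?_ tendsto_const_nhds)
      filter_upwards [hN1] with z hz
      exact hz.symm
    have hN2 : ∀ᶠ z in 𝓝 (chartAt ℂ c c),
        X.N φ (φ (ν ((chartAt ℂ c).symm z))) (g z) = 0 := by
      rw [eventually_nhdsWithin_iff] at hN1
      filter_upwards [hN1] with z hz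
      by_cases hne : z = chartAt ℂ c c
      · rw [hne]
        exact hN0
      · exact hz hne
    have hKc := K_cont X hφ h2 h3 ht hPz h4 hN2
    refine ⟨X.K φ (φ (ν ((chartAt ℂ c).symm (chartAt ℂ c c)))) (g (chartAt ℂ c c)) + 1, ?_⟩
    have h6 : ∀ᶠ z in 𝓝 (chartAt ℂ c c), X.K φ (φ (ν ((chartAt ℂ c).symm z))) (g z) <
        X.K φ (φ (ν ((chartAt ℂ c).symm (chartAt ℂ c c)))) (g (chartAt ℂ c c)) + 1 :=
      hKc.eventually_lt continuousAt_const (lt_add_one _)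
    filter_upwards [mem_nhdsWithin_of_mem_nhds h6] with z hz
    exact hz.le

theorem case_kernel [CompactSpace C] [T2Space C] (hn : 0 < n) {ν : C → Y}
    (hν : ContMDiff 𝓘(ℂ) 𝓘(ℂ, E n) ω ν) {σ : Chart n Y → C → E n} {o : C → ℤ}
    (hσ : IsMeroField ν σ o) (hP : ∀ c, ∀ᶠ c' in 𝓝[≠] c, ν c' ∉ X.P)
    (hT : ∀ c, ∀ᶠ c' in 𝓝[≠] c, nu X ν σ c' = 0) : ∑ᶠ c, o c ≤ 0 := by
  refine sum_le (u := fun c => Real.log (C10_ku X ν σ c)) fun c => ?_
  obtain ⟨φ, hφ, R, M, g, hR, hsub, hb⟩ := C10_ex X hn hν hσ hP hT c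
  exact ⟨R, hR, hsub, fun z hz hne => (hb z hz hne).1,
    C10_loc X hσ hφ c fun z hz hne => (hb z hz hne).2⟩

end Pool.Agent.Nef6.SM
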