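import Pool.Agent.H.MP_6a1d6a_ag.SM.Base

/-!
MP_6a1d6a_ag, singular metrics of nonpositive curvature: definition.
-/

set_option autoImplicit false

open Set Filter Topology Metric
open scoped ContDiff Manifold

namespace Pool.Agent.Nef6.SM

variable {n : ℕ}

/-- A metric of nonpositive curvature on the complement of a discrete set `P` of the complex manifold `Y`, with cone
singularities of cone angles `≥ 2π` along a smooth divisor of `Y \ P` (which need not be closed in `Y`). It is given by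
holomorphic charts `ch j` which cover `Y \ P`. In the chart `ch j` it is the metric `h j` if `a j = 1`; if `a j > 1`, it is
the pull-back of a rotationally symmetric metric `h j` by `(z, y) ↦ (z^(a j), y)`, with the cone angle `2π a j` along
`z = 0`. -/
structure SingularMetric (n : ℕ) (Y : Type) [TopologicalSpace Y] [ChartedSpace (E n) Y] where
  /-- the exceptional points -/
  P : Set Y
  discrete : ∀ y, ∃ W, IsOpen W ∧ y ∈ W ∧ W ∩ P ⊆ {y}
  J : Type
  ch : J → Chart n Y
  a : J → ℝ
  U : J → Set (E n)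
  h : J → E n → E n → ℝ
  hol : ∀ j, ch j ∈ Charts (E n) Y
  cover : ∀ y, y ∉ P ↔ ∃ j, y ∈ (ch j).source
  metric : ∀ j, IsMetric (h j) (U j)
  maps : ∀ j, ∀ x ∈ (ch j).target, pt (a j) x ∈ U j
  cone : ∀ j, a j = 1 ∨ 1 < a j ∧ RotInv (h j) (U j)
  /-- the charts define the same metric -/
  compat : ∀ j k, ∀ y ∈ (ch j).source, y ∈ (ch k).source → ∀ v,
    pull (a k) (h k) (ch k y) (fderiv ℂ (ch k ∘ (ch j).symm) (ch j y) v) =
      pull (a j) (h j) (ch j y) v
  /-- near an exceptional point either the cone angles are `≤ 4π`, or the conical metrics of the directions `w = (w₁, 0)`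
  normal to the divisor are bounded (for instance at a node of the divisor where the metric is the pull-back of a
  rotationally symmetric metric by `(z, y) ↦ (z^a, y^b)`) -/
  exc : ∀ p ∈ P, (∃ W, IsOpen W ∧ p ∈ W ∧ ∀ j, ∀ y ∈ W, y ∈ (ch j).source → (ch j y).1 = 0 → a j ≤ 2) ∨
    ∃ φ ∈ Charts (E n) Y, p ∈ φ.source ∧ ∃ C : ℝ, 0 ≤ C ∧ ∀ j, ∀ y ∈ φ.source, y ∈ (ch j).source →
      1 < a j → (ch j y).1 = 0 → ∀ v, (fderiv ℂ (ch j ∘ φ.symm) (φ y) v).2 = 0 →
        (a j * h j (ch j y) (1, 0)) ^ (1 / a j) * ‖(fderiv ℂ (ch j ∘ φ.symm) (φ y) v).1‖ ≤ C * ‖v‖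

end Pool.Agent.Nef6.SM
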