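import Pool.Agent.H.MP_6a1d6a_ag.SM.C1
import Pool.Agent.H.MP_6a1d6a_ag.SM.B5
import Pool.Agent.H.MP_6a1d6a_ag.SM.B6

/-!
MP_6a1d6a_ag/SM, module C7: the cone angle and the renormalised metric on the kernel do not depend on the chart.

Let `x₀ = ch j y`, `t = ch k ∘ (ch j).symm`, `D = fderiv ℂ t x₀`, `v = (b, 0)`, `b ≠ 0`. `pull (a j) (h j) x₀ v = 0` (`pull_zero_iff`), so by `compat` `pull (a k) (h k) (ch k y) (D v) = 0`, and
`D v ≠ 0` (`D_inj`): `1 < a k`, `(ch k y).1 = 0`, `D v = (b', 0)`, `b' ≠ 0`.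
Inequality (*): `a j ≤ a k`, and if `a j = a k` then `a k h_k (ch k y) (1,0) ‖b'‖ ^ (a k) ≤ a j h_j x₀ (1,0) ‖b‖ ^ (a j)`. Proof: `F s = t (s b, x₀.2)` is analytic at `0` (`CC.tr_smooth`),
`F 0 = ch k y`, `deriv F s = fderiv ℂ t (s b, x₀.2) (b, 0)`, so `deriv F 0 = (b', 0)`, and `pull (a k) (h k) (F s) (deriv F s) = pull (a j) (h j) (s b, x₀.2) (b, 0)` for `s` near `0`
(`compat` at the point `(ch j).symm (s b, x₀.2)`). By `disc_exact` (for `j`) the right side divided by `‖s‖ ^ (a j - 1)` tends to `m_j = a j h_j x₀ (1,0) ‖b‖ ^ (a j)`, and by `disc_lower` (for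
`k`) it is `≥ κ ‖s‖ ^ (a k - 1)` for each `κ < m_k = a k h_k (ch k y) (1,0) ‖b'‖ ^ (a k)` (`m_k > 0`). If `a k < a j`, then `κ ≤ (m_j + 1) ‖s‖ ^ (a j - a k) → 0`, a contradiction with
`κ > 0`. If equal, `κ ≤ m_j`.
Now (*) for the pair `k`, `j` and the vector `D v` (its image under `fderiv ℂ (ch j ∘ (ch k).symm)` is `v` by `CC.tr_comp`, `CC.tr_id`) gives the reverse inequalities. So
`a j = a k`, `m_j = m_k`, and `kn = m ^ (1/a)` (`Real.mul_rpow`, `(‖b‖ ^ a) ^ (1/a) = ‖b‖`).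
-/

set_option autoImplicit false

open Set Filter Topology Metric
open scoped ContDiff Manifold

namespace Pool.Agent.Nef6.SM

variable {n : ℕ} {Y : Type} [TopologicalSpace Y] [ChartedSpace (E n) Y]
  [IsManifold 𝓘(ℂ, E n) ω Y] (X : SingularMetric n Y)

/-- the image of a vector of the kernel -/
private theorem C7_ker {j k : X.J} {y : Y} (hj : y ∈ (X.ch j).source) (hk : y ∈ (X.ch k).source)
    (ha : 1 < X.a j) (h0 : (X.ch j y).1 = 0) {v : E n} (hv : v ≠ 0) (h2 : v.2 = 0) :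
    1 < X.a k ∧ (X.ch k y).1 = 0 ∧ fderiv ℂ (X.ch k ∘ (X.ch j).symm) (X.ch j y) v ≠ 0 ∧
      (fderiv ℂ (X.ch k ∘ (X.ch j).symm) (X.ch j y) v).2 = 0 := by
  have h1 := X.compat j k y hj hk v
  rw [(pull_zero_iff (X.metric j) (X.cone j) (X.maps j _ ((X.ch j).map_source hj)) v).2
    (Or.inr ⟨ha, h0, h2⟩)] at h1
  have h3 : fderiv ℂ (X.ch k ∘ (X.ch j).symm) (X.ch j y) v ≠ 0 := fun h =>
    hv (D_inj (X.hol j) (X.hol k) hj hk h)
  rcases (pull_zero_iff (X.metric k) (X.cone k) (X.maps k _ ((X.ch k).map_source hk)) _).1 h1 with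
    h | h
  · exact absurd h h3
  · exact ⟨h.1, h.2.1, h3, h.2.2⟩

private theorem C7_fst {v : E n} (hv : v ≠ 0) (h2 : v.2 = 0) : 0 < ‖v.1‖ :=
  norm_pos_iff.2 fun h => hv (Prod.ext h h2)

/-- the comparison along the disc -/
private theorem C7_key {j k : X.J} {y : Y} (hj : y ∈ (X.ch j).source) (hk : y ∈ (X.ch k).source)
    (ha : 1 < X.a j) (h0 : (X.ch j y).1 = 0) {v : E n} (hv : v ≠ 0) (h2 : v.2 = 0) {κ : ℝ}
    (hκ : κ < X.a k * X.h k (X.ch k y) (1, 0) *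
      ‖(fderiv ℂ (X.ch k ∘ (X.ch j).symm) (X.ch j y) v).1‖ ^ X.a k) (hle : X.a k ≤ X.a j) :
    κ ≤ X.a j * X.h j (X.ch j y) (1, 0) * ‖v.1‖ ^ X.a j * (0 : ℝ) ^ (X.a j - X.a k) := by
  obtain ⟨hak, h0k, hDv, hD2⟩ := C7_ker X hj hk ha h0 hv h2
  have hxt : X.ch j y ∈ (X.ch j).target := (X.ch j).map_source hj
  have hUj : X.ch j y ∈ X.U j := by
    have h3 := X.maps j _ hxt
    rwa [pt_zero ha h0] at h3
  have hUk : X.ch k y ∈ X.U k := by
    have h3 := X.maps k _ ((X.ch k).map_source hk)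
    rwa [pt_zero hak h0k] at h3
  have hrk : RotInv (X.h k) (X.U k) := by
    rcases X.cone k with h | h
    · exact absurd h (ne_of_gt hak)
    · exact h.2
  have hx0 : X.ch j y = (0, (X.ch j y).2) := Prod.ext h0 rfl
  have hv0 : v = (v.1, 0) := Prod.ext rfl h2
  -- the disc
  set t : E n → E n := X.ch k ∘ (X.ch j).symm with ht
  have htan : AnalyticAt ℂ t (X.ch j y) := (CC.tr_smooth (X.hol j) (X.hol k) hj hk).analyticAt
  have hty : t (X.ch j y) = X.ch k y := by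
    rw [ht, Function.comp_apply, (X.ch j).left_inv hj]
  have hpd : ∀ s : ℂ, HasDerivAt (fun s : ℂ => ((s * v.1, (X.ch j y).2) : E n)) v s := by
    intro s
    have h3 : HasDerivAt (fun s : ℂ => s * v.1) v.1 s := by
      have h4 := (hasDerivAt_id s).mul_const v.1
      rwa [one_mul] at h4
    have h4 := h3.prodMk (hasDerivAt_const s (X.ch j y).2)
    rw [hv0]
    exact h4
  have hpc : Continuous (fun s : ℂ => ((s * v.1, (X.ch j y).2) : E n)) := by fun_prop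
  have hp0 : ((((0 : ℂ) * v.1, (X.ch j y).2) : E n)) = X.ch j y := by
    rw [zero_mul]
    exact hx0.symm
  have hpt : Tendsto (fun s : ℂ => ((s * v.1, (X.ch j y).2) : E n)) (𝓝 0) (𝓝 (X.ch j y)) := by
    have h3 := hpc.tendsto 0
    rwa [hp0] at h3
  have hpan : AnalyticAt ℂ (fun s : ℂ => ((s * v.1, (X.ch j y).2) : E n)) 0 :=
    (analyticAt_id.mul analyticAt_const).prod analyticAt_const
  have hFan : AnalyticAt ℂ (fun s : ℂ => t (s * v.1, (X.ch j y).2)) 0 := by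
    refine AnalyticAt.comp (g := t) (f := fun s : ℂ => ((s * v.1, (X.ch j y).2) : E n)) ?_ hpan
    show AnalyticAt ℂ t (0 * v.1, (X.ch j y).2)
    rw [hp0]
    exact htan
  have hFd : ∀ s : ℂ, DifferentiableAt ℂ t (s * v.1, (X.ch j y).2) →
      deriv (fun s : ℂ => t (s * v.1, (X.ch j y).2)) s = fderiv ℂ t (s * v.1, (X.ch j y).2) v := by
    intro s hs
    exact (HasFDerivAt.comp_hasDerivAt s hs.hasFDerivAt (hpd s)).deriv
  have hF0 : t (0 * v.1, (X.ch j y).2) = X.ch k y := by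
    rw [hp0, hty]
  have hFd0 : deriv (fun s : ℂ => t (s * v.1, (X.ch j y).2)) 0 =
      ((fderiv ℂ t (X.ch j y) v).1, 0) := by
    rw [hFd 0 (by rw [hp0]; exact htan.differentiableAt), hp0]
    exact Prod.ext rfl hD2
  have hlow := disc_lower (X.metric k) hrk hak hFan (by rw [hF0]; exact hUk)
    (by rw [hF0]; exact h0k) hFd0 (κ := κ) (by rw [hF0]; exact hκ)
  have hex := disc_exact (X.metric j) ha (y := (X.ch j y).2) (by rw [← hx0]; exact hUj) v.1
  rw [← hx0, ← hv0] at hex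
  -- the two sides are equal
  have e1 : ∀ᶠ s in 𝓝 (0 : ℂ), ((s * v.1, (X.ch j y).2) : E n) ∈ (X.ch j).target :=
    hpt.eventually ((X.ch j).open_target.mem_nhds hxt)
  have e2 : ∀ᶠ s in 𝓝 (0 : ℂ), (X.ch j).symm (s * v.1, (X.ch j y).2) ∈ (X.ch k).source := by
    have h3 : Tendsto (fun s : ℂ => (X.ch j).symm (s * v.1, (X.ch j y).2)) (𝓝 0) (𝓝 y) := by
      have h4 := ((X.ch j).continuousAt_symm hxt).tendsto.comp hpt
      rwa [(X.ch j).left_inv hj] at h4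
    exact h3.eventually ((X.ch k).open_source.mem_nhds hk)
  have e3 : ∀ᶠ s in 𝓝 (0 : ℂ), DifferentiableAt ℂ t (s * v.1, (X.ch j y).2) :=
    (hpt.eventually htan.eventually_analyticAt).mono fun s hs => hs.differentiableAt
  have hmain : ∀ᶠ s in 𝓝[≠] (0 : ℂ),
      κ ≤ pull (X.a j) (X.h j) (s * v.1, (X.ch j y).2) v / ‖s‖ ^ (X.a j - 1) *
        ‖s‖ ^ (X.a j - X.a k) := by
    filter_upwards [hlow, e1.filter_mono nhdsWithin_le_nhds, e2.filter_mono nhdsWithin_le_nhds,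
      e3.filter_mono nhdsWithin_le_nhds, self_mem_nhdsWithin] with s hs k1 k2 k3 k4
    have hs0 : 0 < ‖s‖ := norm_pos_iff.2 k4
    have h3 := X.compat j k _ ((X.ch j).map_target k1) k2 v
    rw [(X.ch j).right_inv k1] at h3
    have h4 : pull (X.a k) (X.h k) (t (s * v.1, (X.ch j y).2))
        (deriv (fun s : ℂ => t (s * v.1, (X.ch j y).2)) s) =
        pull (X.a j) (X.h j) (s * v.1, (X.ch j y).2) v := by
      rw [hFd s k3]
      exact h3
    have h5 : κ * ‖s‖ ^ (X.a k - 1) ≤ pull (X.a j) (X.h j) (s * v.1, (X.ch j y).2) v :=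
      hs.trans h4.le
    have h6 : 0 < ‖s‖ ^ (X.a k - 1) := Real.rpow_pos_of_pos hs0 _
    have h7 : 0 < ‖s‖ ^ (X.a j - 1) := Real.rpow_pos_of_pos hs0 _
    have h8 : ‖s‖ ^ (X.a j - X.a k) = ‖s‖ ^ (X.a j - 1) / ‖s‖ ^ (X.a k - 1) := by
      rw [← Real.rpow_sub hs0]
      congr 1
      ring
    rw [h8, div_mul_div_comm, mul_comm (‖s‖ ^ (X.a j - 1)) (‖s‖ ^ (X.a k - 1)),
      mul_div_mul_right _ _ h7.ne', le_div_iff₀ h6]
    exact h5
  have hlim2 : Tendsto (fun s : ℂ => ‖s‖ ^ (X.a j - X.a k)) (𝓝[≠] 0)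
      (𝓝 ((0 : ℝ) ^ (X.a j - X.a k))) := by
    have h3 : Continuous (fun s : ℂ => ‖s‖ ^ (X.a j - X.a k)) :=
      (Real.continuous_rpow_const (by linarith)).comp continuous_norm
    have h4 := h3.tendsto 0
    rw [norm_zero] at h4
    exact h4.mono_left nhdsWithin_le_nhds
  exact ge_of_tendsto (hex.mul hlim2) hmain

omit [IsManifold 𝓘(ℂ, E n) ω Y] in
private theorem C7_mpos {k : X.J} {y : Y} (hk : y ∈ (X.ch k).source) (ha : 1 < X.a k)
    (h0 : (X.ch k y).1 = 0) {v : E n} (hv : v ≠ 0) (h2 : v.2 = 0) :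
    0 < X.a k * X.h k (X.ch k y) (1, 0) * ‖v.1‖ ^ X.a k := by
  have hU : X.ch k y ∈ X.U k := by
    have h3 := X.maps k _ ((X.ch k).map_source hk)
    rwa [pt_zero ha h0] at h3
  have h1 : 0 < X.h k (X.ch k y) (1, 0) := (X.metric k).pos _ hU _ fun h =>
    one_ne_zero (congrArg Prod.fst h)
  have h3 := C7_fst hv h2
  have h4 : 0 < X.a k := by linarith
  have h5 := Real.rpow_pos_of_pos h3 (X.a k)
  positivity

/-- the inequalities between the cone angles and the renormalised metrics -/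
private theorem C7_le {j k : X.J} {y : Y} (hj : y ∈ (X.ch j).source) (hk : y ∈ (X.ch k).source)
    (ha : 1 < X.a j) (h0 : (X.ch j y).1 = 0) {v : E n} (hv : v ≠ 0) (h2 : v.2 = 0) :
    X.a j ≤ X.a k ∧ (X.a j = X.a k → X.a k * X.h k (X.ch k y) (1, 0) *
      ‖(fderiv ℂ (X.ch k ∘ (X.ch j).symm) (X.ch j y) v).1‖ ^ X.a k ≤
      X.a j * X.h j (X.ch j y) (1, 0) * ‖v.1‖ ^ X.a j) := by
  obtain ⟨hak, h0k, hDv, hD2⟩ := C7_ker X hj hk ha h0 hv h2
  have hm := C7_mpos X hk hak h0k hDv hD2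
  refine ⟨?_, fun he => ?_⟩
  · by_contra hlt
    have hlt' : X.a k < X.a j := not_le.1 hlt
    have h3 := C7_key X hj hk ha h0 hv h2 (half_lt_self hm) hlt'.le
    have h4 : X.a j - X.a k ≠ 0 := (sub_pos.2 hlt').ne'
    rw [Real.zero_rpow h4, mul_zero] at h3
    linarith
  · by_contra hlt
    have hlt' := not_le.1 hlt
    obtain ⟨κ, h3, h4⟩ := exists_between hlt'
    have h5 := C7_key X hj hk ha h0 hv h2 h4 he.ge
    rw [he, sub_self, Real.rpow_zero, mul_one, ← he] at h5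
    linarith

private theorem C7_kn {a : ℝ} (ha : 0 < a) {c r : ℝ} (hc : 0 ≤ c) (hr : 0 ≤ r) :
    c ^ (1 / a) * r = (c * r ^ a) ^ (1 / a) := by
  rw [Real.mul_rpow hc (Real.rpow_nonneg hr _), ← Real.rpow_mul hr, mul_one_div_cancel ha.ne',
    Real.rpow_one]

theorem kernel_inv {j k : X.J} {y : Y} (hj : y ∈ (X.ch j).source) (hk : y ∈ (X.ch k).source)
    (ha : 1 < X.a j) (h0 : (X.ch j y).1 = 0) {v : E n} (hv : v ≠ 0) (h2 : v.2 = 0) :
    kn (X.a k) (X.h k) (X.ch k y) (fderiv ℂ (X.ch k ∘ (X.ch j).symm) (X.ch j y) v) =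
      kn (X.a j) (X.h j) (X.ch j y) v := by
  obtain ⟨hak, h0k, hDv, hD2⟩ := C7_ker X hj hk ha h0 hv h2
  obtain ⟨h3, h4⟩ := C7_le X hj hk ha h0 hv h2
  obtain ⟨h5, h6⟩ := C7_le X hk hj hak h0k hDv hD2
  rw [CC.tr_comp (X.hol j) (X.hol k) (X.hol j) hj hk hj v, CC.tr_id hj] at h6
  have he : X.a j = X.a k := le_antisymm h3 h5
  have hm := le_antisymm (h4 he) (h6 he.symm)
  have hUj : X.ch j y ∈ X.U j := by
    have h7 := X.maps j _ ((X.ch j).map_source hj)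
    rwa [pt_zero ha h0] at h7
  have hUk : X.ch k y ∈ X.U k := by
    have h7 := X.maps k _ ((X.ch k).map_source hk)
    rwa [pt_zero hak h0k] at h7
  have p1 : 0 ≤ X.a j * X.h j (X.ch j y) (1, 0) :=
    mul_nonneg (by linarith) ((X.metric j).nonneg hUj _)
  have p2 : 0 ≤ X.a k * X.h k (X.ch k y) (1, 0) :=
    mul_nonneg (by linarith) ((X.metric k).nonneg hUk _)
  unfold kn
  rw [C7_kn (by linarith) p1 (norm_nonneg _), C7_kn (by linarith) p2 (norm_nonneg _), hm, he]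

end Pool.Agent.Nef6.SM
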