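import Pool.Agent.H.MP_6a1d6a_ag.SM.Def
import Pool.Agent.H.MP_6a1d6a_ag.CC.Nef

/-!
MP_6a1d6a_ag/SM, module Ex1: the flat metric is a metric in the sense of `IsMetric`, and rotationally symmetric.

`flat v = √(‖v.1‖² + ‖v.2‖²)` is the norm of `WithLp 2 (ℂ × EuclideanSpace ℂ (Fin n))` (`WithLp.prod_norm_eq_of_L2`...), so it is subadditive and homogeneous.
`psh`: let `v b ≠ 0`; with `w = v b`, the holomorphic function `H z = (inner ℂ w.1 (v z).1 + inner ℂ w.2 (v z).2) / flat w` has `‖H z‖ ≤ flat (v z)` (Cauchy-Schwarz),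
`‖H b‖ = flat (v b)`. `CC.Nef_peak_sub` with `W z = log (flat (v z))` (continuous on a slightly larger ball `ball b R`, on which `v` is analytic and not `0`).
-/

set_option autoImplicit false

open Set Filter Topology Metric
open scoped ContDiff

namespace Pool.Agent.Nef6.SM

variable {n : ℕ}

/-- the flat metric of `ℂ × ℂⁿ` -/
noncomputable def flat (_x v : E n) : ℝ := √(‖v.1‖ ^ 2 + ‖v.2‖ ^ 2)

/-- the identity of `E n` to the `L²` product -/
private noncomputable def Ex1L : E n ≃L[ℂ] WithLp 2 (E n) :=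
  (WithLp.prodContinuousLinearEquiv 2 ℂ ℂ (EuclideanSpace ℂ (Fin n))).symm

private theorem Ex1_flat (x v : E n) : flat x v = ‖Ex1L v‖ := by
  rw [WithLp.prod_norm_eq_of_L2]
  rfl

theorem flat_metric : IsMetric (flat (n := n)) univ := by
  refine ⟨isOpen_univ, ?_, fun x _ v hv => ?_, fun x _ c v => ?_, fun x _ v w => ?_,
    fun x v b r hr _ hv hne => ?_⟩
  · have h1 : (fun q : E n × E n => flat q.1 q.2) = fun q => ‖Ex1L q.2‖ := by
      funext q
      exact Ex1_flat _ _
    rw [h1]
    exact (Ex1L.continuous.comp continuous_snd).norm.continuousOn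
  · rw [Ex1_flat, norm_pos_iff]
    exact fun h => hv (by simpa using h)
  · rw [Ex1_flat, Ex1_flat, map_smul, norm_smul]
  · rw [Ex1_flat, Ex1_flat, Ex1_flat, map_add]
    exact norm_add_le _ _
  · -- an open set around the closed ball on which `v` is analytic and not zero
    have hA : IsOpen {z | AnalyticAt ℂ v z} := isOpen_analyticAt ℂ v
    have hO : IsOpen ({z | AnalyticAt ℂ v z} ∩ v ⁻¹' {0}ᶜ) := by
      refine ContinuousOn.isOpen_inter_preimage (fun z hz => ?_) hA isOpen_compl_singleton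
      exact (show AnalyticAt ℂ v z from hz).continuousAt.continuousWithinAt
    have hsub : closedBall b r ⊆ {z | AnalyticAt ℂ v z} ∩ v ⁻¹' {0}ᶜ := fun z hz =>
      ⟨hv z hz, (hne z hz).2⟩
    obtain ⟨δ, hδ, hT⟩ := (isCompact_closedBall b r).exists_thickening_subset_open hO hsub
    rw [thickening_closedBall hδ hr.le] at hT
    have hb0 : v b ≠ 0 := (hne b (mem_closedBall_self hr.le)).2
    have hw0 : ‖Ex1L (v b)‖ ≠ 0 := by
      rw [norm_ne_zero_iff]
      exact fun h => hb0 (by simpa using h)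
    have hpos : ∀ z ∈ ball b (δ + r), 0 < ‖Ex1L (v z)‖ := by
      intro z hz
      rw [norm_pos_iff]
      intro h
      exact (hT hz).2 (by simpa using h)
    have hfl : ∀ y z, flat (x y) (v z) = ‖Ex1L (v z)‖ := fun y z => Ex1_flat _ _
    have hW : ContinuousOn (fun z => Real.log (flat (x z) (v z))) (ball b (δ + r)) := by
      have h1 : (fun z => Real.log (flat (x z) (v z))) = fun z => Real.log ‖Ex1L (v z)‖ := by
        funext z
        rw [hfl]
      rw [h1]
      refine ContinuousOn.log (Ex1L.continuous.comp_continuousOn fun z hz => ?_).norm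
        fun z hz => (hpos z hz).ne'
      exact (show AnalyticAt ℂ v z from (hT hz).1).continuousAt.continuousWithinAt
    have hH : DifferentiableOn ℂ (fun z => (innerSL ℂ (Ex1L (v b)) (Ex1L (v z))) /
        ((‖Ex1L (v b)‖ : ℝ) : ℂ)) (ball b (δ + r)) := by
      intro z hz
      have h1 : DifferentiableAt ℂ v z :=
        (show AnalyticAt ℂ v z from (hT hz).1).differentiableAt
      have h2 : DifferentiableAt ℂ (fun z => (innerSL ℂ (Ex1L (v b)) (Ex1L (v z)))) z :=
        (innerSL ℂ (Ex1L (v b))).differentiableAt.comp z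
          (Ex1L.toContinuousLinearMap.differentiableAt.comp z h1)
      exact (h2.div_const _).differentiableWithinAt
    refine CC.Nef_peak_sub (W := fun z => Real.log (flat (x z) (v z))) hr
      (closedBall_subset_ball (by linarith)) hW hH ?_ ?_
    · intro z hz
      show ‖(innerSL ℂ (Ex1L (v b)) (Ex1L (v z))) / ((‖Ex1L (v b)‖ : ℝ) : ℂ)‖ ≤
        Real.exp (Real.log (flat (x z) (v z)))
      rw [hfl, Real.exp_log (hpos z hz), norm_div, Complex.norm_real, Real.norm_of_nonneg
        (norm_nonneg _), div_le_iff₀ (lt_of_le_of_ne (norm_nonneg _) (Ne.symm hw0)),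
        innerSL_apply_apply, mul_comm]
      exact norm_inner_le_norm _ _
    · show ‖(innerSL ℂ (Ex1L (v b)) (Ex1L (v b))) / ((‖Ex1L (v b)‖ : ℝ) : ℂ)‖ =
        Real.exp (Real.log (flat (x b) (v b)))
      rw [hfl, Real.exp_log (lt_of_le_of_ne (norm_nonneg _) (Ne.symm hw0)), norm_div,
        Complex.norm_real, Real.norm_of_nonneg (norm_nonneg _), innerSL_apply_apply,
        inner_self_eq_norm_sq_to_K, norm_pow]
      show ‖((‖Ex1L (v b)‖ : ℝ) : ℂ)‖ ^ 2 / _ = _
      rw [Complex.norm_real, Real.norm_of_nonneg (norm_nonneg _), sq, mul_div_assoc,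
        div_self hw0, mul_one]

theorem flat_rot : RotInv (flat (n := n)) univ := by
  intro e he x _
  refine ⟨mem_univ _, fun v => ?_⟩
  show √(‖e * v.1‖ ^ 2 + ‖v.2‖ ^ 2) = √(‖v.1‖ ^ 2 + ‖v.2‖ ^ 2)
  rw [norm_mul, he, one_mul]

end Pool.Agent.Nef6.SM
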