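import Pool.Agent.H.MP_6a1d6a_ag.SM.Def
import Pool.Agent.H.MP_6a1d6a_ag.CC.Nef
import Pool.Agent.H.MP_6a1d6a_ag.KC.Bal

/-!
MP_6a1d6a_ag/SM, module Ex2: the complex hyperbolic metric of the ball (`KC.hyp`, `KC.Bl` in `KC/Base.lean`) is a metric in the sense of `IsMetric`, and
rotationally symmetric. (`KC.E n` and `E n` are the same type by definition.)

`op`, `cont`, `pos`, `smul` and the peak functions: `KC.hyp_loc` in `KC/Bal.lean` (`LocNorm (fun x v => √(hyp x v)) (Bl n)`). `psh` from `LocNorm.peak` as in the proof of `nef_of_models`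
in `CC/Nef.lean`: for `(x b, v b)` take the peak `θ`, `H z = θ (x z, v z)` and use `CC.Nef_peak_sub` with `W z = log √(hyp (x z) (v z))` on a slightly larger ball (`AnalyticOnNhd` on the closed
disc, `(x z, v z) ∈ Bl × (E \ 0)` on a neighbourhood by compactness). `add`: for fixed `x`, `hyp x v = 4 ‖A v‖²` with `A v = (√(1/D) v.1, √(1/D) v.2, (1/D) ⟨x, v⟩)`, `D = 1 - |x|² > 0`, linear in `v` with values in a Hilbert space
(or prove `√(|v + w|² a + |l (v + w)|² b) ≤ ..` by Minkowski for the Euclidean norm of the real vector `(√a ‖v.1‖, √a ‖v.2‖, √b |l v|)`).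
`hyp_rot` in `KC/Bal.lean` may give the rotations.
-/

set_option autoImplicit false

open Set Filter Topology Metric
open scoped ContDiff

namespace Pool.Agent.Nef6.SM

variable {n : ℕ}

private theorem Ex2_psh {N : E n → E n → ℝ} {U : Set (E n)} (hN : CC.LocNorm N U)
    (x v : ℂ → E n) (b : ℂ) (r : ℝ) (hr : 0 < r) (hx : AnalyticOnNhd ℂ x (closedBall b r))
    (hv : AnalyticOnNhd ℂ v (closedBall b r))
    (h : ∀ z ∈ closedBall b r, x z ∈ U ∧ v z ≠ 0) :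
    Real.log (N (x b) (v b)) ≤ Real.circleAverage (fun z => Real.log (N (x z) (v z))) b r := by
  obtain ⟨S, hS⟩ : ∃ S : Set ℂ, S = {z | (AnalyticAt ℂ x z ∧ AnalyticAt ℂ v z) ∧
      (x z ∈ U ∧ v z ≠ 0)} := ⟨_, rfl⟩
  have hsub : closedBall b r ⊆ interior S := by
    intro z hz
    rw [mem_interior_iff_mem_nhds, hS]
    have h1 := (hx z hz).eventually_analyticAt
    have h2 := (hv z hz).eventually_analyticAt
    have h3 : ∀ᶠ w in 𝓝 z, x w ∈ U :=
      (hx z hz).continuousAt.eventually_mem (hN.op.mem_nhds (h z hz).1)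
    have h4 : ∀ᶠ w in 𝓝 z, v w ≠ 0 := (hv z hz).continuousAt.eventually_ne (h z hz).2
    exact (h1.and h2).and (h3.and h4)
  obtain ⟨δ, hδ, hδS⟩ := (isCompact_closedBall b r).exists_thickening_subset_open
    isOpen_interior hsub
  rw [thickening_closedBall hδ hr.le] at hδS
  have hball : ∀ z ∈ ball b (δ + r), (AnalyticAt ℂ x z ∧ AnalyticAt ℂ v z) ∧
      (x z ∈ U ∧ v z ≠ 0) := fun z hz => by
    have h1 := interior_subset (hδS hz)
    rw [hS] at h1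
    exact h1
  have hcb : closedBall b r ⊆ ball b (δ + r) := closedBall_subset_ball (by linarith)
  have hb : b ∈ ball b (δ + r) := mem_ball_self (by linarith)
  have hpair : DifferentiableOn ℂ (fun z => (x z, v z)) (ball b (δ + r)) :=
    fun z hz => ((hball z hz).1.1.differentiableAt.prodMk
      (hball z hz).1.2.differentiableAt).differentiableWithinAt
  have hmaps : MapsTo (fun z => (x z, v z)) (ball b (δ + r)) (U ×ˢ univ) := fun z hz =>
    ⟨(hball z hz).2.1, mem_univ _⟩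
  have hpos : ∀ z ∈ ball b (δ + r), 0 < N (x z) (v z) := fun z hz =>
    hN.pos _ (hball z hz).2.1 _ (hball z hz).2.2
  have hcont : ContinuousOn (fun z => Real.log (N (x z) (v z))) (ball b (δ + r)) :=
    (hN.cont.comp hpair.continuousOn hmaps).log fun z hz => (hpos z hz).ne'
  obtain ⟨θ, hθ, hθle, hθeq⟩ := hN.peak _ (hball b hb).2.1 _ (hball b hb).2.2
  refine CC.Nef_peak_sub (H := fun z => θ (x z, v z)) hr hcb hcont (hθ.comp hpair hmaps) ?_ ?_
  · intro z hz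
    show ‖θ (x z, v z)‖ ≤ _
    rw [Real.exp_log (hpos z hz)]
    exact hθle _ (hball z hz).2.1 _
  · show ‖θ (x b, v b)‖ = _
    rw [Real.exp_log (hpos b hb)]
    exact hθeq

private theorem Ex2_mink {x1 x2 x3 y1 y2 y3 z1 z2 z3 : ℝ} (h1 : 0 ≤ x1) (h2 : 0 ≤ x2)
    (h3 : 0 ≤ x3) (h1' : x1 ≤ y1 + z1) (h2' : x2 ≤ y2 + z2) (h3' : x3 ≤ y3 + z3) :
    √(x1 ^ 2 + x2 ^ 2 + x3 ^ 2) ≤ √(y1 ^ 2 + y2 ^ 2 + y3 ^ 2) + √(z1 ^ 2 + z2 ^ 2 + z3 ^ 2) := by
  have hn : ∀ a b c : ℝ, √(a ^ 2 + b ^ 2 + c ^ 2) =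
      ‖(WithLp.toLp 2 ![a, b, c] : EuclideanSpace ℝ (Fin 3))‖ := by
    intro a b c
    rw [EuclideanSpace.norm_eq, Fin.sum_univ_three]
    simp
  have h4 : √(x1 ^ 2 + x2 ^ 2 + x3 ^ 2) ≤
      √((y1 + z1) ^ 2 + (y2 + z2) ^ 2 + (y3 + z3) ^ 2) := by
    apply Real.sqrt_le_sqrt
    gcongr
  refine h4.trans ?_
  rw [hn, hn, hn]
  refine le_trans (le_of_eq ?_) (norm_add_le _ _)
  congr 1
  ext i
  fin_cases i <;> rfl

private theorem Ex2_add {x : E n} (hx : x ∈ KC.Bl n) (v w : E n) :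
    √(KC.hyp x (v + w)) ≤ √(KC.hyp x v) + √(KC.hyp x w) := by
  have h0 : ‖x.1‖ ^ 2 + ‖x.2‖ ^ 2 < 1 := hx
  obtain ⟨D, hD⟩ : ∃ D : ℝ, D = 1 - ‖x.1‖ ^ 2 - ‖x.2‖ ^ 2 := ⟨_, rfl⟩
  have hD0 : 0 < D := by rw [hD]; linarith
  have hs : 0 < √D := Real.sqrt_pos.2 hD0
  have hs2 : √D ^ 2 = D := Real.sq_sqrt hD0.le
  have he : ∀ v : E n, KC.hyp x v = (2 / √D * ‖v.1‖) ^ 2 + (2 / √D * ‖v.2‖) ^ 2 +
      (2 / D * ‖(starRingEnd ℂ) x.1 * v.1 + inner ℂ x.2 v.2‖) ^ 2 := by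
    intro v
    unfold KC.hyp
    rw [← hD, mul_pow, mul_pow, mul_pow, div_pow, div_pow, hs2]
    field_simp
    ring
  rw [he, he, he]
  refine Ex2_mink (by positivity) (by positivity) (by positivity) ?_ ?_ ?_
  · rw [← mul_add]
    have : ‖(v + w).1‖ ≤ ‖v.1‖ + ‖w.1‖ := norm_add_le _ _
    gcongr
  · rw [← mul_add]
    have : ‖(v + w).2‖ ≤ ‖v.2‖ + ‖w.2‖ := norm_add_le _ _
    gcongr
  · rw [← mul_add]
    have h1 : (starRingEnd ℂ) x.1 * (v + w).1 + inner ℂ x.2 (v + w).2 =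
        ((starRingEnd ℂ) x.1 * v.1 + inner ℂ x.2 v.2) +
          ((starRingEnd ℂ) x.1 * w.1 + inner ℂ x.2 w.2) := by
      rw [Prod.fst_add, Prod.snd_add, inner_add_right]
      ring
    rw [h1]
    have := norm_add_le ((starRingEnd ℂ) x.1 * v.1 + inner ℂ x.2 v.2)
      ((starRingEnd ℂ) x.1 * w.1 + inner ℂ x.2 w.2)
    gcongr

theorem hyp_metric : IsMetric (fun x v : E n => √(KC.hyp x v)) (KC.Bl n) where
  op := KC.hyp_loc.op
  cont := KC.hyp_loc.cont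
  pos := KC.hyp_loc.pos
  smul := KC.hyp_loc.hom
  add := fun _ hx v w => Ex2_add hx v w
  psh := fun x v b r hr hx hv h => Ex2_psh KC.hyp_loc x v b r hr hx hv h

theorem hyp_rotInv : RotInv (fun x v : E n => √(KC.hyp x v)) (KC.Bl n) := by
  intro e he x hx
  refine ⟨?_, fun v => ?_⟩
  · have h0 : ‖x.1‖ ^ 2 + ‖x.2‖ ^ 2 < 1 := hx
    show ‖e * x.1‖ ^ 2 + ‖x.2‖ ^ 2 < 1
    rw [norm_mul, he, one_mul]
    exact h0
  · dsimp only
    rw [KC.hyp_rot he]

end Pool.Agent.Nef6.SM
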