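import Pool.Agent.H.MP_6a1d6a_ag.SM.B5
import Pool.Agent.H.MP_6a1d6a_ag.SM.B6

/-!
MP_6a1d6a_ag/SM, module Node: the conical metrics of the normal directions are bounded near a node of the divisor, where the metric is the pull-back of a
metric `h` by `(z, y) ↦ (z^α, .., y_i^β, ..)` (so the second alternative of `exc` holds at nodes, for arbitrary cone angles).

`pt2`, `vec2` are continuous (`1 ≤ α`, `1 ≤ β`). Choose `M`, `C₀ > 0` and a neighbourhood `O` of `x₀` with `pt2 x ∈ U` and `c ‖w‖ ≤ h (pt2 x) w ≤ M ‖w‖` for `x ∈ O` and all `w` is NOT needed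
uniformly below; only the upper bound `h (pt2 x) w ≤ M ‖w‖` for `x ∈ O` (continuity, compactness of the unit sphere, homogeneity; see `B5_upp`-like lemmas in `B5`). `C = max ((M α)^(1/α)) ((M β)^(1/β))`.
Let `x ∈ O`, `v ≠ 0`, `w = fderiv T x v`, `w.2 = 0`. Then `pull a' h' (T x) w = 0` (`pull_zero_iff`, `(T x).1 = 0`), so `h (pt2 x) (vec2 x v) = 0` (`self_of_nhds`), `vec2 x v = 0` (`pos`).
So either (i) `x.1 = 0`, `1 < α`, `v.2 = 0` (if `x.2 i ≠ 0`), or (ii) `x.2 i = 0`, `1 < β`, `v.1 = 0` and `v.2 k = 0` for `k ≠ i` (if `x.1 ≠ 0`). Case (i) (case (ii) is the same with the other coordinate):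
(1) `F s = T (x + s • v)`: `deriv F 0 = w = (b, 0)`, near `0`: `pull a' h' (F s) (deriv F s) = h (pt2 (x + s v)) (vec2 (x + s v) v)`, `vec2 (x + s v) v = (α ‖s v.1‖^(α-1) v.1, 0)`, so it is
`≤ M α ‖s‖^(α-1) ‖v.1‖^α`. By `disc_lower`, for all `κ < m = a' h' (T x) (1, 0) ‖b‖^a'`: `κ ‖s‖^(a'-1) ≤ M α ‖v.1‖^α ‖s‖^(α-1)` for `s ≠ 0` near `0`.
(2) `a' ≤ α`: `G s = S (w₀ + s • (b, 0))`, `w₀ = T x`; `G 0 = x`, `deriv G 0 = fderiv S w₀ (b, 0) = v` (`S ∘ T = id` near `x`, chain rule), so `(G s).1 / s → v.1 ≠ 0`. For `s` near `0`: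
`h (pt2 (G s)) (vec2 (G s) (deriv G s)) = pull a' h' (w₀ + s (b, 0)) (b, 0)` (apply the hypothesis at `z = G s`, `T (G s) = w₀ + s (b, 0)`, derivative of `T ∘ G`) `≤ C₁ ‖s‖^(a'-1)` by `disc_exact`, and it is
`≥ c ‖vec2 ..‖ ≥ c α ‖(G s).1‖^(α-1) ‖(deriv G s).1‖ ≥ c' ‖s‖^(α-1)` (`h` is bounded below near `pt2 x ∈ U`: continuity, positivity, compactness). So `α ≥ a'` (divide by `‖s‖^(α-1)`, `s → 0`).
From (1), (2): if `a' < α` then `κ ≤ C ‖s‖^(α-a') → 0` contradicts `m > 0` (`b ≠ 0` since `w ≠ 0`); so `a' = α` and `m ≤ M α ‖v.1‖^α`, `kn = m^(1/α) ≤ (M α)^(1/α) ‖v.1‖ ≤ C ‖v‖`.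
-/

set_option autoImplicit false

open Set Filter Topology Metric
open scoped ContDiff

namespace Pool.Agent.Nef6.SM

variable {n : ℕ}

/-- the vector `y` with its coordinate `i` multiplied by `c` -/
noncomputable def scl (i : Fin n) (c : ℂ) (y : EuclideanSpace ℂ (Fin n)) : EuclideanSpace ℂ (Fin n) :=
  y + ((c - 1) * y i) • EuclideanSpace.single i 1

/-- the point `(z^α, .., y_i^β, ..)` up to rotations -/
noncomputable def pt2 (i : Fin n) (α β : ℝ) (x : E n) : E n :=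
  (((‖x.1‖ ^ (α - 1) : ℝ) : ℂ) * x.1, scl i ((‖x.2 i‖ ^ (β - 1) : ℝ) : ℂ) x.2)

/-- the image of a tangent vector, up to rotations -/
noncomputable def vec2 (i : Fin n) (α β : ℝ) (x v : E n) : E n :=
  (((α * ‖x.1‖ ^ (α - 1) : ℝ) : ℂ) * v.1, scl i ((β * ‖x.2 i‖ ^ (β - 1) : ℝ) : ℂ) v.2)

private theorem Node_contAt {h : E n → E n → ℝ} {U : Set (E n)} (hh : IsMetric h U) {x : E n}
    (hx : x ∈ U) (w : E n) : ContinuousAt (fun q : E n × E n => h q.1 q.2) (x, w) :=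
  hh.cont.continuousAt ((hh.op.prod isOpen_univ).mem_nhds ⟨hx, mem_univ w⟩)

/-- homogeneity, real factor -/
private theorem Node_hom {h : E n → E n → ℝ} {U : Set (E n)} (hh : IsMetric h U) {x : E n}
    (hx : x ∈ U) {w : E n} (hw : w ≠ 0) : h x w = ‖w‖ * h x (((‖w‖⁻¹ : ℝ) : ℂ) • w) := by
  have h1 : ‖w‖ ≠ 0 := norm_ne_zero_iff.mpr hw
  rw [hh.smul x hx]
  rw [Complex.norm_real, norm_inv, norm_norm, ← mul_assoc, mul_inv_cancel₀ h1, one_mul]

private theorem Node_unit {w : E n} (hw : w ≠ 0) :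
    ((‖w‖⁻¹ : ℝ) : ℂ) • w ∈ sphere (0 : E n) 1 := by
  have h1 : ‖w‖ ≠ 0 := norm_ne_zero_iff.mpr hw
  rw [mem_sphere_zero_iff_norm, norm_smul, Complex.norm_real, norm_inv, norm_norm,
    inv_mul_cancel₀ h1]

private theorem Node_slice {h : E n → E n → ℝ} {U : Set (E n)} (hh : IsMetric h U) {x : E n}
    (hx : x ∈ U) : ContinuousOn (fun w : E n => h x w) (sphere (0 : E n) 1) := by
  intro w _
  have h3 : ContinuousAt (fun v : E n => (x, v)) w := by fun_prop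
  exact (ContinuousAt.comp (g := fun q : E n × E n => h q.1 q.2)
    (f := fun v : E n => (x, v)) (x := w) (Node_contAt hh hx w) h3).continuousWithinAt

/-- the norms `h x` near `x₀` are uniformly bounded -/
private theorem Node_upp {h : E n → E n → ℝ} {U : Set (E n)} (hh : IsMetric h U) {x₀ : E n}
    (hx₀ : x₀ ∈ U) : ∃ C : ℝ, 0 ≤ C ∧ ∀ᶠ x in 𝓝 x₀, ∀ w, h x w ≤ C * ‖w‖ := by
  obtain ⟨M, hM⟩ := (isCompact_sphere (0 : E n) 1).exists_bound_of_continuousOn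
    (Node_slice hh hx₀)
  have key : ∀ᶠ x in 𝓝 x₀, ∀ w ∈ sphere (0 : E n) 1, h x w < |M| + 1 := by
    refine (isCompact_sphere (0 : E n) 1).eventually_forall_of_forall_eventually ?_
    intro w hw
    refine (Node_contAt hh hx₀ w).eventually_lt continuousAt_const ?_
    show h x₀ w < |M| + 1
    have h1 := hM w hw
    have h2 := le_abs_self (h x₀ w)
    have h3 := le_abs_self M
    rw [Real.norm_eq_abs] at h1
    linarith
  refine ⟨|M| + 1, by positivity, ?_⟩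
  filter_upwards [key, hh.op.mem_nhds hx₀] with x hx hxU w
  by_cases hw : w = 0
  · rw [hw, hh.zero hxU, norm_zero, mul_zero]
  · have h1 := (hx _ (Node_unit hw)).le
    rw [Node_hom hh hxU hw]
    have h2 := mul_le_mul_of_nonneg_left h1 (norm_nonneg w)
    linarith

/-- the norms `h x` near `x₀` are uniformly bounded from below -/
private theorem Node_low {h : E n → E n → ℝ} {U : Set (E n)} (hh : IsMetric h U) {x₀ : E n}
    (hx₀ : x₀ ∈ U) : ∃ c : ℝ, 0 < c ∧ ∀ᶠ x in 𝓝 x₀, ∀ w, c * ‖w‖ ≤ h x w := by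
  have hne : (sphere (0 : E n) 1).Nonempty := NormedSpace.sphere_nonempty.mpr zero_le_one
  obtain ⟨w₀, hw₀, hmin⟩ := (isCompact_sphere (0 : E n) 1).exists_isMinOn hne
    (Node_slice hh hx₀)
  have hw0 : w₀ ≠ 0 := by
    rintro rfl
    simp at hw₀
  have hpos : 0 < h x₀ w₀ := hh.pos x₀ hx₀ w₀ hw0
  have key : ∀ᶠ x in 𝓝 x₀, ∀ w ∈ sphere (0 : E n) 1, h x₀ w₀ / 2 < h x w := by
    refine (isCompact_sphere (0 : E n) 1).eventually_forall_of_forall_eventually ?_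
    intro w hw
    refine ContinuousAt.eventually_lt continuousAt_const (Node_contAt hh hx₀ w) ?_
    show h x₀ w₀ / 2 < h x₀ w
    have h1 : h x₀ w₀ ≤ h x₀ w := hmin hw
    linarith
  refine ⟨h x₀ w₀ / 2, by positivity, ?_⟩
  filter_upwards [key, hh.op.mem_nhds hx₀] with x hx hxU w
  by_cases hw : w = 0
  · rw [hw, hh.zero hxU, norm_zero, mul_zero]
  · have h1 := (hx _ (Node_unit hw)).le
    rw [Node_hom hh hxU hw]
    have h2 := mul_le_mul_of_nonneg_left h1 (norm_nonneg w)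
    linarith

/-- comparison of powers -/
private theorem Node_pow {A B p q : ℝ} (hA : 0 < A)
    (h : ∀ᶠ s in 𝓝[≠] (0 : ℂ), A * ‖s‖ ^ p ≤ B * ‖s‖ ^ q) : q ≤ p := by
  by_contra hlt
  rw [not_le] at hlt
  have h0 : 0 < q - p := by linarith
  have h1 : Tendsto (fun s : ℂ => B * ‖s‖ ^ (q - p)) (𝓝[≠] 0) (𝓝 (B * 0)) := by
    have h2 : Continuous (fun s : ℂ => ‖s‖ ^ (q - p)) :=
      (Real.continuous_rpow_const h0.le).comp continuous_norm
    have h3 := h2.tendsto 0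
    rw [norm_zero, Real.zero_rpow h0.ne'] at h3
    exact (h3.mono_left nhdsWithin_le_nhds).const_mul B
  have h4 : A ≤ B * 0 := by
    refine ge_of_tendsto h1 ?_
    filter_upwards [h, self_mem_nhdsWithin] with s hs hs0
    have hs1 : 0 < ‖s‖ := norm_pos_iff.mpr hs0
    rw [Real.rpow_sub hs1, ← mul_div_assoc, le_div_iff₀ (Real.rpow_pos_of_pos hs1 _)]
    exact hs
  rw [mul_zero] at h4
  linarith

private theorem Node_eq {A B p : ℝ}
    (h : ∀ᶠ s in 𝓝[≠] (0 : ℂ), A * ‖s‖ ^ p ≤ B * ‖s‖ ^ p) : A ≤ B := by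
  obtain ⟨s, hs, hs0⟩ := (h.and self_mem_nhdsWithin).exists
  have hs1 : 0 < ‖s‖ := norm_pos_iff.mpr hs0
  exact le_of_mul_le_mul_right hs (Real.rpow_pos_of_pos hs1 _)

private theorem Node_kn {a : ℝ} (ha : 0 < a) {c r : ℝ} (hc : 0 ≤ c) (hr : 0 ≤ r) :
    c ^ (1 / a) * r = (c * r ^ a) ^ (1 / a) := by
  rw [Real.mul_rpow hc (Real.rpow_nonneg hr _), ← Real.rpow_mul hr, mul_one_div_cancel ha.ne',
    Real.rpow_one]

private theorem Node_sub {γ r : ℝ} (hγ : 1 < γ) (hr : 0 < r) : r ^ (γ - 1) * r = r ^ γ := by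
  have _ := hγ
  rw [← Real.rpow_add_one hr.ne', sub_add_cancel]

/-- the disc through `x` in the direction `v` -/
private theorem Node_up {h h' : E n → E n → ℝ} {U' : Set (E n)} {P : E n → E n}
    {V : E n → E n → E n} (ℓ : E n →L[ℂ] ℂ) {γ M a' : ℝ} (hγ : 1 < γ) {x v : E n}
    (hup : ∀ᶠ z in 𝓝 x, ∀ w, h (P z) w ≤ M * ‖w‖)
    (hV1 : ∀ z, ‖V z v‖ = γ * ‖ℓ z‖ ^ (γ - 1) * ‖ℓ v‖) (hx : ℓ x = 0) (hv : ℓ v ≠ 0)
    (ha' : 1 < a') (hh' : IsMetric h' U') (hr' : RotInv h' U') {T : E n → E n}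
    (hT : AnalyticAt ℂ T x) (hU' : T x ∈ U') (h0 : (T x).1 = 0)
    (hp : ∀ᶠ z in 𝓝 x, ∀ v, pull a' h' (T z) (fderiv ℂ T z v) = h (P z) (V z v))
    (hw : (fderiv ℂ T x v).2 = 0) {κ : ℝ}
    (hκ : κ < a' * h' (T x) (1, 0) * ‖(fderiv ℂ T x v).1‖ ^ a') :
    ∀ᶠ s in 𝓝[≠] (0 : ℂ), κ * ‖s‖ ^ (a' - 1) ≤ M * γ * ‖ℓ v‖ ^ γ * ‖s‖ ^ (γ - 1) := by
  have hlc : Continuous (fun s : ℂ => x + s • v) := by fun_prop
  have hl0 : x + (0 : ℂ) • v = x := by rw [zero_smul, add_zero]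
  have hlt : Tendsto (fun s : ℂ => x + s • v) (𝓝 0) (𝓝 x) := by
    have h1 := hlc.tendsto 0
    rwa [hl0] at h1
  have hld : ∀ s : ℂ, HasDerivAt (fun s : ℂ => x + s • v) v s := by
    intro s
    have h1 := ((hasDerivAt_id s).smul_const v).const_add x
    rw [one_smul] at h1
    exact h1
  have hFan : AnalyticAt ℂ (fun s : ℂ => T (x + s • v)) 0 := by
    refine AnalyticAt.comp (g := T) (f := fun s : ℂ => x + s • v) ?_ ?_
    · show AnalyticAt ℂ T (x + (0 : ℂ) • v)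
      rw [hl0]
      exact hT
    · exact analyticAt_const.add (analyticAt_id.smul analyticAt_const)
  have hFd : ∀ s : ℂ, DifferentiableAt ℂ T (x + s • v) →
      deriv (fun s : ℂ => T (x + s • v)) s = fderiv ℂ T (x + s • v) v := by
    intro s hs
    exact (HasFDerivAt.comp_hasDerivAt s hs.hasFDerivAt (hld s)).deriv
  have hF0 : T (x + (0 : ℂ) • v) = T x := by rw [hl0]
  have hFd0 : deriv (fun s : ℂ => T (x + s • v)) 0 = ((fderiv ℂ T x v).1, 0) := by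
    rw [hFd 0 (by rw [hl0]; exact hT.differentiableAt), hl0]
    exact Prod.ext rfl hw
  have hlow := disc_lower hh' hr' ha' hFan (by rw [hF0]; exact hU') (by rw [hF0]; exact h0)
    hFd0 (κ := κ) (by rw [hF0]; exact hκ)
  have e3 : ∀ᶠ s in 𝓝 (0 : ℂ), DifferentiableAt ℂ T (x + s • v) :=
    (hlt.eventually hT.eventually_analyticAt).mono fun s hs => hs.differentiableAt
  filter_upwards [hlow, e3.filter_mono nhdsWithin_le_nhds,
    (hlt.eventually hup).filter_mono nhdsWithin_le_nhds,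
    (hlt.eventually hp).filter_mono nhdsWithin_le_nhds, self_mem_nhdsWithin] with
    s hs1 hs2 hs3 hs4 hs0
  have hℓ : ‖ℓ (x + s • v)‖ = ‖s‖ * ‖ℓ v‖ := by
    rw [map_add, map_smul, hx, zero_add, norm_smul]
  have hv0 : 0 < ‖ℓ v‖ := norm_pos_iff.mpr hv
  have h1 : pull a' h' (T (x + s • v)) (deriv (fun s : ℂ => T (x + s • v)) s) =
      h (P (x + s • v)) (V (x + s • v) v) := by
    rw [hFd s hs2]
    exact hs4 v
  calc κ * ‖s‖ ^ (a' - 1) ≤ h (P (x + s • v)) (V (x + s • v) v) := hs1.trans h1.le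
    _ ≤ M * ‖V (x + s • v) v‖ := hs3 _
    _ = M * (γ * ‖ℓ (x + s • v)‖ ^ (γ - 1) * ‖ℓ v‖) := by rw [hV1]
    _ = M * γ * ‖ℓ v‖ ^ γ * ‖s‖ ^ (γ - 1) := by
        rw [hℓ, Real.mul_rpow (norm_nonneg _) (norm_nonneg _), ← Node_sub hγ hv0]
        ring

/-- the disc in the direction of the image -/
private theorem Node_down {h h' : E n → E n → ℝ} {U' : Set (E n)} {P : E n → E n}
    {V : E n → E n → E n} (ℓ : E n →L[ℂ] ℂ) {γ c a' : ℝ} (hγ : 1 < γ) (hc : 0 < c) {x v : E n}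
    (hlo : ∀ᶠ z in 𝓝 x, ∀ w, c * ‖w‖ ≤ h (P z) w)
    (hV2 : ∀ z w, γ * ‖ℓ z‖ ^ (γ - 1) * ‖ℓ w‖ ≤ ‖V z w‖) (hx : ℓ x = 0) (hv : ℓ v ≠ 0)
    (ha' : 1 < a') (hh' : IsMetric h' U') {T S : E n → E n}
    (hT : AnalyticAt ℂ T x) (hS : AnalyticAt ℂ S (T x)) (hST : S (T x) = x)
    (hTS : ∀ᶠ w in 𝓝 (T x), T (S w) = w) (hU' : T x ∈ U') (h0 : (T x).1 = 0)
    (hp : ∀ᶠ z in 𝓝 x, ∀ v, pull a' h' (T z) (fderiv ℂ T z v) = h (P z) (V z v))
    (hw : (fderiv ℂ T x v).2 = 0) (hSv : fderiv ℂ S (T x) (fderiv ℂ T x v) = v) :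
    a' ≤ γ := by
  set w : E n := fderiv ℂ T x v with hwdef
  have hw' : w = (w.1, 0) := Prod.ext rfl hw
  have hlc : Continuous (fun s : ℂ => T x + s • w) := by fun_prop
  have hl0 : T x + (0 : ℂ) • w = T x := by rw [zero_smul, add_zero]
  have hlt : Tendsto (fun s : ℂ => T x + s • w) (𝓝 0) (𝓝 (T x)) := by
    have h1 := hlc.tendsto 0
    rwa [hl0] at h1
  have hld : ∀ s : ℂ, HasDerivAt (fun s : ℂ => T x + s • w) w s := by
    intro s
    have h1 := ((hasDerivAt_id s).smul_const w).const_add (T x)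
    rw [one_smul] at h1
    exact h1
  have hGan : AnalyticAt ℂ (fun s : ℂ => S (T x + s • w)) 0 := by
    refine AnalyticAt.comp (g := S) (f := fun s : ℂ => T x + s • w) ?_ ?_
    · show AnalyticAt ℂ S (T x + (0 : ℂ) • w)
      rw [hl0]
      exact hS
    · exact analyticAt_const.add (analyticAt_id.smul analyticAt_const)
  set G : ℂ → E n := fun s : ℂ => S (T x + s • w) with hG
  have hG0 : G 0 = x := by
    show S (T x + (0 : ℂ) • w) = x
    rw [hl0, hST]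
  have hGt : Tendsto G (𝓝 0) (𝓝 x) := by
    have h1 := hGan.continuousAt.tendsto
    rwa [hG0] at h1
  have hGd0 : HasDerivAt G v 0 := by
    have h1 : HasFDerivAt S (fderiv ℂ S (T x)) (T x + (0 : ℂ) • w) := by
      rw [hl0]
      exact hS.differentiableAt.hasFDerivAt
    have h2 := HasFDerivAt.comp_hasDerivAt (0 : ℂ) h1 (hld 0)
    rw [hSv] at h2
    exact h2
  -- the image disc
  have hTG : ∀ᶠ s in 𝓝 (0 : ℂ), T (G s) = T x + s • w := hlt.eventually hTS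
  have hder : ∀ᶠ s in 𝓝 (0 : ℂ), fderiv ℂ T (G s) (deriv G s) = w := by
    have e1 : ∀ᶠ s in 𝓝 (0 : ℂ), DifferentiableAt ℂ T (G s) :=
      (hGt.eventually hT.eventually_analyticAt).mono fun s hs => hs.differentiableAt
    have e2 : ∀ᶠ s in 𝓝 (0 : ℂ), DifferentiableAt ℂ G s :=
      hGan.eventually_analyticAt.mono fun s hs => hs.differentiableAt
    filter_upwards [e1, e2, hTG.eventually_nhds] with s h1 h2 h3
    have h4 : HasDerivAt (fun s => T (G s)) (fderiv ℂ T (G s) (deriv G s)) s :=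
      HasFDerivAt.comp_hasDerivAt s h1.hasFDerivAt h2.hasDerivAt
    have h5 : HasDerivAt (fun s => T (G s)) w s := (hld s).congr_of_eventuallyEq h3
    exact h4.unique h5
  -- the limits
  have hv0 : 0 < ‖ℓ v‖ := norm_pos_iff.mpr hv
  have hq : Tendsto (fun s : ℂ => ‖ℓ (G s)‖ / ‖s‖) (𝓝[≠] 0) (𝓝 ‖ℓ v‖) := by
    have h1 := hGd0.tendsto_slope_zero
    have h2 := ((ℓ.continuous.tendsto _).comp h1).norm
    refine h2.congr ?_
    intro s
    show ‖ℓ (s⁻¹ • (G (0 + s) - G 0))‖ = _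
    rw [zero_add, map_smul, map_sub, hG0, hx, sub_zero, norm_smul, norm_inv]
    ring
  have hd : Tendsto (fun s : ℂ => ‖ℓ (deriv G s)‖) (𝓝[≠] 0) (𝓝 ‖ℓ v‖) := by
    have h1 : Tendsto (deriv G) (𝓝 0) (𝓝 (deriv G 0)) := hGan.deriv.continuousAt.tendsto
    rw [hGd0.deriv] at h1
    exact (((ℓ.continuous.tendsto _).comp h1).norm).mono_left nhdsWithin_le_nhds
  have hlim : Tendsto (fun s : ℂ => (‖ℓ (G s)‖ / ‖s‖) ^ (γ - 1) * ‖ℓ (deriv G s)‖) (𝓝[≠] 0)
      (𝓝 (‖ℓ v‖ ^ (γ - 1) * ‖ℓ v‖)) :=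
    (hq.rpow_const (Or.inr (by linarith))).mul hd
  have hq0 : 0 < ‖ℓ v‖ ^ (γ - 1) * ‖ℓ v‖ := mul_pos (Real.rpow_pos_of_pos hv0 _) hv0
  set q : ℝ := ‖ℓ v‖ ^ (γ - 1) * ‖ℓ v‖ with hqdef
  have hev := hlim.eventually (lt_mem_nhds (half_lt_self hq0))
  have hx0 : T x = (0, (T x).2) := Prod.ext h0 rfl
  have hex := disc_exact hh' ha' (y := (T x).2) (by rw [← hx0]; exact hU') w.1
  set m : ℝ := a' * h' (0, (T x).2) (1, 0) * ‖w.1‖ ^ a' with hm
  have hev2 := hex.eventually (gt_mem_nhds (lt_add_one m))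
  have hmain : ∀ᶠ s in 𝓝[≠] (0 : ℂ),
      c * γ * (q / 2) * ‖s‖ ^ (γ - 1) ≤ (m + 1) * ‖s‖ ^ (a' - 1) := by
    filter_upwards [hev, hev2, hTG.filter_mono nhdsWithin_le_nhds,
      hder.filter_mono nhdsWithin_le_nhds, (hGt.eventually hlo).filter_mono nhdsWithin_le_nhds,
      (hGt.eventually hp).filter_mono nhdsWithin_le_nhds, self_mem_nhdsWithin] with
      s k1 k2 k3 k4 k5 k6 k7
    have hs : 0 < ‖s‖ := norm_pos_iff.mpr k7
    have hsa : 0 < ‖s‖ ^ (a' - 1) := Real.rpow_pos_of_pos hs _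
    have hsg : 0 < ‖s‖ ^ (γ - 1) := Real.rpow_pos_of_pos hs _
    have e1 : T x + s • w = (s * w.1, (T x).2) := by
      refine Prod.ext ?_ ?_
      · show (T x).1 + s • w.1 = s * w.1
        rw [h0, zero_add, smul_eq_mul]
      · show (T x).2 + s • w.2 = (T x).2
        rw [hw, smul_zero, add_zero]
    have e2 : pull a' h' (s * w.1, (T x).2) (w.1, 0) = h (P (G s)) (V (G s) (deriv G s)) := by
      have h1 := k6 (deriv G s)
      rw [k3, k4, e1] at h1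
      rw [← h1, ← hw']
    have e3 : pull a' h' (s * w.1, (T x).2) (w.1, 0) ≤ (m + 1) * ‖s‖ ^ (a' - 1) := by
      rw [div_lt_iff₀ hsa] at k2
      exact k2.le
    have e4 := k5 (V (G s) (deriv G s))
    have e5 := hV2 (G s) (deriv G s)
    have e6 : ‖ℓ (G s)‖ ^ (γ - 1) = (‖ℓ (G s)‖ / ‖s‖) ^ (γ - 1) * ‖s‖ ^ (γ - 1) := by
      rw [← Real.mul_rpow (by positivity) (norm_nonneg _), div_mul_cancel₀ _ hs.ne']
    have hcγ : 0 < c * γ := mul_pos hc (by linarith)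
    calc c * γ * (q / 2) * ‖s‖ ^ (γ - 1)
        ≤ c * γ * ((‖ℓ (G s)‖ / ‖s‖) ^ (γ - 1) * ‖ℓ (deriv G s)‖) * ‖s‖ ^ (γ - 1) :=
          mul_le_mul_of_nonneg_right (mul_le_mul_of_nonneg_left k1.le hcγ.le) hsg.le
      _ = c * (γ * ‖ℓ (G s)‖ ^ (γ - 1) * ‖ℓ (deriv G s)‖) := by
          rw [e6]
          ring
      _ ≤ c * ‖V (G s) (deriv G s)‖ := mul_le_mul_of_nonneg_left e5 hc.le
      _ ≤ h (P (G s)) (V (G s) (deriv G s)) := e4
      _ = pull a' h' (s * w.1, (T x).2) (w.1, 0) := e2.symm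
      _ ≤ (m + 1) * ‖s‖ ^ (a' - 1) := e3
  have hA : 0 < c * γ * (q / 2) := mul_pos (mul_pos hc (by linarith)) (half_pos hq0)
  have := Node_pow hA hmain
  linarith

/-- the bound along one direction -/
private theorem Node_key {h h' : E n → E n → ℝ} {U' : Set (E n)} {P : E n → E n}
    {V : E n → E n → E n} (ℓ : E n →L[ℂ] ℂ) {γ M c a' : ℝ} (hγ : 1 < γ) (hM : 0 ≤ M)
    (hc : 0 < c) {x v : E n} (hup : ∀ᶠ z in 𝓝 x, ∀ w, h (P z) w ≤ M * ‖w‖)
    (hlo : ∀ᶠ z in 𝓝 x, ∀ w, c * ‖w‖ ≤ h (P z) w)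
    (hV1 : ∀ z, ‖V z v‖ = γ * ‖ℓ z‖ ^ (γ - 1) * ‖ℓ v‖)
    (hV2 : ∀ z w, γ * ‖ℓ z‖ ^ (γ - 1) * ‖ℓ w‖ ≤ ‖V z w‖) (hx : ℓ x = 0) (hv : ℓ v ≠ 0)
    (ha' : 1 < a') (hh' : IsMetric h' U') (hr' : RotInv h' U') {T S : E n → E n}
    (hT : AnalyticAt ℂ T x) (hS : AnalyticAt ℂ S (T x)) (hST : S (T x) = x)
    (hTS : ∀ᶠ w in 𝓝 (T x), T (S w) = w) (hU' : T x ∈ U') (h0 : (T x).1 = 0)
    (hp : ∀ᶠ z in 𝓝 x, ∀ v, pull a' h' (T z) (fderiv ℂ T z v) = h (P z) (V z v))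
    (hw : (fderiv ℂ T x v).2 = 0) (hSv : fderiv ℂ S (T x) (fderiv ℂ T x v) = v) :
    kn a' h' (T x) (fderiv ℂ T x v) ≤ (M * γ) ^ (1 / γ) * ‖ℓ v‖ := by
  have h1 : a' ≤ γ := Node_down ℓ hγ hc hlo hV2 hx hv ha' hh' hT hS hST hTS hU' h0 hp hw hSv
  have hw1 : (fderiv ℂ T x v).1 ≠ 0 := by
    intro h2
    apply hv
    have h3 : fderiv ℂ T x v = 0 := Prod.ext h2 hw
    rw [h3, map_zero] at hSv
    rw [← hSv, map_zero]
  have hp1 : 0 < h' (T x) (1, 0) := hh'.pos _ hU' _ fun h => one_ne_zero (congrArg Prod.fst h)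
  have hb : 0 < ‖(fderiv ℂ T x v).1‖ := norm_pos_iff.mpr hw1
  have hm : 0 < a' * h' (T x) (1, 0) * ‖(fderiv ℂ T x v).1‖ ^ a' :=
    mul_pos (mul_pos (by linarith) hp1) (Real.rpow_pos_of_pos hb _)
  have hU := fun {κ : ℝ} (hκ : κ < a' * h' (T x) (1, 0) * ‖(fderiv ℂ T x v).1‖ ^ a') =>
    Node_up ℓ hγ hup hV1 hx hv ha' hh' hr' hT hU' h0 hp hw hκ
  have h2 := Node_pow (half_pos hm) (hU (half_lt_self hm))
  have h3 : a' = γ := le_antisymm h1 (by linarith)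
  subst h3
  have h4 : a' * h' (T x) (1, 0) * ‖(fderiv ℂ T x v).1‖ ^ a' ≤ M * a' * ‖ℓ v‖ ^ a' :=
    le_of_forall_lt fun κ hκ => by
      obtain ⟨κ', h5, h6⟩ := exists_between hκ
      exact h5.trans_le (Node_eq (hU h6))
  have ha0 : 0 < a' := by linarith
  unfold kn
  rw [Node_kn ha0 (mul_nonneg ha0.le hp1.le) (norm_nonneg _),
    Node_kn ha0 (mul_nonneg hM ha0.le) (norm_nonneg _)]
  exact Real.rpow_le_rpow hm.le h4 (by positivity)

private theorem Node_scl_same (i : Fin n) (c : ℂ) (y : EuclideanSpace ℂ (Fin n)) :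
    scl i c y i = c * y i := by
  unfold scl
  simp
  ring

private theorem Node_scl_ne {i k : Fin n} (hk : k ≠ i) (c : ℂ) (y : EuclideanSpace ℂ (Fin n)) :
    scl i c y k = y k := by
  unfold scl
  simp [hk]

private theorem Node_pt2 (i : Fin n) {α β : ℝ} (hα : 1 ≤ α) (hβ : 1 ≤ β) :
    Continuous (pt2 i α β) := by
  have h1 : Continuous fun x : E n => ‖x.1‖ ^ (α - 1) :=
    (Real.continuous_rpow_const (by linarith)).comp continuous_fst.norm
  have hi : Continuous fun x : E n => x.2 i := by fun_prop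
  have h2 : Continuous fun x : E n => ‖x.2 i‖ ^ (β - 1) :=
    (Real.continuous_rpow_const (by linarith)).comp hi.norm
  have h3 : Continuous fun x : E n => (((‖x.2 i‖ ^ (β - 1) : ℝ) : ℂ) - 1) * x.2 i :=
    ((Complex.continuous_ofReal.comp h2).sub continuous_const).mul hi
  have h4 : Continuous fun x : E n => ((((‖x.2 i‖ ^ (β - 1) : ℝ) : ℂ) - 1) * x.2 i) •
      (EuclideanSpace.single i (1 : ℂ) : EuclideanSpace ℂ (Fin n)) := h3.smul continuous_const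
  have h5 : Continuous fun x : E n => scl i ((‖x.2 i‖ ^ (β - 1) : ℝ) : ℂ) x.2 :=
    continuous_snd.add h4
  exact ((Complex.continuous_ofReal.comp h1).mul continuous_fst).prodMk h5

private theorem Node_vec_fst (i : Fin n) {α β : ℝ} (hα : 1 ≤ α) (x w : E n) :
    ‖(vec2 i α β x w).1‖ = α * ‖x.1‖ ^ (α - 1) * ‖w.1‖ := by
  show ‖((α * ‖x.1‖ ^ (α - 1) : ℝ) : ℂ) * w.1‖ = _
  rw [norm_mul, Complex.norm_real, Real.norm_eq_abs,
    abs_of_nonneg (mul_nonneg (by linarith) (by positivity))]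

private theorem Node_vec_snd (i : Fin n) {α β : ℝ} (hβ : 1 ≤ β) (x w : E n) :
    ‖(vec2 i α β x w).2 i‖ = β * ‖x.2 i‖ ^ (β - 1) * ‖w.2 i‖ := by
  show ‖scl i ((β * ‖x.2 i‖ ^ (β - 1) : ℝ) : ℂ) w.2 i‖ = _
  rw [Node_scl_same, norm_mul, Complex.norm_real, Real.norm_eq_abs,
    abs_of_nonneg (mul_nonneg (by linarith) (by positivity))]

theorem node_bound (i : Fin n) {α β : ℝ} (hα : 1 ≤ α) (hβ : 1 ≤ β) {h : E n → E n → ℝ}
    {U : Set (E n)} (hh : IsMetric h U) {x₀ : E n} (hx₀ : pt2 i α β x₀ ∈ U) :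
    ∃ C : ℝ, 0 ≤ C ∧ ∀ᶠ x in 𝓝 x₀, (x.1 ≠ 0 ∨ x.2 i ≠ 0) →
      ∀ (a' : ℝ) (h' : E n → E n → ℝ) (U' : Set (E n)), 1 < a' → IsMetric h' U' → RotInv h' U' →
      ∀ T S : E n → E n, AnalyticAt ℂ T x → AnalyticAt ℂ S (T x) →
      (∀ᶠ z in 𝓝 x, S (T z) = z) → (∀ᶠ w in 𝓝 (T x), T (S w) = w) → T x ∈ U' → (T x).1 = 0 →
      (∀ᶠ z in 𝓝 x, ∀ v, pull a' h' (T z) (fderiv ℂ T z v) = h (pt2 i α β z) (vec2 i α β z v)) →
      ∀ v, (fderiv ℂ T x v).2 = 0 → kn a' h' (T x) (fderiv ℂ T x v) ≤ C * ‖v‖ := by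
  obtain ⟨M, hM, hup⟩ := Node_upp hh hx₀
  have hpc := Node_pt2 i hα hβ (n := n)
  have hup' : ∀ᶠ x in 𝓝 x₀, ∀ w, h (pt2 i α β x) w ≤ M * ‖w‖ := (hpc.tendsto x₀).eventually hup
  have hUx : ∀ᶠ x in 𝓝 x₀, pt2 i α β x ∈ U :=
    (hpc.tendsto x₀).eventually (hh.op.mem_nhds hx₀)
  refine ⟨(M * α) ^ (1 / α) + (M * β) ^ (1 / β), add_nonneg
    (Real.rpow_nonneg (mul_nonneg hM (by linarith)) _)
    (Real.rpow_nonneg (mul_nonneg hM (by linarith)) _), ?_⟩
  have hC1 : 0 ≤ (M * α) ^ (1 / α) := Real.rpow_nonneg (mul_nonneg hM (by linarith)) _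
  have hC2 : 0 ≤ (M * β) ^ (1 / β) := Real.rpow_nonneg (mul_nonneg hM (by linarith)) _
  filter_upwards [hup'.eventually_nhds, hUx] with x hx1 hx2 hne a' h' U' ha' hh' hr' T S hT hS
    hST hTS hU' h0 hp v hw
  by_cases hv : v = 0
  · rw [hv, map_zero, norm_zero, mul_zero]
    unfold kn
    simp
  have hSv : fderiv ℂ S (T x) (fderiv ℂ T x v) = v := by
    have h1 : HasFDerivAt (fun z => S (T z)) ((fderiv ℂ S (T x)).comp (fderiv ℂ T x)) x :=
      hS.differentiableAt.hasFDerivAt.comp x hT.differentiableAt.hasFDerivAt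
    have h2 : HasFDerivAt (fun z => S (T z)) (ContinuousLinearMap.id ℂ (E n)) x :=
      (hasFDerivAt_id x).congr_of_eventuallyEq hST
    have h3 := DFunLike.congr_fun (h1.unique h2) v
    exact h3
  obtain ⟨c, hc, hlo⟩ := Node_low hh hx2
  have hlo' : ∀ᶠ z in 𝓝 x, ∀ w, c * ‖w‖ ≤ h (pt2 i α β z) w := (hpc.tendsto x).eventually hlo
  have hz : vec2 i α β x v = 0 := by
    have h1 := hp.self_of_nhds v
    have h2 : pull a' h' (T x) (fderiv ℂ T x v) = 0 :=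
      (pull_zero_iff hh' (Or.inr ⟨ha', hr'⟩) (by rw [pt_zero ha' h0]; exact hU') _).2
        (Or.inr ⟨ha', h0, hw⟩)
    rw [h2] at h1
    by_contra h3
    exact (hh.pos _ hx2 _ h3).ne h1
  have hz1 : α * ‖x.1‖ ^ (α - 1) * ‖v.1‖ = 0 := by
    rw [← Node_vec_fst i (β := β) hα x v, hz]
    exact norm_zero
  have hz2 : β * ‖x.2 i‖ ^ (β - 1) * ‖v.2 i‖ = 0 := by
    rw [← Node_vec_snd i (α := α) hβ x v, hz]
    simp
  have hz3 : ∀ k, k ≠ i → v.2 k = 0 := by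
    intro k hk
    have h1 : (vec2 i α β x v).2 k = v.2 k := Node_scl_ne hk _ _
    rw [← h1, hz]
    simp
  by_cases hx0 : x.1 = 0
  · have hxi : x.2 i ≠ 0 := by
      rcases hne with h1 | h1
      · exact absurd hx0 h1
      · exact h1
    have hvi : v.2 i = 0 := by
      have h1 : 0 < ‖x.2 i‖ ^ (β - 1) := Real.rpow_pos_of_pos (norm_pos_iff.mpr hxi) _
      have h2 : 0 < β * ‖x.2 i‖ ^ (β - 1) := mul_pos (by linarith) h1
      rcases mul_eq_zero.mp hz2 with h3 | h3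
      · exact absurd h3 h2.ne'
      · exact norm_eq_zero.mp h3
    have hv2 : v.2 = 0 := by
      ext k
      by_cases hk : k = i
      · rw [hk, hvi]
        rfl
      · rw [hz3 k hk]
        rfl
    have hv1 : v.1 ≠ 0 := fun h1 => hv (Prod.ext h1 hv2)
    have hα1 : 1 < α := by
      rcases lt_or_eq_of_le hα with h1 | h1
      · exact h1
      · exfalso
        rw [← h1, sub_self, Real.rpow_zero, mul_one, one_mul] at hz1
        exact hv1 (norm_eq_zero.mp hz1)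
    have hkey := Node_key (P := pt2 i α β) (V := vec2 i α β)
      (ContinuousLinearMap.fst ℂ ℂ (EuclideanSpace ℂ (Fin n))) hα1 hM hc hx1 hlo'
      (v := v) (fun z => by
        show ‖vec2 i α β z v‖ = α * ‖z.1‖ ^ (α - 1) * ‖v.1‖
        rw [← Node_vec_fst i (β := β) hα z v]
        have h1 : (vec2 i α β z v).2 = 0 := by
          show scl i _ v.2 = 0
          rw [hv2]
          ext k
          by_cases hk : k = i
          · rw [hk, Node_scl_same]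
            simp
          · rw [Node_scl_ne hk]
        rw [Prod.norm_def, h1, norm_zero]
        exact max_eq_left (norm_nonneg _))
      (fun z w => by
        show α * ‖z.1‖ ^ (α - 1) * ‖w.1‖ ≤ ‖vec2 i α β z w‖
        rw [← Node_vec_fst i (β := β) hα z w]
        exact norm_fst_le _)
      hx0 hv1 ha' hh' hr' hT hS hST.self_of_nhds hTS hU' h0 hp hw hSv
    refine hkey.trans ?_
    have h1 : ‖(ContinuousLinearMap.fst ℂ ℂ (EuclideanSpace ℂ (Fin n))) v‖ ≤ ‖v‖ := norm_fst_le v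
    nlinarith [mul_le_mul_of_nonneg_left h1 hC1, mul_nonneg hC2 (norm_nonneg v)]
  · have hv1 : v.1 = 0 := by
      have h1 : 0 < ‖x.1‖ ^ (α - 1) := Real.rpow_pos_of_pos (norm_pos_iff.mpr hx0) _
      have h2 : 0 < α * ‖x.1‖ ^ (α - 1) := mul_pos (by linarith) h1
      rcases mul_eq_zero.mp hz1 with h3 | h3
      · exact absurd h3 h2.ne'
      · exact norm_eq_zero.mp h3
    have hvi : v.2 i ≠ 0 := by
      intro h1
      apply hv
      refine Prod.ext hv1 ?_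
      ext k
      by_cases hk : k = i
      · rw [hk, h1]
        rfl
      · rw [hz3 k hk]
        rfl
    have hβ1 : 1 < β := by
      rcases lt_or_eq_of_le hβ with h1 | h1
      · exact h1
      · exfalso
        rw [← h1, sub_self, Real.rpow_zero, mul_one, one_mul] at hz2
        exact hvi (norm_eq_zero.mp hz2)
    have hxi : x.2 i = 0 := by
      by_contra h1
      have h2 : 0 < ‖x.2 i‖ ^ (β - 1) := Real.rpow_pos_of_pos (norm_pos_iff.mpr h1) _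
      have h3 : 0 < β * ‖x.2 i‖ ^ (β - 1) * ‖v.2 i‖ :=
        mul_pos (mul_pos (by linarith) h2) (norm_pos_iff.mpr hvi)
      exact h3.ne' hz2
    have hnorm : ∀ u : EuclideanSpace ℂ (Fin n), (∀ k, k ≠ i → u k = 0) → ‖u‖ = ‖u i‖ := by
      intro u hu
      have h1 : u = EuclideanSpace.single i (u i) := by
        ext k
        by_cases hk : k = i
        · rw [hk]
          simp
        · rw [hu k hk]
          simp [hk]
      conv_lhs => rw [h1]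
      simp
    have hkey := Node_key (P := pt2 i α β) (V := vec2 i α β)
      ((EuclideanSpace.proj i : EuclideanSpace ℂ (Fin n) →L[ℂ] ℂ).comp
        (ContinuousLinearMap.snd ℂ ℂ (EuclideanSpace ℂ (Fin n)))) hβ1 hM hc hx1 hlo'
      (v := v) (fun z => by
        show ‖vec2 i α β z v‖ = β * ‖z.2 i‖ ^ (β - 1) * ‖v.2 i‖
        rw [← Node_vec_snd i (α := α) hβ z v]
        have h1 : (vec2 i α β z v).1 = 0 := by
          show _ * v.1 = 0
          rw [hv1, mul_zero]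
        rw [Prod.norm_def, h1, norm_zero, hnorm (vec2 i α β z v).2 fun k hk => by
          show scl i _ v.2 k = 0
          rw [Node_scl_ne hk, hz3 k hk]]
        exact max_eq_right (norm_nonneg _))
      (fun z w => by
        show β * ‖z.2 i‖ ^ (β - 1) * ‖w.2 i‖ ≤ ‖vec2 i α β z w‖
        rw [← Node_vec_snd i (α := α) hβ z w]
        exact (PiLp.norm_apply_le _ i).trans (norm_snd_le _))
      hxi hvi ha' hh' hr' hT hS hST.self_of_nhds hTS hU' h0 hp hw hSv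
    refine hkey.trans ?_
    have h1 : ‖((EuclideanSpace.proj i : EuclideanSpace ℂ (Fin n) →L[ℂ] ℂ).comp
        (ContinuousLinearMap.snd ℂ ℂ (EuclideanSpace ℂ (Fin n)))) v‖ ≤ ‖v‖ :=
      (PiLp.norm_apply_le v.2 i).trans (norm_snd_le v)
    nlinarith [mul_le_mul_of_nonneg_left h1 hC2, mul_nonneg hC1 (norm_nonneg v)]

end Pool.Agent.Nef6.SM
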